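import Pool.Agent.KZ.Tr

/-!
# KQ, the host lemmas: statements

A double point (`HOST0`), resp. `s` double points on `L_i` (`HOST1`) against one triple point (the host)
on `L_i`.
-/

set_option autoImplicit false

namespace Pool.Agent.KQ

open Finset Pool.Agent.KZ Pool.Agent.V7.ST
open Pool.Agent.V7 (blk)

/-- The set of a kind. -/
def st : Kd → Finset ℕ
  | .ord _ I => I
  | .pr _ I => I
  | .tr _ I => I

/-- The number of the triple points of an object which do not lie on `L_i`. -/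
def tc (i : ℕ) (k : Kd) : ℕ := if i ∈ st k then 0 else (univ.filter fun x => mu k x = 3).card

/-- The number of the triple points which do not lie on `L_i`. -/
def trp (i : ℕ) (B : Multiset Kd) : ℕ := (B.map (tc i)).sum

def HOST0 : Prop := ∀ c n j i w : ℕ, 2 ≤ c → i < j → (j + 1) * c ≤ n → w + j * c + 7 ≤ n →
  ∀ B : Multiset Kd, (∀ k ∈ B, KOk j k) → trp i B ≤ (c - 1) * w →
    (gM (LS (blk c n) j) (Kd.ord 2 ∅ ::ₘ B) : ℤ) + trp i B + n ≤
      gM (LS (blk c n) j) (Kd.ord 3 {i} ::ₘ B) + dl c n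

def HOST1 : Prop := ∀ c n j i w s : ℕ, 1 ≤ c → i < j → (j + 1) * c ≤ n → 1 ≤ s →
  w + j * c + s + 6 ≤ n → ∀ B : Multiset Kd, (∀ k ∈ B, KOk j k) → trp i B ≤ c * w →
    (gM (LS (blk c n) j) (Multiset.replicate s (Kd.ord 2 {i}) + B) : ℤ) + trp i B + s * c ≤
      gM (LS (blk c n) j) (Kd.ord 3 {i} ::ₘ B) + dl c n

end Pool.Agent.KQ
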