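import Pool.Agent.KQ.M.Defs
import Pool.Agent.KQ.M.HostDefs
import Pool.Agent.KZ.Num.Add
import Pool.Agent.KZ.Num.N1R

/-!
# KQ, many double points: ALPHA

The double points are replaced by few triple points (hosts) on `L_0`, `L_1`: `ALPHA2K` from `ALPHA2`,
`ALPHA1K` from `PROP1`.
-/

set_option autoImplicit false

namespace Pool.Agent.KQ

open Finset Pool.Agent.KZ Pool.Agent.V7.ST
open Pool.Agent.V7 (blk)

theorem trp_add (i : ℕ) (B B' : Multiset Kd) : trp i (B + B') = trp i B + trp i B' := by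
  unfold trp
  rw [Multiset.map_add, Multiset.sum_add]

theorem trp_rep (i m : ℕ) (k : Kd) : trp i (Multiset.replicate m k) = m * tc i k := by
  unfold trp
  rw [Multiset.map_replicate, Multiset.sum_replicate, smul_eq_mul]

theorem trp_L1 (a : L1) : trp 0 a.ms = a.T := by
  have k1 : tc 0 (Kd.ord 3 ∅) = 1 := by decide
  have k2 : tc 0 (Kd.pr 0 ∅) = 2 := by decide
  have k3 : tc 0 (Kd.tr 0 ∅) = 3 := by decide
  have k4 : tc 0 (Kd.ord 3 {0}) = 0 := by decide
  have k5 : tc 0 (Kd.ord 2 ∅) = 0 := by decide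
  have k6 : tc 0 (Kd.ord 2 {0}) = 0 := by decide
  have k7 : tc 0 (Kd.ord 1 ∅) = 0 := by decide
  unfold L1.ms L1.T
  simp only [trp_add, trp_rep, k1, k2, k3, k4, k5, k6, k7]
  ring

theorem trp_L2_0 (a : L2) : trp 0 a.ms = a.T + a.Y := by
  have k1 : tc 0 (Kd.ord 3 ∅) = 1 := by decide
  have k2 : tc 0 (Kd.pr 0 ∅) = 2 := by decide
  have k3 : tc 0 (Kd.tr 0 ∅) = 3 := by decide
  have k3' : tc 0 (Kd.tr 1 ∅) = 3 := by decide
  have k4 : tc 0 (Kd.ord 3 {0}) = 0 := by decide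
  have k4' : tc 0 (Kd.pr 1 {0}) = 0 := by decide
  have k5 : tc 0 (Kd.ord 3 {1}) = 1 := by decide
  have k6 : tc 0 (Kd.pr 0 {1}) = 2 := by decide
  have k7 : tc 0 (Kd.tr 0 {1}) = 3 := by decide
  have k8 : tc 0 (Kd.ord 3 {0, 1}) = 0 := by decide
  have k9 : tc 0 (Kd.ord 2 ∅) = 0 := by decide
  have k10 : tc 0 (Kd.ord 2 {0}) = 0 := by decide
  have k11 : tc 0 (Kd.ord 2 {1}) = 0 := by decide
  unfold L2.ms L2.T L2.Y
  simp only [trp_add, trp_rep, k1, k2, k3, k3', k4, k4', k5, k6, k7, k8, k9, k10, k11]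
  ring

theorem trp_L2_1 (a : L2) : trp 1 a.ms = a.T + a.U := by
  have k1 : tc 1 (Kd.ord 3 ∅) = 1 := by decide
  have k2 : tc 1 (Kd.pr 0 ∅) = 2 := by decide
  have k3 : tc 1 (Kd.tr 0 ∅) = 3 := by decide
  have k3' : tc 1 (Kd.tr 1 ∅) = 3 := by decide
  have k4 : tc 1 (Kd.ord 3 {0}) = 1 := by decide
  have k4' : tc 1 (Kd.pr 1 {0}) = 2 := by decide
  have k5 : tc 1 (Kd.ord 3 {1}) = 0 := by decide
  have k6 : tc 1 (Kd.pr 0 {1}) = 0 := by decide
  have k7 : tc 1 (Kd.tr 0 {1}) = 0 := by decide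
  have k8 : tc 1 (Kd.ord 3 {0, 1}) = 0 := by decide
  have k9 : tc 1 (Kd.ord 2 ∅) = 0 := by decide
  have k10 : tc 1 (Kd.ord 2 {0}) = 0 := by decide
  have k11 : tc 1 (Kd.ord 2 {1}) = 0 := by decide
  unfold L2.ms L2.T L2.U
  simp only [trp_add, trp_rep, k1, k2, k3, k3', k4, k4', k5, k6, k7, k8, k9, k10, k11]
  ring

theorem kok_L1 (a : L1) : ∀ k ∈ a.ms, KOk 1 k := by
  intro k hk
  simp only [L1.ms, Multiset.mem_add] at hk
  rcases hk with (((((hk | hk) | hk) | hk) | hk) | hk) | hk <;>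
    rw [Multiset.eq_of_mem_replicate hk] <;> simp [KOk]

theorem kok_L2 (a : L2) : ∀ k ∈ a.ms, KOk 2 k := by
  intro k hk
  simp only [L2.ms, Multiset.mem_add] at hk
  rcases hk with (((((((((((hk | hk) | hk) | hk) | hk) | hk) | hk) | hk) | hk) | hk) | hk) | hk) | hk <;>
    rw [Multiset.eq_of_mem_replicate hk] <;> simp [KOk]

/-- The iteration: `W` double points, `s₀` at a time. -/
theorem iter_host (D : ℕ → ℕ → ℤ) (s₀ : ℕ) (hs : 1 ≤ s₀)
    (h : ∀ x u s, 1 ≤ s → s ≤ s₀ → D (x + s) u ≤ D x (u + 1)) (W : ℕ) :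
    ∀ u, ∃ k, k ≤ W / s₀ + 1 ∧ D W u ≤ D 0 (u + k) := by
  induction W using Nat.strong_induction_on with
  | _ W ih =>
    intro u
    rcases Nat.eq_zero_or_pos W with h0 | h0
    · exact ⟨0, Nat.zero_le _, by rw [h0, add_zero]⟩
    by_cases h1 : W ≤ s₀
    · refine ⟨1, Nat.le_add_left 1 _, ?_⟩
      have h2 := h 0 u W h0 h1
      rwa [zero_add] at h2
    · push Not at h1
      obtain ⟨k, hk, hk'⟩ := ih (W - s₀) (by omega) (u + 1)
      refine ⟨k + 1, ?_, ?_⟩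
      · have h2 : W / s₀ = (W - s₀) / s₀ + 1 := by
          conv_lhs => rw [show W = (W - s₀) + s₀ by omega]
          exact Nat.add_div_right _ hs
        omega
      · have h2 := h (W - s₀) u s₀ hs le_rfl
        rw [Nat.sub_add_cancel h1.le] at h2
        refine h2.trans (hk'.trans (le_of_eq ?_))
        rw [show u + 1 + k = u + (k + 1) by ring]

/-- The defects. -/
noncomputable def D1 (c n : ℕ) (a : L1) : ℤ := (H1 c n a : ℤ) - v1 c n a

noncomputable def D2 (c n : ℕ) (a : L2) : ℤ := (H2 c n a : ℤ) - v2 c n a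

/-- Room. -/
theorem room {c n C m : ℕ} (hc : 2 ≤ c) (hC : 4 * C ≤ c * n) (hm : n ≤ 2 * m) :
    C ≤ (c - 1) * m ∧ C ≤ c * m := by
  have h0 : c ≤ 2 * (c - 1) := by omega
  have h1 : c * n ≤ 2 * (c - 1) * (2 * m) := Nat.mul_le_mul h0 hm
  have h2 : 2 * (c - 1) * (2 * m) = 4 * ((c - 1) * m) := by ring
  have h3 : (c - 1) * m ≤ c * m := Nat.mul_le_mul_right _ (Nat.sub_le _ _)
  omega

section

variable (h0 : HOST0) (h1 : HOST1) {c n : ℕ} (hc : 2 ≤ c) (hn : 8 * c + 28 ≤ n)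
include hc hn

include h0 in
theorem D1_d (a : L1) (hC : 4 * a.T ≤ c * n) :
    D1 c n { a with d := a.d + 1 } ≤ D1 c n { a with u := a.u + 1 } := by
  obtain ⟨h2, h3⟩ := room (C := a.T) (m := n - c - 7) hc hC (by omega)
  have h4 := h0 c n 1 0 (n - c - 7) (by omega) (by omega) (by omega) (by omega) a.ms (kok_L1 a)
    (by rw [trp_L1]; exact h2)
  rw [trp_L1] at h4
  have e1 : ({ a with d := a.d + 1 } : L1).ms = Kd.ord 2 ∅ ::ₘ a.ms := by
    unfold L1.ms
    simp only [Multiset.replicate_add, Multiset.replicate_one, ← Multiset.singleton_add]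
    ac_rfl
  have e2 : ({ a with u := a.u + 1 } : L1).ms = Kd.ord 3 {0} ::ₘ a.ms := by
    unfold L1.ms
    simp only [Multiset.replicate_add, Multiset.replicate_one, ← Multiset.singleton_add]
    ac_rfl
  have e3 : v1 c n { a with d := a.d + 1 } = v1 c n a - n := by
    unfold v1 L1.T
    simp only
    push_cast
    ring
  have e4 := v1_u c n a 1
  unfold D1 H1
  rw [e1, e2, e3, e4]
  push_cast
  linarith

include h1 in
theorem D1_w (a : L1) (hC : 4 * a.T ≤ c * n) (s : ℕ) (hs : 1 ≤ s) (hs' : s ≤ n / 4) :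
    D1 c n { a with w := a.w + s } ≤ D1 c n { a with u := a.u + 1 } := by
  obtain ⟨h2, h3⟩ := room (C := a.T) (m := n - c - s - 6) hc hC (by omega)
  have h4 := h1 c n 1 0 (n - c - s - 6) s (by omega) (by omega) (by omega) hs (by omega) a.ms
    (kok_L1 a) (by rw [trp_L1]; exact h3)
  rw [trp_L1] at h4
  have e1 : ({ a with w := a.w + s } : L1).ms = Multiset.replicate s (Kd.ord 2 {0}) + a.ms := by
    unfold L1.ms
    simp only [Multiset.replicate_add]
    ac_rfl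
  have e2 : ({ a with u := a.u + 1 } : L1).ms = Kd.ord 3 {0} ::ₘ a.ms := by
    unfold L1.ms
    simp only [Multiset.replicate_add, Multiset.replicate_one, ← Multiset.singleton_add]
    ac_rfl
  have e3 : v1 c n { a with w := a.w + s } = v1 c n a - s * c := by
    unfold v1 L1.T
    simp only
    push_cast
    ring
  have e4 := v1_u c n a 1
  unfold D1 H1
  rw [e1, e2, e3, e4]
  push_cast
  linarith

omit hc hn in
theorem v2_u1 (a : L2) : v2 c n { a with u := a.u + 1 } = v2 c n a - dl c n + a.T + a.Y := by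
  unfold v2 L2.T L2.U L2.Y
  simp only
  push_cast
  ring

omit hc hn in
theorem v2_y1 (a : L2) : v2 c n { a with y := a.y + 1 } = v2 c n a - dl c n + a.T + a.U := by
  unfold v2 L2.T L2.U L2.Y
  simp only
  push_cast
  ring

include h0 in
theorem D2_d (a : L2) (hC : 4 * (a.T + a.Y) ≤ c * n) :
    D2 c n { a with d := a.d + 1 } ≤ D2 c n { a with u := a.u + 1 } := by
  obtain ⟨h2, h3⟩ := room (C := a.T + a.Y) (m := n - 2 * c - 7) hc hC (by omega)
  have h4 := h0 c n 2 0 (n - 2 * c - 7) (by omega) (by omega) (by omega) (by omega) a.ms (kok_L2 a)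
    (by rw [trp_L2_0]; exact h2)
  rw [trp_L2_0] at h4
  have e1 : ({ a with d := a.d + 1 } : L2).ms = Kd.ord 2 ∅ ::ₘ a.ms := by
    unfold L2.ms
    simp only [Multiset.replicate_add, Multiset.replicate_one, ← Multiset.singleton_add]
    ac_rfl
  have e2 : ({ a with u := a.u + 1 } : L2).ms = Kd.ord 3 {0} ::ₘ a.ms := by
    unfold L2.ms
    simp only [Multiset.replicate_add, Multiset.replicate_one, ← Multiset.singleton_add]
    ac_rfl
  have e3 : v2 c n { a with d := a.d + 1 } = v2 c n a - n := by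
    unfold v2 L2.T L2.U L2.Y
    simp only
    push_cast
    ring
  have e4 := v2_u1 (c := c) (n := n) a
  unfold D2 H2
  rw [e1, e2, e3, e4]
  push_cast at h4
  linarith

include h1 in
theorem D2_w (a : L2) (hC : 4 * (a.T + a.Y) ≤ c * n) (s : ℕ) (hs : 1 ≤ s) (hs' : s ≤ n / 4) :
    D2 c n { a with w := a.w + s } ≤ D2 c n { a with u := a.u + 1 } := by
  obtain ⟨h2, h3⟩ := room (C := a.T + a.Y) (m := n - 2 * c - s - 6) hc hC (by omega)
  have h4 := h1 c n 2 0 (n - 2 * c - s - 6) s (by omega) (by omega) (by omega) hs (by omega) a.ms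
    (kok_L2 a) (by rw [trp_L2_0]; exact h3)
  rw [trp_L2_0] at h4
  have e1 : ({ a with w := a.w + s } : L2).ms = Multiset.replicate s (Kd.ord 2 {0}) + a.ms := by
    unfold L2.ms
    simp only [Multiset.replicate_add]
    ac_rfl
  have e2 : ({ a with u := a.u + 1 } : L2).ms = Kd.ord 3 {0} ::ₘ a.ms := by
    unfold L2.ms
    simp only [Multiset.replicate_add, Multiset.replicate_one, ← Multiset.singleton_add]
    ac_rfl
  have e3 : v2 c n { a with w := a.w + s } = v2 c n a - s * c := by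
    unfold v2 L2.T L2.U L2.Y
    simp only
    push_cast
    ring
  have e4 := v2_u1 (c := c) (n := n) a
  unfold D2 H2
  rw [e1, e2, e3, e4]
  push_cast at h4
  linarith

include h1 in
theorem D2_z (a : L2) (hC : 4 * (a.T + a.U) ≤ c * n) (s : ℕ) (hs : 1 ≤ s) (hs' : s ≤ n / 4) :
    D2 c n { a with z := a.z + s } ≤ D2 c n { a with y := a.y + 1 } := by
  obtain ⟨h2, h3⟩ := room (C := a.T + a.U) (m := n - 2 * c - s - 6) hc hC (by omega)
  have h4 := h1 c n 2 1 (n - 2 * c - s - 6) s (by omega) (by omega) (by omega) hs (by omega) a.ms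
    (kok_L2 a) (by rw [trp_L2_1]; exact h3)
  rw [trp_L2_1] at h4
  have e1 : ({ a with z := a.z + s } : L2).ms = Multiset.replicate s (Kd.ord 2 {1}) + a.ms := by
    unfold L2.ms
    simp only [Multiset.replicate_add]
    ac_rfl
  have e2 : ({ a with y := a.y + 1 } : L2).ms = Kd.ord 3 {1} ::ₘ a.ms := by
    unfold L2.ms
    simp only [Multiset.replicate_add, Multiset.replicate_one, ← Multiset.singleton_add]
    ac_rfl
  have e3 : v2 c n { a with z := a.z + s } = v2 c n a - s * c := by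
    unfold v2 L2.T L2.U L2.Y
    simp only
    push_cast
    ring
  have e4 := v2_y1 (c := c) (n := n) a
  unfold D2 H2
  rw [e1, e2, e3, e4]
  push_cast at h4
  linarith

end

/-- The number of the hosts. -/
theorem hosts_le {K n W m : ℕ} (hn : 8 ≤ n) (hW : W ≤ K * (m * n)) :
    W / (n / 4) + 1 ≤ 8 * K * m + 1 := by
  have h1 : W / (n / 4) ≤ 8 * K * m := by
    apply Nat.div_le_of_le_mul
    have h2 : n ≤ 8 * (n / 4) := by omega
    calc W ≤ K * (m * n) := hW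
      _ ≤ K * (m * (8 * (n / 4))) := Nat.mul_le_mul_left _ (Nat.mul_le_mul_left _ h2)
      _ = (n / 4) * (8 * K * m) := by ring
  omega

/-- `d` double points off `L_0` and `w` double points on `L_0` against hosts on `L_0`. -/
theorem D1_hosts (h0 : HOST0) (h1 : HOST1) {c n K : ℕ} (hc : 2 ≤ c) (hn : 8 * c + 28 ≤ n)
    (t p q u d w : ℕ) (hT : 4 * (t + 2 * p + 3 * q) ≤ c * n) (hd : d ≤ K * n) (hw : w ≤ K * n ^ 2) :
    ∃ k, k ≤ 9 * K * n + 1 ∧
      D1 c n ⟨t, p, q, u, d, w, 0⟩ ≤ D1 c n ⟨t, p, q, u + k, 0, 0, 0⟩ := by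
  -- the points off `L_0`
  have hd' : ∀ d u, D1 c n ⟨t, p, q, u, d, w, 0⟩ ≤ D1 c n ⟨t, p, q, u + d, 0, w, 0⟩ := by
    intro d
    induction d with
    | zero => exact fun u => le_rfl
    | succ d ih =>
      intro u
      have h2 := D1_d h0 hc hn ⟨t, p, q, u, d, w, 0⟩ hT
      refine h2.trans ((ih (u + 1)).trans (le_of_eq ?_))
      rw [show u + 1 + d = u + (d + 1) by ring]
  obtain ⟨k, hk, hk'⟩ := iter_host (fun x u => D1 c n ⟨t, p, q, u, 0, x, 0⟩) (n / 4) (by omega)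
    (fun x u s hs hs' => D1_w h1 hc hn ⟨t, p, q, u, 0, x, 0⟩ hT s hs hs') w (u + d)
  refine ⟨d + k, ?_, ?_⟩
  · have h2 := hosts_le (K := K) (n := n) (W := w) (m := n) (by omega) (by
      refine hw.trans (le_of_eq ?_)
      ring)
    have h3 : 9 * K * n = K * n + 8 * K * n := by ring
    omega
  · refine (hd' d u).trans (hk'.trans (le_of_eq ?_))
    rw [show u + d + k = u + (d + k) by ring]

/-- `v1` is not negative with few points on `L_0`. -/
theorem v1_nonneg {c n K : ℕ} (hc : 240 ≤ c) (hn : 30 * c + 200 * K + 100 ≤ n) (t p q u : ℕ)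
    (hT : |((t + 2 * p + 3 * q : ℕ) : ℝ) - xx * c * n| ≤ 1 * n) (hu : u ≤ 9 * K * n + 1) :
    0 ≤ v1 c n ⟨t, p, q, u, 0, 0, 0⟩ := by
  obtain ⟨T, hTdef⟩ : ∃ T, T = t + 2 * p + 3 * q := ⟨_, rfl⟩
  have h1 : (0 : ℝ) ≤ ((v1 c n ⟨t, p, q, u, 0, 0, 0⟩ : ℤ) : ℝ) := by
    rw [v1_cast c n (by omega)]
    have e0 : L1.T ⟨t, p, q, u, 0, 0, 0⟩ = T := by rw [hTdef]; rfl
    rw [e0]
    rw [← hTdef] at hT
    have hT2 := (abs_le.1 hT).2
    have hxx := xx_bd.2
    have hcR : (240 : ℝ) ≤ c := by exact_mod_cast hc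
    have hnR : (30 : ℝ) * c + 200 * K + 100 ≤ n := by exact_mod_cast hn
    have huR : (u : ℝ) ≤ 9 * K * n + 1 := by exact_mod_cast hu
    have hK0 : (0 : ℝ) ≤ K := Nat.cast_nonneg K
    have hT0 : (0 : ℝ) ≤ T := Nat.cast_nonneg T
    have hu0 : (0 : ℝ) ≤ u := Nat.cast_nonneg u
    have hp0 : (0 : ℝ) ≤ p := Nat.cast_nonneg p
    have hq0 : (0 : ℝ) ≤ q := Nat.cast_nonneg q
    have hn0 : (0 : ℝ) ≤ n := Nat.cast_nonneg n
    have hcn : (0 : ℝ) ≤ (c : ℝ) * n := by positivity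
    have hTT : (0 : ℝ) ≤ (T : ℝ) * ((T : ℝ) - 1) / 2 := by
      rcases Nat.eq_zero_or_pos T with h | h
      · rw [h]
        norm_num
      · have : (1 : ℝ) ≤ T := by exact_mod_cast h
        apply div_nonneg _ (by norm_num)
        exact mul_nonneg hT0 (by linarith)
    have hT3 : (T : ℝ) ≤ 0.19 * (c * n) := by
      have h5 : xx * c * n ≤ 0.18351 * (c * n) := by
        rw [mul_assoc]
        exact mul_le_mul_of_nonneg_right hxx.le hcn
      have h6 : (240 : ℝ) * n ≤ c * n := mul_le_mul_of_nonneg_right hcR hn0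
      linarith
    have hP : P4 n - P4 (n - c) ≥ (c : ℝ) * n ^ 3 / 6 - 1.5 * c ^ 2 * n ^ 2 := by
      obtain ⟨C, hC⟩ : ∃ C : ℝ, C = (c : ℝ) := ⟨_, rfl⟩
      obtain ⟨N, hN⟩ : ∃ N : ℝ, N = (n : ℝ) := ⟨_, rfl⟩
      rw [← hC, ← hN]
      rw [← hC] at hcR
      rw [← hC, ← hN] at hnR
      have b1 : C ≤ N := by linarith
      have b2 : (1 : ℝ) ≤ N := by linarith
      have b3 : (1 : ℝ) ≤ C := by linarith
      have e : P4 N - P4 (N - C) = (4 * C * N ^ 3 - 6 * C ^ 2 * N ^ 2 + 4 * C ^ 3 * N - C ^ 4 +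
          6 * (3 * C * N ^ 2 - 3 * C ^ 2 * N + C ^ 3) + 11 * (2 * C * N - C ^ 2) + 6 * C) / 24 := by
        unfold P4
        ring
      rw [e]
      have c1 : C ^ 4 ≤ C ^ 2 * N ^ 2 := by
        have : C ^ 2 ≤ N ^ 2 := pow_le_pow_left₀ (by linarith) b1 2
        have := mul_le_mul_of_nonneg_left this (by positivity : (0 : ℝ) ≤ C ^ 2)
        nlinarith
      have c2 : C ^ 2 * N ≤ C ^ 2 * N ^ 2 := by
        have : N ≤ N ^ 2 := by nlinarith
        exact mul_le_mul_of_nonneg_left this (by positivity)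
      have c3 : C ^ 2 ≤ C ^ 2 * N ^ 2 := by
        have : 1 ≤ N ^ 2 := by nlinarith
        have := mul_le_mul_of_nonneg_left this (by positivity : (0 : ℝ) ≤ C ^ 2)
        linarith
      have c4 : 0 ≤ C ^ 3 * N := by positivity
      have c5 : 0 ≤ C * N ^ 2 := by positivity
      have c6 : 0 ≤ C ^ 3 := by positivity
      have c7 : 0 ≤ C * N := by positivity
      linarith
    have h7 : (T : ℝ) * ((n : ℝ) * (n + 1) / 2) ≤ 0.19 * (c * n) * ((n : ℝ) * (n + 1) / 2) :=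
      mul_le_mul_of_nonneg_right hT3 (by positivity)
    have h8 : (u : ℝ) * (c * n - c * (c - 1) / 2) ≤ (9 * K * n + 1) * (c * n) := by
      have e1 : (c : ℝ) * n - c * (c - 1) / 2 ≤ c * n := by
        have : (0 : ℝ) ≤ (c : ℝ) * (c - 1) := mul_nonneg (by linarith) (by linarith)
        linarith
      exact mul_le_mul huR e1 (by nlinarith) (by positivity)
    have h9 : (0 : ℝ) ≤ (p : ℝ) * (n - c) := mul_nonneg hp0 (by linarith)
    have h10 : (0 : ℝ) ≤ (T : ℝ) * u := mul_nonneg hT0 hu0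
    have h11 : (c : ℝ) * n ≤ c * n ^ 2 := by
      have : (n : ℝ) ≤ n ^ 2 := by nlinarith
      exact mul_le_mul_of_nonneg_left this (by linarith)
    have h12 : (30 * (c : ℝ) + 200 * K + 100) * (c * n ^ 2) ≤ n * (c * n ^ 2) :=
      mul_le_mul_of_nonneg_right hnR (by positivity)
    have h13 : (0 : ℝ) ≤ (c : ℝ) * n ^ 2 := by positivity
    have h14 : (0 : ℝ) ≤ (K : ℝ) * (c * n ^ 2) := by positivity
    have h15 : (0 : ℝ) ≤ (c : ℝ) * (c * n ^ 2) := by positivity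
    push_cast
    simp only [zero_mul, sub_zero]
    have h16 : (0.19 : ℝ) * (c * n) * ((n : ℝ) * (n + 1) / 2) =
        0.095 * (n * (c * n ^ 2)) + 0.095 * (c * n ^ 2) := by ring
    have h17 : (9 * (K : ℝ) * n + 1) * (c * n) = 9 * (K * (c * n ^ 2)) + c * n := by ring
    have h18 : (c : ℝ) * n ^ 3 / 6 - 1.5 * c ^ 2 * n ^ 2 =
        (n * (c * n ^ 2)) / 6 - 1.5 * (c * (c * n ^ 2)) := by ring
    have h19 : (30 * (c : ℝ) + 200 * K + 100) * (c * n ^ 2) =
        30 * (c * (c * n ^ 2)) + 200 * (K * (c * n ^ 2)) + 100 * (c * n ^ 2) := by ring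
    rw [h16] at h7
    rw [h17] at h8
    rw [h18] at hP
    rw [h19] at h12
    have hq0' := hq0
    generalize P4 (n : ℝ) - P4 (n - c) = x1 at *
    generalize (T : ℝ) * ((n : ℝ) * (n + 1) / 2) = x2 at *
    generalize (u : ℝ) * (c * n - c * (c - 1) / 2) = x3 at *
    generalize (T : ℝ) * ((T : ℝ) - 1) / 2 = x4 at *
    generalize (T : ℝ) * u = x5 at *
    generalize (p : ℝ) * (n - c) = x6 at *
    generalize (n : ℝ) * (c * n ^ 2) = x7 at *
    generalize (c : ℝ) * (c * n ^ 2) = x8 at *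
    generalize (K : ℝ) * (c * n ^ 2) = x9 at *
    generalize (c : ℝ) * n ^ 2 = x10 at *
    linarith
  exact_mod_cast h1

theorem alpha1K_of (c : ℕ) (hc : 240 ≤ c) (h0 : HOST0) (h1 : HOST1) (hP : PROP1 c) :
    ALPHA1K c := by
  intro K
  obtain ⟨e₁, he₁, n₁, hP⟩ := hP
  refine ⟨min e₁ 1, lt_min he₁ one_pos, n₁ + 30 * c + 200 * K + 100, ?_⟩
  rintro n hn ⟨t, p, q, u, d, w, s⟩ ha hau has
  simp only at hau has
  subst hau has
  have hn0 : (0 : ℝ) ≤ (n : ℝ) := Nat.cast_nonneg _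
  have hT1 : |((t + 2 * p + 3 * q : ℕ) : ℝ) - xx * c * n| ≤ 1 * n :=
    ha.T.trans (mul_le_mul_of_nonneg_right (min_le_right _ _) hn0)
  have hT4 : 4 * (t + 2 * p + 3 * q) ≤ c * n := by
    have h2 := (abs_le.1 hT1).2
    have hxx := xx_bd.2
    have hcR : (240 : ℝ) ≤ c := by exact_mod_cast hc
    have hcn : (0 : ℝ) ≤ (c : ℝ) * n := by positivity
    have h5 : xx * c * n ≤ 0.18351 * (c * n) := by
      rw [mul_assoc]
      exact mul_le_mul_of_nonneg_right hxx.le hcn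
    have h6 : (240 : ℝ) * n ≤ c * n := mul_le_mul_of_nonneg_right hcR hn0
    have h7 : 4 * ((t + 2 * p + 3 * q : ℕ) : ℝ) ≤ c * n := by linarith
    exact_mod_cast h7
  obtain ⟨k, hk, hk'⟩ := D1_hosts h0 h1 (by omega : 2 ≤ c) (by omega : 8 * c + 28 ≤ n) t p q 0 d w
    hT4 ha.d ha.w
  rw [zero_add] at hk'
  have h3 := hP n (by omega) ⟨t, p, q, k, 0, 0, 0⟩ ⟨⟨ha.p, ha.q, by simp, by simp⟩,
    ha.T.trans (mul_le_mul_of_nonneg_right (min_le_left _ _) hn0)⟩ rfl
  have h4 := v1_nonneg hc (by omega : 30 * c + 200 * K + 100 ≤ n) t p q k hT1 hk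
  rw [max_eq_right h4] at h3
  unfold D1 at hk'
  linarith

theorem alpha2K_of (c : ℕ) (hc : 240 ≤ c) (h0 : HOST0) (h1 : HOST1) (hA : ALPHA2 c) :
    ALPHA2K c := by
  intro K
  obtain ⟨e₁, he₁, n₁, hA⟩ := hA
  obtain ⟨e, hedef⟩ : ∃ e, e = min (e₁ / 2) 1 := ⟨_, rfl⟩
  have he : 0 < e := by rw [hedef]; exact lt_min (by linarith) one_pos
  have hee : e ≤ e₁ / 2 := by rw [hedef]; exact min_le_left _ _
  have he1 : e ≤ 1 := by rw [hedef]; exact min_le_right _ _
  obtain ⟨m, hm⟩ := exists_nat_ge ((9 * (K : ℝ) + 1) / (e₁ / 2))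
  rw [div_le_iff₀ (by linarith)] at hm
  refine ⟨e, he, n₁ + m + c ^ 2 + 8 * c + 10 * K + 100, ?_⟩
  rintro n hn k hk ⟨t, p, q, r, u, pu, y, py, qy, x, d, w, z⟩ ha hax
  simp only at hax
  subst hax
  have hc2 : 0 ≤ c ^ 2 := Nat.zero_le _
  have hn0 : (0 : ℝ) ≤ (n : ℝ) := Nat.cast_nonneg _
  have hnm : (9 * (K : ℝ) + 1) ≤ e₁ / 2 * n := by
    have : (m : ℝ) ≤ n := by
      have : m ≤ n := by omega
      exact_mod_cast this
    have h2 := mul_le_mul_of_nonneg_right this (by linarith : (0 : ℝ) ≤ e₁ / 2)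
    linarith
  have hT : k * (t + 2 * p + 3 * q + 3 * r) = c ^ 2 := ha.T
  have hU : |((u + 2 * pu : ℕ) : ℝ) - (3 * xx - 1 / k) / 2 * c * n| ≤ e * n := ha.U
  have hY : |((y + 2 * py + 3 * qy : ℕ) : ℝ) - xx * c * n| ≤ e * n := ha.Y
  have hT1 : t + 2 * p + 3 * q + 3 * r ≤ n := by
    have h2 : t + 2 * p + 3 * q + 3 * r ≤ k * (t + 2 * p + 3 * q + 3 * r) :=
      Nat.le_mul_of_pos_left _ (by omega)
    omega
  have hcR : (240 : ℝ) ≤ c := by exact_mod_cast hc
  have hcn : (0 : ℝ) ≤ (c : ℝ) * n := by positivity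
  have h240 : (240 : ℝ) * n ≤ c * n := mul_le_mul_of_nonneg_right hcR hn0
  have hKn : 10 * (K : ℝ) + 100 ≤ n := by
    have : 10 * K + 100 ≤ n := by omega
    exact_mod_cast this
  have hTR : ((t + 2 * p + 3 * q + 3 * r : ℕ) : ℝ) ≤ n := by exact_mod_cast hT1
  have hK0 : (0 : ℝ) ≤ K := Nat.cast_nonneg K
  -- the bounds for the hosts
  have hU4 : 4 * ((t + 2 * p + 3 * q + 3 * r) + (u + 2 * pu)) ≤ c * n := by
    have h2 := (abs_le.1 hU).2
    have h3 : (3 * xx - 1 / (k : ℝ)) / 2 ≤ 0.192 := by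
      have hxx := xx_bd.2
      rcases hk with rfl | rfl <;> norm_num <;> linarith
    have h4 : (3 * xx - 1 / (k : ℝ)) / 2 * c * n ≤ 0.192 * (c * n) := by
      rw [mul_assoc]
      exact mul_le_mul_of_nonneg_right h3 hcn
    have h5 : e * n ≤ 1 * n := mul_le_mul_of_nonneg_right he1 hn0
    have h7 : 4 * (((t + 2 * p + 3 * q + 3 * r : ℕ) : ℝ) + ((u + 2 * pu : ℕ) : ℝ)) ≤ c * n := by
      linarith
    exact_mod_cast h7
  have hY4 : 4 * ((t + 2 * p + 3 * q + 3 * r) + (y + 2 * py + 3 * qy + (8 * K + 1))) ≤ c * n := by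
    have h2 := (abs_le.1 hY).2
    have h4 : xx * c * n ≤ 0.18351 * (c * n) := by
      rw [mul_assoc]
      exact mul_le_mul_of_nonneg_right xx_bd.2.le hcn
    have h5 : e * n ≤ 1 * n := mul_le_mul_of_nonneg_right he1 hn0
    have h7 : 4 * (((t + 2 * p + 3 * q + 3 * r : ℕ) : ℝ) + (((y + 2 * py + 3 * qy : ℕ) : ℝ) +
        (8 * K + 1))) ≤ c * n := by
      linarith
    exact_mod_cast h7
  have hn1 : 8 * c + 28 ≤ n := by omega
  have hc2' : 2 ≤ c := by omega
  -- the double points on `L_1`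
  obtain ⟨kz, hkz, hkz'⟩ := iter_host
    (fun x y => D2 c n ⟨t, p, q, r, u, pu, y, py, qy, 0, d, w, x⟩) (n / 4) (by omega)
    (fun x y s hs hs' => D2_z h1 hc2' hn1 ⟨t, p, q, r, u, pu, y, py, qy, 0, d, w, x⟩ hU4 s hs hs')
    z y
  have hkzb : kz ≤ 8 * K + 1 := by
    have h2 := hosts_le (K := K) (n := n) (W := z) (m := 1) (by omega) (by
      rw [one_mul]
      exact ha.z)
    omega
  have hYk : 4 * ((t + 2 * p + 3 * q + 3 * r) + (y + kz + 2 * py + 3 * qy)) ≤ c * n := by omega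
  -- the double points on `L_0`
  obtain ⟨kw, hkw, hkw'⟩ := iter_host
    (fun x u => D2 c n ⟨t, p, q, r, u, pu, y + kz, py, qy, 0, d, x, 0⟩) (n / 4) (by omega)
    (fun x u s hs hs' => D2_w h1 hc2' hn1 ⟨t, p, q, r, u, pu, y + kz, py, qy, 0, d, x, 0⟩ hYk s
      hs hs') w u
  have hkwb : kw ≤ 8 * K + 1 := by
    have h2 := hosts_le (K := K) (n := n) (W := w) (m := 1) (by omega) (by
      rw [one_mul]
      exact ha.w)
    omega
  -- the other double points
  have hd' : ∀ d u, D2 c n ⟨t, p, q, r, u, pu, y + kz, py, qy, 0, d, 0, 0⟩ ≤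
      D2 c n ⟨t, p, q, r, u + d, pu, y + kz, py, qy, 0, 0, 0, 0⟩ := by
    intro d
    induction d with
    | zero => exact fun u => le_rfl
    | succ d ih =>
      intro u
      have h2 := D2_d h0 hc2' hn1 ⟨t, p, q, r, u, pu, y + kz, py, qy, 0, d, 0, 0⟩ hYk
      refine h2.trans ((ih (u + 1)).trans (le_of_eq ?_))
      rw [show u + 1 + d = u + (d + 1) by ring]
  have hdK : d ≤ K := ha.d
  have h9 := hA n (by omega) k hk ⟨t, p, q, r, u + kw + d, pu, y + kz, py, qy, 0, 0, 0, 0⟩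
    ⟨⟨ha.p, ha.q, ha.r, by simp, ha.py, ha.qy, by simp, ha.pu, by simp⟩, ha.T, ?_, ?_⟩ rfl
  · have h10 : D2 c n ⟨t, p, q, r, u, pu, y, py, qy, 0, d, w, z⟩ ≤
        D2 c n ⟨t, p, q, r, u + kw + d, pu, y + kz, py, qy, 0, 0, 0, 0⟩ :=
      hkz'.trans (hkw'.trans (hd' d (u + kw)))
    unfold D2 at h10
    linarith
  · show |((u + kw + d + 2 * pu : ℕ) : ℝ) - (3 * xx - 1 / k) / 2 * c * n| ≤ e₁ * n
    have h11 : ((u + kw + d + 2 * pu : ℕ) : ℝ) = ((u + 2 * pu : ℕ) : ℝ) + (kw + d : ℕ) := by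
      push_cast
      ring
    have h12 : ((kw + d : ℕ) : ℝ) ≤ 9 * K + 1 := by
      have : kw + d ≤ 9 * K + 1 := by omega
      exact_mod_cast this
    have h13 : (0 : ℝ) ≤ ((kw + d : ℕ) : ℝ) := Nat.cast_nonneg _
    have h14 := abs_le.1 hU
    have h15 : e * n ≤ e₁ / 2 * n := mul_le_mul_of_nonneg_right hee hn0
    rw [h11, abs_le]
    constructor <;> linarith [h14.1, h14.2, mul_nonneg he₁.le hn0]
  · show |((y + kz + 2 * py + 3 * qy : ℕ) : ℝ) - xx * c * n| ≤ e₁ * n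
    have h11 : ((y + kz + 2 * py + 3 * qy : ℕ) : ℝ) = ((y + 2 * py + 3 * qy : ℕ) : ℝ) + (kz : ℕ) := by
      push_cast
      ring
    have h12 : ((kz : ℕ) : ℝ) ≤ 9 * K + 1 := by
      have : kz ≤ 9 * K + 1 := by omega
      exact_mod_cast this
    have h13 : (0 : ℝ) ≤ ((kz : ℕ) : ℝ) := Nat.cast_nonneg _
    have h14 := abs_le.1 hY
    have h15 : e * n ≤ e₁ / 2 * n := mul_le_mul_of_nonneg_right hee hn0
    rw [h11, abs_le]
    constructor <;> linarith [h14.1, h14.2, mul_nonneg he₁.le hn0]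

end Pool.Agent.KQ
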