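import Pool.Agent.KQ.M.Defs
import Pool.Agent.KZ.Num.N0
import Pool.Agent.KZ.Num.N1

/-!
# KQ, many double points: the numbers

`num0K`, `num1K` from `num0`, `num1` for the configuration without double points: `g` is replaced by
`g + d' (n - c)`, resp. `g + d' (n - c) + w' c`, where `d'`, `w'` double points are put on the subspace.
-/

set_option autoImplicit false

namespace Pool.Agent.KQ

open Finset Pool.Agent.KZ

theorem v0_d (n t d s : ℕ) : v0 n t d s = v0 n t 0 s - d * n := by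
  unfold v0
  push_cast
  ring

theorem v1_dw (c n t p q u d w s : ℕ) :
    v1 c n ⟨t, p, q, u, d, w, s⟩ = v1 c n ⟨t, p, q, u, 0, 0, s⟩ - d * n - w * c := by
  unfold v1 L1.T
  push_cast
  ring

/-- The number of the double points off the subspace. -/
theorem rest_le {K c n d : ℕ} (hc : c ≤ n) (h : d ≤ K * n ^ 2) :
    d - min d (K * (n - c) ^ 2 - n) ≤ (2 * K * c + 1) * n := by
  obtain ⟨m, rfl⟩ := Nat.exists_eq_add_of_le hc
  have h1 : c + m - c = m := by omega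
  rw [h1]
  have h2 : K * (c + m) ^ 2 ≤ K * m ^ 2 + 2 * K * c * (c + m) := by
    have : K * (c + m) ^ 2 + K * c ^ 2 = K * m ^ 2 + 2 * K * c * (c + m) := by ring
    omega
  have h3 : (2 * K * c + 1) * (c + m) = 2 * K * c * (c + m) + (c + m) := by ring
  rw [h3]
  rcases le_total d (K * m ^ 2 - (c + m)) with h4 | h4
  · rw [min_eq_left h4]
    omega
  · rw [min_eq_right h4]
    omega

theorem num0K (c : ℕ) (hc : 240 ≤ c) (K : ℕ) (hK : 1 ≤ K) (e : ℝ) (he : 0 < e) :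
    ∃ η : ℝ, 0 < η ∧ ∃ n₀ : ℕ, ∀ n, n₀ ≤ n → ∀ t d : ℕ, d ≤ K * n ^ 2 → 6 * t ≤ n ^ 2 →
      ∀ g : ℤ, 0 ≤ g → (g : ℝ) ≤ η * (n : ℝ) ^ 4 → -((n : ℤ) ^ 2) ≤ v0 n t d 0 - g →
      ((v0 n t d 0 - g : ℤ) : ℝ) ≤ η * (n : ℝ) ^ 3 →
      ∃ (t' d' : ℕ) (b : L1), t = t' + b.T ∧ b.u = t' ∧ d = d' + b.d ∧ b.w = d' ∧ b.s = 0 ∧
        d' + b.p ≤ K * (n - c) ^ 2 ∧ 6 * t' ≤ (n - c) ^ 2 ∧
        v0 (n - c) t' (d' + b.p) 0 = g + b.q ∧ 1 ≤ b.q ∧ Cls1K c n e (2 * K * c + 1) b := by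
  obtain ⟨η, hη, nη, hnum⟩ := num0 c hc e he
  obtain ⟨B, hB⟩ := exists_nat_ge ((2 * K + 2 * ((2 * K * c + 1) + K * c)) / η)
  refine ⟨η / 2, by positivity, nη + B + 4 * c + 4, ?_⟩
  intro n hn t d hd ht g hg hg1 hg2 hg3
  have hnR : (1 : ℝ) ≤ n := by
    have : 1 ≤ n := by omega
    exact_mod_cast this
  have hBn : ((2 : ℝ) * K + 2 * ((2 * K * c + 1) + K * c)) ≤ η * n := by
    have h1 : (B : ℝ) ≤ n := by
      have : B ≤ n := by omega
      exact_mod_cast this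
    rw [div_le_iff₀ hη] at hB
    have h2 : (B : ℝ) * η ≤ n * η := mul_le_mul_of_nonneg_right h1 hη.le
    linarith only [h2, hB]
  have hK0 : (0 : ℝ) ≤ K := Nat.cast_nonneg K
  have hc0 : (0 : ℝ) ≤ c := Nat.cast_nonneg c
  have hKc : (0 : ℝ) ≤ (K : ℝ) * c := mul_nonneg hK0 hc0
  obtain ⟨d', hd'⟩ : ∃ d', d' = min d (K * (n - c) ^ 2 - n) := ⟨_, rfl⟩
  have hd'd : d' ≤ d := by rw [hd']; exact min_le_left _ _
  have hd'K : d' ≤ K * (n - c) ^ 2 - n := by rw [hd']; exact min_le_right _ _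
  have hrest : d - d' ≤ (2 * K * c + 1) * n := by
    rw [hd']
    exact rest_le (by omega) hd
  have hnc : n ≤ K * (n - c) ^ 2 := by
    have h1 : 2 ≤ n - c := by omega
    have h2 : n ≤ 2 * (n - c) := by omega
    calc n ≤ 2 * (n - c) := h2
      _ ≤ (n - c) * (n - c) := Nat.mul_le_mul_right _ h1
      _ = 1 * (n - c) ^ 2 := by ring
      _ ≤ K * (n - c) ^ 2 := Nat.mul_le_mul_right _ hK
  obtain ⟨d'', hd''⟩ : ∃ d'', d'' = d - d' := ⟨_, rfl⟩
  have hdd : d = d' + d'' := by omega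
  have hncR : ((n - c : ℕ) : ℝ) = n - c := by rw [Nat.cast_sub (by omega)]
  have hncZ : ((n - c : ℕ) : ℤ) = n - c := by rw [Nat.cast_sub (by omega)]
  -- the real sizes
  have hd'R : (d' : ℝ) ≤ K * (n : ℝ) ^ 2 := by
    have h1 : d' ≤ K * n ^ 2 := hd'd.trans hd
    exact_mod_cast h1
  have hd''R : (d'' : ℝ) ≤ (2 * K * c + 1) * n := by
    have h1 : d'' ≤ (2 * K * c + 1) * n := by rw [hd'']; exact hrest
    exact_mod_cast h1
  have hv : v0 n t d 0 - g = v0 n t 0 0 - (g + d' * ((n : ℤ) - c)) - d'' * n - d' * c := by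
    rw [v0_d n t d 0, hdd]
    push_cast
    ring
  obtain ⟨t', b, h1, h2, h3, h4, h5, h6, h7, h8, h9, h10⟩ := hnum n (by omega) t 0 (by omega) ht
    (g + d' * ((n : ℤ) - c)) (by
      have : (0 : ℤ) ≤ (n : ℤ) - c := by rw [← hncZ]; positivity
      positivity)
    (by
      push_cast
      have e1 : (d' : ℝ) * (n - c) ≤ K * (n : ℝ) ^ 2 * n := by
        apply mul_le_mul hd'R (by linarith only []) (by rw [← hncR]; positivity) (by positivity)
      have e2 : (K : ℝ) * (n : ℝ) ^ 2 * n ≤ (η / 2 * n) * (n : ℝ) ^ 3 := by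
        have : (K : ℝ) * (n : ℝ) ^ 3 ≤ (η / 2 * n) * (n : ℝ) ^ 3 :=
          mul_le_mul_of_nonneg_right (by linarith only [hKc, hBn]) (by positivity)
        linarith only [this]
      linarith only [e2, e1, hg1])
    (by
      have e1 : (0 : ℤ) ≤ d'' * n := by positivity
      have e2 : (0 : ℤ) ≤ d' * c := by positivity
      linarith only [e2, e1, hv, hg2])
    (by
      have e0 : ((v0 n t 0 0 - (g + d' * ((n : ℤ) - c)) : ℤ) : ℝ) =
          ((v0 n t d 0 - g : ℤ) : ℝ) + d'' * n + d' * c := by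
        rw [hv]
        push_cast
        ring
      rw [e0]
      have e1 : (d'' : ℝ) * n ≤ (2 * K * c + 1) * n * n :=
        mul_le_mul_of_nonneg_right hd''R (by linarith only [])
      have e2 : (d' : ℝ) * c ≤ K * (n : ℝ) ^ 2 * c := mul_le_mul_of_nonneg_right hd'R hc0
      have e3 : ((2 * K * c + 1) + K * c) * (n : ℝ) ^ 2 ≤ (η / 2 * n) * (n : ℝ) ^ 2 :=
        mul_le_mul_of_nonneg_right (by linarith only [hBn]) (by positivity)
      linarith only [e3, e2, e1, hg3])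
  obtain ⟨bt, bp, bq, bu, bd, bw, bs⟩ := b
  simp only [L1.T] at h1 h2 h3 h4 h5 h6 h8 h9
  subst h2 h3 h4 h5
  refine ⟨bu, d', ⟨bt, bp, bq, bu, d'', d', 0⟩, h1, rfl, hdd, rfl, rfl, ?_, h7, ?_, h9, ?_⟩
  · show d' + bp ≤ _
    omega
  · show v0 (n - c) bu (d' + bp) 0 = g + bq
    rw [v0_d]
    rw [v0_d] at h8
    push_cast
    rw [hncZ] at h8 ⊢
    linarith only [h8]
  · refine ⟨⟨h10.p, h10.q, ?_, ?_⟩, h10.T⟩
    · show d'' ≤ _
      rw [hd'']
      exact hrest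
    · show d' ≤ (2 * K * c + 1) * n ^ 2
      have e1 : K ≤ 2 * K * c + 1 := by
        have : K * 1 ≤ K * (2 * c) := Nat.mul_le_mul_left _ (by omega)
        have e2 : K * (2 * c) = 2 * K * c := by ring
        omega
      exact (hd'd.trans hd).trans (Nat.mul_le_mul_right _ e1)

theorem num1K (c : ℕ) (hc : 240 ≤ c) (h60 : 60 ∣ c) (K : ℕ) (hK : 1 ≤ K) (e₂ : ℝ) (he₂ : 0 < e₂) :
    ∃ e₀ : ℝ, 0 < e₀ ∧ ∀ e : ℝ, 0 < e → e ≤ e₀ → ∃ η : ℝ, 0 < η ∧ ∃ n₀ : ℕ, ∀ n, n₀ ≤ n →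
      ∀ a : L1, Cls1K c n e K a → a.s = 0 → ∀ g : ℤ, 0 ≤ g → (g : ℝ) ≤ η * (n : ℝ) ^ 3 →
        -((c : ℤ) * n) ≤ v1 c n a - g → ((v1 c n a - g : ℤ) : ℝ) ≤ η * (n : ℝ) ^ 2 →
        ∃ k, (k = 5 ∨ k = 6) ∧ ∃ (a' : L1) (b : L2) (w' : ℕ), SplitK a a' b w' ∧ a'.s = 0 ∧
          Cls1K c (n - c) e K a' ∧ v1 c (n - c) a' = g + b.r ∧ 1 ≤ b.r ∧
          Cls2K c n e₂ k (2 * K * c + 1) b := by
  obtain ⟨e₀, he₀, hnum⟩ := num1 c hc h60 e₂ he₂
  refine ⟨e₀, he₀, fun e he hee => ?_⟩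
  obtain ⟨η, hη, nη, hnum⟩ := hnum e he hee
  obtain ⟨B, hB⟩ := exists_nat_ge ((2 * (K + K * c) + 2 * (2 * (K * c) + (2 * K * c + 1) * c)) / η)
  refine ⟨η / 2, by positivity, nη + B + 4 * c + 4, ?_⟩
  intro n hn a ha has g hg hg1 hg2 hg3
  obtain ⟨t, p, q, u, d, w, s⟩ := a
  simp only at has
  subst has
  have hd : d ≤ K * n := ha.d
  have hw : w ≤ K * n ^ 2 := ha.w
  have hnR : (1 : ℝ) ≤ n := by
    have : 1 ≤ n := by omega
    exact_mod_cast this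
  have hBn : ((2 : ℝ) * (K + K * c) + 2 * (2 * (K * c) + (2 * K * c + 1) * c)) ≤ η * n := by
    have h1 : (B : ℝ) ≤ n := by
      have : B ≤ n := by omega
      exact_mod_cast this
    rw [div_le_iff₀ hη] at hB
    have h2 : (B : ℝ) * η ≤ n * η := mul_le_mul_of_nonneg_right h1 hη.le
    linarith only [h2, hB]
  have hK0 : (0 : ℝ) ≤ K := Nat.cast_nonneg K
  have hc0 : (0 : ℝ) ≤ c := Nat.cast_nonneg c
  have hKc : (0 : ℝ) ≤ (K : ℝ) * c := mul_nonneg hK0 hc0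
  have hKcc : (0 : ℝ) ≤ (2 * (K : ℝ) * c + 1) * c := by positivity
  obtain ⟨d', hd'⟩ : ∃ d', d' = min d (K * (n - c)) := ⟨_, rfl⟩
  have hd'd : d' ≤ d := by rw [hd']; exact min_le_left _ _
  have hd'K : d' ≤ K * (n - c) := by rw [hd']; exact min_le_right _ _
  obtain ⟨d'', hd''⟩ : ∃ d'', d'' = d - d' := ⟨_, rfl⟩
  have hdd : d = d' + d'' := by omega
  have hd''K : d'' ≤ K * c := by
    have h1 : K * n = K * (n - c) + K * c := by
      rw [← Nat.mul_add]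
      congr 1
      omega
    rw [hd'', hd']
    rcases le_total d (K * (n - c)) with h4 | h4
    · rw [min_eq_left h4]
      omega
    · rw [min_eq_right h4]
      omega
  obtain ⟨w', hw'⟩ : ∃ w', w' = min w (K * (n - c) ^ 2 - n) := ⟨_, rfl⟩
  have hw'w : w' ≤ w := by rw [hw']; exact min_le_left _ _
  have hw'K : w' ≤ K * (n - c) ^ 2 - n := by rw [hw']; exact min_le_right _ _
  have hrest : w - w' ≤ (2 * K * c + 1) * n := by
    rw [hw']
    exact rest_le (by omega) hw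
  have hnc : n ≤ K * (n - c) ^ 2 := by
    have h1 : 2 ≤ n - c := by omega
    have h2 : n ≤ 2 * (n - c) := by omega
    calc n ≤ 2 * (n - c) := h2
      _ ≤ (n - c) * (n - c) := Nat.mul_le_mul_right _ h1
      _ = 1 * (n - c) ^ 2 := by ring
      _ ≤ K * (n - c) ^ 2 := Nat.mul_le_mul_right _ hK
  obtain ⟨w'', hw''⟩ : ∃ w'', w'' = w - w' := ⟨_, rfl⟩
  have hww : w = w' + w'' := by omega
  have hncR : ((n - c : ℕ) : ℝ) = n - c := by rw [Nat.cast_sub (by omega)]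
  have hncZ : ((n - c : ℕ) : ℤ) = n - c := by rw [Nat.cast_sub (by omega)]
  have hncR0 : (0 : ℝ) ≤ (n : ℝ) - c := by rw [← hncR]; positivity
  -- the real sizes
  have hd'R : (d' : ℝ) ≤ K * n := by
    have h1 : d' ≤ K * n := hd'd.trans hd
    exact_mod_cast h1
  have hd''R : (d'' : ℝ) ≤ K * c := by exact_mod_cast hd''K
  have hw'R : (w' : ℝ) ≤ K * (n : ℝ) ^ 2 := by
    have h1 : w' ≤ K * n ^ 2 := hw'w.trans hw
    exact_mod_cast h1
  have hw''R : (w'' : ℝ) ≤ (2 * K * c + 1) * n := by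
    have h1 : w'' ≤ (2 * K * c + 1) * n := by rw [hw'']; exact hrest
    exact_mod_cast h1
  have hv : v1 c n ⟨t, p, q, u, d, w, 0⟩ - g = v1 c n ⟨t, p, q, u, 0, 0, 0⟩ -
      (g + d' * ((n : ℤ) - c) + w' * c) - d'' * n - d' * c - w'' * c := by
    rw [v1_dw c n t p q u d w 0, hdd, hww]
    push_cast
    ring
  obtain ⟨k, hk, a', b, hs, ha's, ha', hva, hr, hb⟩ := hnum n (by omega) ⟨t, p, q, u, 0, 0, 0⟩
    ⟨⟨ha.p, ha.q, by simp, by simp⟩, ha.T⟩ rfl (g + d' * ((n : ℤ) - c) + w' * c) (by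
      have : (0 : ℤ) ≤ (n : ℤ) - c := by rw [← hncZ]; positivity
      positivity)
    (by
      push_cast
      have e1 : (d' : ℝ) * (n - c) ≤ K * n * n :=
        mul_le_mul hd'R (by linarith only []) hncR0 (by positivity)
      have e2 : (w' : ℝ) * c ≤ K * (n : ℝ) ^ 2 * c := mul_le_mul_of_nonneg_right hw'R hc0
      have e3 : (K + K * c) * (n : ℝ) ^ 2 ≤ (η / 2 * n) * (n : ℝ) ^ 2 :=
        mul_le_mul_of_nonneg_right (by linarith only [hKcc, hKc, hBn]) (by positivity)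
      linarith only [e3, e2, e1, hg1])
    (by
      have e1 : (0 : ℤ) ≤ d'' * n := by positivity
      have e2 : (0 : ℤ) ≤ d' * c := by positivity
      have e3 : (0 : ℤ) ≤ w'' * c := by positivity
      linarith only [e3, e2, e1, hv, hg2])
    (by
      have e0 : ((v1 c n ⟨t, p, q, u, 0, 0, 0⟩ - (g + d' * ((n : ℤ) - c) + w' * c) : ℤ) : ℝ) =
          ((v1 c n ⟨t, p, q, u, d, w, 0⟩ - g : ℤ) : ℝ) + d'' * n + d' * c + w'' * c := by
        rw [hv]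
        push_cast
        ring
      rw [e0]
      have e1 : (d'' : ℝ) * n ≤ K * c * n := mul_le_mul_of_nonneg_right hd''R (by linarith only [])
      have e2 : (d' : ℝ) * c ≤ K * n * c := mul_le_mul_of_nonneg_right hd'R hc0
      have e3 : (w'' : ℝ) * c ≤ (2 * K * c + 1) * n * c := mul_le_mul_of_nonneg_right hw''R hc0
      have e4 : (2 * (K * c) + (2 * K * c + 1) * c) * (n : ℝ) ≤ (η / 2 * n) * (n : ℝ) :=
        mul_le_mul_of_nonneg_right (by linarith only [hKc, hBn]) (by linarith only [])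
      linarith only [e4, e3, e2, e1, hg3])
  obtain ⟨t1, p1, q1, u1, d1, w1, s1⟩ := a'
  obtain ⟨bt, bp, bq, br, bu, bpu, by', bpy, bqy, bx, bd, bw, bz⟩ := b
  obtain ⟨f1, f2, f3, f4, f5, f6, f7, f8, f9, f10, f11, f12⟩ := hs
  simp only at f1 f2 f3 f4 f5 f6 f7 f8 f9 f10 f11 f12 ha's hva hr
  have f5' : d1 = 0 ∧ bd = 0 := by omega
  obtain ⟨f51, f52⟩ := f5'
  subst f51 f52
  subst f6 f7 f8 f9 f10 f11 ha's
  have hpu : 100 * bpu ≤ 83 * n := hb.pu
  refine ⟨k, hk, ⟨by', bpy, bqy, bx, d', w' + bpu, 0⟩,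
    ⟨bt, bp, bq, br, bu, bpu, by', bpy, bqy, bx, d'', w'', d'⟩, w',
    ⟨f1, f2, f3, f4, hdd, hww, rfl, rfl, rfl, rfl, rfl, rfl⟩, rfl, ?_, ?_, hr, ?_⟩
  · refine ⟨⟨ha'.p, ha'.q, hd'K, ?_⟩, ha'.T⟩
    show w' + bpu ≤ _
    omega
  · show v1 c (n - c) ⟨by', bpy, bqy, bx, d', w' + bpu, 0⟩ = g + br
    rw [v1_dw]
    rw [v1_dw, f12] at hva
    push_cast at hva ⊢
    rw [hncZ] at hva ⊢
    linarith only [hva]
  · have e1 : K ≤ 2 * K * c + 1 := by
      have : K * 1 ≤ K * (2 * c) := Nat.mul_le_mul_left _ (by omega)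
      have e2 : K * (2 * c) = 2 * K * c := by ring
      omega
    refine ⟨⟨⟨hb.p, hb.q, hb.r, ?_, hb.py, hb.qy, ?_, hb.pu, ?_⟩, hb.T, hb.U, hb.Y⟩, hb.x⟩
    · show d'' ≤ _
      have e2 : 2 * K * c = K * c + K * c := by ring
      omega
    · show d' ≤ (2 * K * c + 1) * n
      exact (hd'd.trans hd).trans (Nat.mul_le_mul_right _ e1)
    · show w'' ≤ _
      rw [hw'']
      exact hrest

end Pool.Agent.KQ
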