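import Pool.Agent.KZ.Tr
import Pool.Agent.KZ.Num.Add

/-!
# KQ, many double points: trace and residual, with double points on the subspace

As `step01`, `step12` of `KZ/Tr`, but a part of the double points is put on the subspace
(`ord 2 {0, 1}`: no condition on the level `2`, dropped).
-/

set_option autoImplicit false
set_option linter.unusedVariables false

namespace Pool.Agent.KQ

open Finset Pool.Agent.KZ Pool.Agent.V7.ST
open Pool.Agent.V7 (blk)

theorem step01K (c n : ℕ) (hc : 1 ≤ c) (hn : c ≤ n) (t' t'' y r d' d'' s : ℕ) :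
    H0 c n (t' + t'' + 2 * y + 3 * r) (d' + d'') s ≤
      H0 c (n - c) t' (d' + y) (s + r) + H1 c n ⟨t'', y, r, t', d'', d', 0⟩ := by
  have h := gM_trK c 0 n hc (by omega)
    (Multiset.replicate t' (Kd.ord 3 ∅) + Multiset.replicate d' (Kd.ord 2 ∅) +
      Multiset.replicate s (Kd.ord 1 ∅))
    (Multiset.replicate t'' (Kd.ord 3 ∅) + Multiset.replicate d'' (Kd.ord 2 ∅)) ∅ ∅ y r
    (by
      intro k hk
      rw [Multiset.mem_add, Multiset.mem_add] at hk
      rcases hk with (hk | hk) | hk <;> rw [Multiset.eq_of_mem_replicate hk] <;>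
        exact fun x hx => absurd hx (notMem_empty x))
    (fun x hx => absurd hx (notMem_empty x)) (fun x hx => absurd hx (notMem_empty x))
  have e1 : ms0 (t' + t'' + 2 * y + 3 * r) (d' + d'') s =
      ((Multiset.replicate t' (Kd.ord 3 ∅) + Multiset.replicate d' (Kd.ord 2 ∅) +
        Multiset.replicate s (Kd.ord 1 ∅)) +
        (Multiset.replicate t'' (Kd.ord 3 ∅) + Multiset.replicate d'' (Kd.ord 2 ∅))) +
        (Multiset.replicate (2 * y) (Kd.ord 3 ∅) + Multiset.replicate (3 * r) (Kd.ord 3 ∅)) := by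
    unfold ms0
    simp only [Multiset.replicate_add]
    ac_rfl
  have e2 : ms0 t' (d' + y) (s + r) =
      (Multiset.replicate t' (Kd.ord 3 ∅) + Multiset.replicate d' (Kd.ord 2 ∅) +
        Multiset.replicate s (Kd.ord 1 ∅)) +
        (Multiset.replicate y (Kd.ord 2 ∅) + Multiset.replicate r (Kd.ord 1 ∅)) := by
    unfold ms0
    simp only [Multiset.replicate_add]
    ac_rfl
  unfold H0
  rw [e1, e2]
  refine h.trans (Nat.add_le_add_left ?_ _)
  unfold H1
  have e3 : ((Multiset.replicate t' (Kd.ord 3 ∅) + Multiset.replicate d' (Kd.ord 2 ∅) +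
      Multiset.replicate s (Kd.ord 1 ∅)).map (Kd.add 0) +
      (Multiset.replicate t'' (Kd.ord 3 ∅) + Multiset.replicate d'' (Kd.ord 2 ∅))) +
        (Multiset.replicate y (Kd.pr 0 ∅) + Multiset.replicate r (Kd.tr 0 ∅)) =
      L1.ms ⟨t'', y, r, t', d'', d', 0⟩ + Multiset.replicate s (Kd.ord 1 {0}) := by
    have k1 : Kd.add 0 (Kd.ord 3 ∅) = Kd.ord 3 {0} := rfl
    have k2 : Kd.add 0 (Kd.ord 1 ∅) = Kd.ord 1 {0} := rfl
    have k3 : Kd.add 0 (Kd.ord 2 ∅) = Kd.ord 2 {0} := rfl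
    simp only [Multiset.map_add, Multiset.map_replicate, k1, k2, k3]
    unfold L1.ms
    simp only [Multiset.replicate_zero, add_zero]
    ac_rfl
  rw [e3]
  exact gM_anti _ _ _

theorem step12K (c n : ℕ) (hc : 1 ≤ c) (hn : 2 * c ≤ n)
    (t' t'' p' p'' q' q'' u' u'' d' d'' w' w'' s y r : ℕ) :
    H1 c n ⟨t' + t'' + 3 * r, p' + p'', q' + q'', u' + u'' + 2 * y, d' + d'', w' + w'', s⟩ ≤
      H1 c (n - c) ⟨t', p', q', u', d', w' + y, s + r⟩ +
        H2 c n ⟨t'', p'', q'', r, u'', y, t', p', q', u', d'', w'', d'⟩ := by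
  have h := gM_trK c 1 n hc (by omega)
    (Multiset.replicate t' (Kd.ord 3 ∅) + Multiset.replicate p' (Kd.pr 0 ∅) +
      Multiset.replicate q' (Kd.tr 0 ∅) + Multiset.replicate u' (Kd.ord 3 {0}) +
      Multiset.replicate d' (Kd.ord 2 ∅) + Multiset.replicate w' (Kd.ord 2 {0}) +
      Multiset.replicate s (Kd.ord 1 ∅))
    (Multiset.replicate t'' (Kd.ord 3 ∅) + Multiset.replicate p'' (Kd.pr 0 ∅) +
      Multiset.replicate q'' (Kd.tr 0 ∅) + Multiset.replicate u'' (Kd.ord 3 {0}) +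
      Multiset.replicate d'' (Kd.ord 2 ∅) + Multiset.replicate w'' (Kd.ord 2 {0})) {0} ∅ y r
    (by
      have k0 : ∀ x ∈ (∅ : Finset ℕ), x < 1 := fun x hx => absurd hx (notMem_empty x)
      have k1 : ∀ x ∈ ({0} : Finset ℕ), x < 1 := fun x hx => by
        rw [mem_singleton] at hx
        omega
      intro k hk
      simp only [Multiset.mem_add] at hk
      rcases hk with (((((hk | hk) | hk) | hk) | hk) | hk) | hk <;>
        rw [Multiset.eq_of_mem_replicate hk]
      · exact k0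
      · exact ⟨by norm_num, k0⟩
      · exact ⟨by norm_num, k0⟩
      · exact k1
      · exact k0
      · exact k1
      · exact k0)
    (fun x hx => by
      rw [mem_singleton] at hx
      omega) (fun x hx => absurd hx (notMem_empty x))
  unfold H1
  have e1 : L1.ms ⟨t' + t'' + 3 * r, p' + p'', q' + q'', u' + u'' + 2 * y, d' + d'', w' + w'', s⟩ =
      ((Multiset.replicate t' (Kd.ord 3 ∅) + Multiset.replicate p' (Kd.pr 0 ∅) +
      Multiset.replicate q' (Kd.tr 0 ∅) + Multiset.replicate u' (Kd.ord 3 {0}) +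
      Multiset.replicate d' (Kd.ord 2 ∅) + Multiset.replicate w' (Kd.ord 2 {0}) +
      Multiset.replicate s (Kd.ord 1 ∅)) +
      (Multiset.replicate t'' (Kd.ord 3 ∅) + Multiset.replicate p'' (Kd.pr 0 ∅) +
      Multiset.replicate q'' (Kd.tr 0 ∅) + Multiset.replicate u'' (Kd.ord 3 {0}) +
      Multiset.replicate d'' (Kd.ord 2 ∅) + Multiset.replicate w'' (Kd.ord 2 {0}))) +
      (Multiset.replicate (2 * y) (Kd.ord 3 {0}) + Multiset.replicate (3 * r) (Kd.ord 3 ∅)) := by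
    unfold L1.ms
    simp only [Multiset.replicate_add]
    ac_rfl
  have e2 : L1.ms ⟨t', p', q', u', d', w' + y, s + r⟩ =
      (Multiset.replicate t' (Kd.ord 3 ∅) + Multiset.replicate p' (Kd.pr 0 ∅) +
      Multiset.replicate q' (Kd.tr 0 ∅) + Multiset.replicate u' (Kd.ord 3 {0}) +
      Multiset.replicate d' (Kd.ord 2 ∅) + Multiset.replicate w' (Kd.ord 2 {0}) +
      Multiset.replicate s (Kd.ord 1 ∅)) +
      (Multiset.replicate y (Kd.ord 2 {0}) + Multiset.replicate r (Kd.ord 1 ∅)) := by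
    unfold L1.ms
    simp only [Multiset.replicate_add]
    ac_rfl
  rw [e1, e2]
  refine h.trans (Nat.add_le_add_left ?_ _)
  unfold H2
  have k5 : (insert 1 {0} : Finset ℕ) = {0, 1} := by decide
  have e3 : ((Multiset.replicate t' (Kd.ord 3 ∅) + Multiset.replicate p' (Kd.pr 0 ∅) +
      Multiset.replicate q' (Kd.tr 0 ∅) + Multiset.replicate u' (Kd.ord 3 {0}) +
      Multiset.replicate d' (Kd.ord 2 ∅) + Multiset.replicate w' (Kd.ord 2 {0}) +
      Multiset.replicate s (Kd.ord 1 ∅)).map (Kd.add 1) +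
      (Multiset.replicate t'' (Kd.ord 3 ∅) + Multiset.replicate p'' (Kd.pr 0 ∅) +
      Multiset.replicate q'' (Kd.tr 0 ∅) + Multiset.replicate u'' (Kd.ord 3 {0}) +
      Multiset.replicate d'' (Kd.ord 2 ∅) + Multiset.replicate w'' (Kd.ord 2 {0}))) +
        (Multiset.replicate y (Kd.pr 1 {0}) + Multiset.replicate r (Kd.tr 1 ∅)) =
      L2.ms ⟨t'', p'', q'', r, u'', y, t', p', q', u', d'', w'', d'⟩ +
        (Multiset.replicate w' (Kd.ord 2 {0, 1}) + Multiset.replicate s (Kd.ord 1 {1})) := by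
    have k1 : Kd.add 1 (Kd.ord 3 ∅) = Kd.ord 3 {1} := rfl
    have k2 : Kd.add 1 (Kd.ord 1 ∅) = Kd.ord 1 {1} := rfl
    have k3 : Kd.add 1 (Kd.ord 2 ∅) = Kd.ord 2 {1} := rfl
    have k4 : Kd.add 1 (Kd.pr 0 ∅) = Kd.pr 0 {1} := rfl
    have k6 : Kd.add 1 (Kd.tr 0 ∅) = Kd.tr 0 {1} := rfl
    have k7 : Kd.add 1 (Kd.ord 3 {0}) = Kd.ord 3 {0, 1} := by
      show Kd.ord 3 (insert 1 {0}) = Kd.ord 3 {0, 1}
      rw [k5]
    have k8 : Kd.add 1 (Kd.ord 2 {0}) = Kd.ord 2 {0, 1} := by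
      show Kd.ord 2 (insert 1 {0}) = Kd.ord 2 {0, 1}
      rw [k5]
    simp only [Multiset.map_add, Multiset.map_replicate, k1, k2, k3, k4, k6, k7, k8]
    unfold L2.ms
    simp only
    ac_rfl
  rw [e3]
  exact gM_anti _ _ _

theorem add01K (c n : ℕ) (hn : c ≤ n) (t' t'' y r d' d'' s : ℕ) :
    v0 n (t' + t'' + 2 * y + 3 * r) (d' + d'') s =
      v0 (n - c) t' (d' + y) (s + r) + v1 c n ⟨t'', y, r, t', d'', d', 0⟩ := by
  have h1 := ch2_add t' (t'' + 2 * y + 3 * r)
  rw [show t' + (t'' + 2 * y + 3 * r) = t' + t'' + 2 * y + 3 * r by ring] at h1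
  have h4 : ((n - c : ℕ) : ℤ) = n - c := by push_cast [hn]; ring
  unfold v0 v1 L1.T dl
  simp only
  rw [h1, h4]
  push_cast
  ring

theorem add12K (c n : ℕ) (hn : 2 * c ≤ n)
    (t' t'' p' p'' q' q'' u' u'' d' d'' w' w'' s y r : ℕ) :
    v1 c n ⟨t' + t'' + 3 * r, p' + p'', q' + q'', u' + u'' + 2 * y, d' + d'', w' + w'', s⟩ =
      v1 c (n - c) ⟨t', p', q', u', d', w' + y, s + r⟩ +
        v2 c n ⟨t'', p'', q'', r, u'', y, t', p', q', u', d'', w'', d'⟩ := by
  have h1 := ch2_add (t' + 2 * p' + 3 * q') (t'' + 2 * p'' + 3 * q'' + 3 * r)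
  rw [show t' + 2 * p' + 3 * q' + (t'' + 2 * p'' + 3 * q'' + 3 * r) =
    t' + t'' + 3 * r + 2 * (p' + p'') + 3 * (q' + q'') by ring] at h1
  have h4 : ((n - c : ℕ) : ℤ) = n - c := by push_cast [show c ≤ n by omega]; ring
  have h5 : n - c - c = n - 2 * c := by omega
  have h6 := dl_sub c n hn
  unfold v1 v2 L1.T L2.T L2.U L2.Y
  simp only
  rw [h1, h4, h5]
  have h7 : dl c n = mc n 2 - mc (n - c) 2 := rfl
  have h8 : dl c (n - c) = dl c n - (c : ℤ) ^ 2 := by rw [h6]; ring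
  have h9 : mc (n - c) 2 = mc n 2 - dl c n := by rw [h7]; ring
  rw [h8, h9]
  push_cast
  ring

end Pool.Agent.KQ
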