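import Pool.Agent.KZ.Cl0
import Pool.Agent.KQ.M.Cl1

/-!
# KQ, many double points: exactness on the level `0`

As `KZ/Cl0`, with `step01K`, `num0K`.
-/

set_option autoImplicit false

namespace Pool.Agent.KQ

open Finset Pool.Agent.KZ

/-- The black boxes on the level `0` for `n ≥ n₁`. -/
structure BxK0 (c K : ℕ) (η : ℝ) (n₁ : ℕ) : Prop where
  hc : 240 ≤ c
  hη : 0 < η
  n₁c : 2 * c + 2 ≤ n₁
  base : ∀ n, n₁ ≤ n → ∀ t d : ℕ, d ≤ K * n ^ 2 → 6 * t ≤ n ^ 2 →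
    η * (n : ℝ) ^ 4 ≤ (v0 n t d 0 : ℝ) → (H0 c n t d 0 : ℤ) ≤ v0 n t d 0
  num : ∀ n, n₁ ≤ n → ∀ t d : ℕ, d ≤ K * n ^ 2 → 6 * t ≤ n ^ 2 → ∀ g : ℤ, 0 ≤ g →
      (g : ℝ) ≤ η * (n : ℝ) ^ 4 → -((n : ℤ) ^ 2) ≤ v0 n t d 0 - g →
      ((v0 n t d 0 - g : ℤ) : ℝ) ≤ η * (n : ℝ) ^ 3 →
      ∃ (t' d' r : ℕ), d' ≤ K * (n - c) ^ 2 ∧ 6 * t' ≤ (n - c) ^ 2 ∧
        v0 (n - c) t' d' 0 = g + r ∧ 1 ≤ r ∧ ∀ s : ℕ, (H0 c n t d 0 : ℤ) ≤
          s + max 0 ((H0 c (n - c) t' d' 0 : ℤ) - s - r) + max 0 (v0 n t d 0 - g)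

/-- The step with exactness of the residual. -/
theorem step0_useK {c n : ℕ} (hc : 1 ≤ c) (hn : c ≤ n) {t t' d d' : ℕ} {b : L1} {g : ℤ}
    (ht : t = t' + b.T) (hu : b.u = t') (hd : d = d' + b.d) (hw : b.w = d') (hs : b.s = 0)
    (hv : v0 (n - c) t' (d' + b.p) 0 = g + b.q)
    (h2 : (H1 c n b : ℤ) ≤ max 0 (v1 c n b)) (s : ℕ) :
    (H0 c n t d 0 : ℤ) ≤ s + max 0 ((H0 c (n - c) t' (d' + b.p) 0 : ℤ) - s - b.q) +
      max 0 (v0 n t d 0 - g) := by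
  obtain ⟨bt, bp, bq, bu, bd, bw, bs⟩ := b
  simp only [L1.T] at ht hu hd hw hs hv ⊢
  subst hu hd hw hs
  have ht' : t = bu + bt + 2 * bp + 3 * bq := by rw [ht]; ring
  subst ht'
  have e1 := step01K c n hc hn bu bt bp bq bw bd s
  have e2 := add01K c n hn bu bt bp bq bw bd s
  have f1 := H0_s c n (bu + bt + 2 * bp + 3 * bq) (bw + bd) 0 s
  have f2 := H0_s c (n - c) bu (bw + bp) 0 (s + bq)
  have g1 := v0_s n (bu + bt + 2 * bp + 3 * bq) (bw + bd) 0 s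
  have g2 := v0_s (n - c) bu (bw + bp) 0 (s + bq)
  rw [zero_add] at f1 f2 g1 g2
  rw [f1, f2] at e1
  rw [g1, g2, hv] at e2
  have h5 : v1 c n ⟨bt, bp, bq, bu, bd, bw, 0⟩ = v0 n (bu + bt + 2 * bp + 3 * bq) (bw + bd) 0 - g := by
    push_cast at e2
    linarith
  rw [h5] at h2
  generalize H0 c n (bu + bt + 2 * bp + 3 * bq) (bw + bd) 0 = x at *
  generalize H0 c (n - c) bu (bw + bp) 0 = y at *
  generalize H1 c n ⟨bt, bp, bq, bu, bd, bw, 0⟩ = z at *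
  generalize v0 n (bu + bt + 2 * bp + 3 * bq) (bw + bd) 0 - g = v at *
  clear hv h5 e2 g1 g2 f1 f2 ht
  rcases le_total (y : ℤ) (s + bq) with h6 | h6
  · have h7 : y - (s + bq) = 0 := by omega
    rw [h7, zero_add] at e1
    have h8 : (0 : ℤ) ≤ max 0 ((y : ℤ) - s - bq) := le_max_left _ _
    omega
  · have h8 : (y : ℤ) - s - bq ≤ max 0 ((y : ℤ) - s - bq) := le_max_right _ _
    omega

/-- (iii), one step. -/
theorem BxK0.down {c K : ℕ} {η : ℝ} {n₁ : ℕ} (B : BxK0 c K η n₁) {n : ℕ} (hn : n₁ ≤ n) (T : ℕ)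
    (hT : ∀ t d : ℕ, d ≤ K * (n - c) ^ 2 → 6 * t ≤ (n - c) ^ 2 → (T : ℤ) ≤ v0 (n - c) t d 0 →
      (H0 c (n - c) t d 0 : ℤ) ≤ v0 (n - c) t d 0)
    (t d : ℕ) (hd : d ≤ K * n ^ 2) (ht : 6 * t ≤ n ^ 2)
    (hv : ((T - 1 : ℕ) : ℤ) ≤ v0 n t d 0) : (H0 c n t d 0 : ℤ) ≤ v0 n t d 0 := by
  have hv0 : (0 : ℤ) ≤ v0 n t d 0 := le_trans (Int.natCast_nonneg _) hv
  by_cases hl : η * (n : ℝ) ^ 4 ≤ (v0 n t d 0 : ℝ)
  · exact B.base n hn t d hd ht hl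
  push Not at hl
  have hη := B.hη
  obtain ⟨t', d', r, hd', ht', hvr, hr1, hstep⟩ := B.num n hn t d hd ht (v0 n t d 0) hv0 hl.le
    (by
      have h1 : (0 : ℤ) ≤ (n : ℤ) ^ 2 := by positivity
      omega)
    (by
      rw [sub_self]
      push_cast
      positivity)
  have h1 := hT t' d' hd' ht' (by rw [hvr]; omega)
  obtain ⟨s, hs⟩ := Int.eq_ofNat_of_zero_le hv0
  have h2 := hstep s
  rw [hs] at h2 hvr ⊢
  rw [hvr] at h1
  rw [sub_self, max_self, max_eq_left (by omega)] at h2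
  omega

/-- (iii) -/
theorem BxK0.zero {c K : ℕ} {η : ℝ} {n₁ : ℕ} (B : BxK0 c K η n₁) : ∃ n₃ : ℕ, n₁ ≤ n₃ ∧
    ∀ n, n₃ ≤ n → ∀ t d : ℕ, d ≤ K * n ^ 2 → 6 * t ≤ n ^ 2 → (0 : ℤ) ≤ v0 n t d 0 →
      (H0 c n t d 0 : ℤ) ≤ v0 n t d 0 := by
  have hc := B.hc
  have hn₁c := B.n₁c
  have hη := B.hη
  have hall : ∀ n, n₁ ≤ n → ∀ i : ℕ, ∀ T : ℕ,
      (∀ t d : ℕ, d ≤ K * n ^ 2 → 6 * t ≤ n ^ 2 → (T : ℤ) ≤ v0 n t d 0 →
        (H0 c n t d 0 : ℤ) ≤ v0 n t d 0) →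
      ∀ t d : ℕ, d ≤ K * (n + i * c) ^ 2 → 6 * t ≤ (n + i * c) ^ 2 →
        ((T - i : ℕ) : ℤ) ≤ v0 (n + i * c) t d 0 →
        (H0 c (n + i * c) t d 0 : ℤ) ≤ v0 (n + i * c) t d 0 := by
    intro n hn i
    induction i with
    | zero =>
      intro T hT
      simpa using hT
    | succ i ih =>
      intro T hT
      have h1 := ih T hT
      have hi : (i + 1) * c = i * c + c := by ring
      have h2 := B.down (n := n + (i + 1) * c) (by omega) (T - i)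
      have h3 : n + (i + 1) * c - c = n + i * c := by omega
      rw [h3] at h2
      have h4 : T - i - 1 = T - (i + 1) := by omega
      rw [h4] at h2
      exact h2 h1
  obtain ⟨T₀, hT₀⟩ : ∃ T₀ : ℕ, T₀ = (n₁ + c) ^ 4 + 1 := ⟨_, rfl⟩
  refine ⟨n₁ + c + T₀ * c, by omega, ?_⟩
  intro n hn t d hd ht hv
  obtain ⟨m, i, hm1, hm2, hi', hmi⟩ : ∃ m i : ℕ, n₁ ≤ m ∧ m < n₁ + c ∧ T₀ ≤ i ∧
      n = m + i * c := by
    refine ⟨n₁ + (n - n₁) % c, (n - n₁) / c, by omega, ?_, ?_, ?_⟩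
    · have := Nat.mod_lt (n - n₁) (by omega : 0 < c)
      omega
    · rw [Nat.le_div_iff_mul_le (by omega)]
      omega
    · have := Nat.mod_add_div (n - n₁) c
      have h2 : c * ((n - n₁) / c) = (n - n₁) / c * c := mul_comm _ _
      omega
  have h1 := hall m hm1 i T₀ (fun t d hd ht hv => by
    exfalso
    have h2 : v0 m t d 0 ≤ (m : ℤ) ^ 4 := v0_le (by omega) ht
    have h3 : m ^ 4 ≤ (n₁ + c) ^ 4 := Nat.pow_le_pow_left hm2.le 4
    have h4 : (m : ℤ) ^ 4 ≤ (((n₁ + c) ^ 4 : ℕ) : ℤ) := by exact_mod_cast h3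
    rw [hT₀] at hv
    push_cast at hv h4
    linarith)
  rw [← hmi] at h1
  refine h1 t d hd ht ?_
  have h2 : T₀ - i = 0 := by omega
  rw [h2]
  exact hv

/-- (iv) -/
theorem BxK0.all {c K : ℕ} {η : ℝ} {n₁ : ℕ} (B : BxK0 c K η n₁) : ∃ n₄ : ℕ,
    ∀ n, n₄ ≤ n → ∀ t d : ℕ, d ≤ K * n ^ 2 → 6 * t ≤ n ^ 2 →
      (H0 c n t d 0 : ℤ) ≤ max 0 (v0 n t d 0) := by
  obtain ⟨n₃, hn₃, hzero⟩ := B.zero
  have hc := B.hc
  have hn₁c := B.n₁c
  have hη := B.hη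
  refine ⟨n₃ + c + 24 * K, fun n hn t d hd ht => ?_⟩
  by_cases hv : 0 ≤ v0 n t d 0
  · rw [max_eq_right hv]
    exact hzero n (by omega) t d hd ht hv
  push Not at hv
  -- the first negative one
  have hex : ∃ k, v0 n k d 0 < 0 := ⟨t, hv⟩
  have hk := Nat.find_spec hex
  have hkmin : ∀ k' < Nat.find hex, 0 ≤ v0 n k' d 0 := fun k' hk' => by
    have := Nat.find_min hex hk'
    omega
  obtain ⟨k, hkdef⟩ : ∃ k, k = Nat.find hex := ⟨_, rfl⟩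
  rw [← hkdef] at hk hkmin
  have hkt : k ≤ t := by
    rw [hkdef]
    exact Nat.find_min' hex hv
  have hn7 : (2 : ℤ) ≤ n := by
    have : 2 ≤ n := by omega
    exact_mod_cast this
  have hk0 : k ≠ 0 := by
    intro h0
    rw [h0] at hk
    have h1 := Nm0.mc4 n
    have h2 : (d : ℤ) ≤ K * n ^ 2 := by exact_mod_cast hd
    have h2' : (24 : ℤ) * K ≤ n := by
      have : 24 * K ≤ n := by omega
      exact_mod_cast this
    have h3 : v0 n 0 d 0 = mc n 4 - d * n := by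
      have h5 : ((Nat.choose 0 2 : ℕ) : ℤ) = 0 := by norm_num
      unfold v0
      rw [h5]
      push_cast
      ring
    rw [h3] at hk
    have h4 : 24 * ((d : ℤ) * n) ≤ (n : ℤ) * (n + 1) * (n + 2) * (n + 3) := by
      have e1 : 24 * (d : ℤ) ≤ n * n ^ 2 := by
        have e0 : 24 * (K : ℤ) * n ^ 2 ≤ n * n ^ 2 := mul_le_mul_of_nonneg_right h2' (by positivity)
        linarith
      have e2 : (n : ℤ) * n ^ 2 ≤ (n + 1) * (n + 2) * (n + 3) := by nlinarith [mul_self_nonneg (n : ℤ)]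
      have e3 : 24 * (d : ℤ) * n ≤ (n + 1) * (n + 2) * (n + 3) * n :=
        mul_le_mul_of_nonneg_right (e1.trans e2) (by linarith)
      linarith
    linarith
  have hk6 : 6 * k ≤ n ^ 2 := le_trans (Nat.mul_le_mul_left _ hkt) ht
  have hk1 : -((n : ℤ) ^ 2) ≤ v0 n k d 0 := by
    obtain ⟨k', hk'⟩ := Nat.exists_eq_succ_of_ne_zero hk0
    have h1 := hkmin k' (by omega)
    have h2 := v0_t n k' d 0
    have h3 := two_mc2 n
    have h4 : (0 : ℤ) ≤ k' := Int.natCast_nonneg k'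
    rw [hk', Nat.succ_eq_add_one, h2]
    nlinarith
  have hk2 : ((v0 n k d 0 : ℤ) : ℝ) ≤ 0 := by exact_mod_cast hk.le
  obtain ⟨t', d', r, hd', ht', hvr, hr1, hstep⟩ := B.num n (by omega) k d hd hk6 0 le_rfl
    (by push_cast; positivity) (by rw [sub_zero]; exact hk1)
    (by rw [sub_zero]; exact hk2.trans (by positivity))
  have h1 := hzero (n - c) (by omega) t' d' hd' ht' (by rw [hvr]; omega)
  rw [hvr, zero_add] at h1
  have h2 := hstep 0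
  rw [sub_zero, max_eq_left hk.le, max_eq_left (by push_cast; omega)] at h2
  have h3 := H0_mono c n k d 0 (t - k)
  have h4 : k + (t - k) = t := by omega
  rw [h4] at h3
  have h6 : H0 c n t d 0 = 0 := by
    push_cast at h2
    omega
  rw [h6]
  exact le_max_left _ _


/-- Few triple points if `v0` is positive. -/
theorem t_le_of_pos {n t d : ℕ} (hn : 40 ≤ n) (ht : 6 * t ≤ n ^ 2) (hv : 0 < v0 n t d 0) :
    8 * t ≤ n ^ 2 := by
  by_contra hcon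
  push Not at hcon
  have h1 := Nm0.mc4 n
  have h2 := two_mc2 n
  have h3 : 2 * ((t.choose 2 : ℕ) : ℤ) ≤ t * t := by
    have h4 : t.choose 2 * 2 = t * (t - 1) := by
      rw [Nat.choose_two_right]
      exact Nat.div_mul_cancel (Nat.even_mul_pred_self t).two_dvd
    have h5 : t.choose 2 * 2 ≤ t * t := by
      rw [h4]
      exact Nat.mul_le_mul_left _ (Nat.sub_le _ _)
    have h6 : ((t.choose 2 * 2 : ℕ) : ℤ) ≤ ((t * t : ℕ) : ℤ) := by exact_mod_cast h5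
    push_cast at h6
    linarith
  have h7 : (40 : ℤ) ≤ n := by exact_mod_cast hn
  have h8 : (6 : ℤ) * t ≤ (n : ℤ) ^ 2 := by exact_mod_cast ht
  have h8' : (n : ℤ) ^ 2 < 8 * t := by exact_mod_cast hcon
  have h9 : (0 : ℤ) ≤ t := Int.natCast_nonneg t
  have h10 : (0 : ℤ) ≤ (d : ℤ) * n := by positivity
  have h11 : (0 : ℤ) ≤ (8 * t - (n : ℤ) ^ 2) * ((n : ℤ) ^ 2 - 6 * t) :=
    mul_nonneg (by linarith) (by linarith)
  -- `12 t (n^2 - t) ≥ 21 / 16 n^4`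
  have h12 : 21 * (n : ℤ) ^ 4 ≤ 16 * (12 * (t * ((n : ℤ) ^ 2 - t))) := by
    nlinarith [mul_nonneg (sub_nonneg.2 h8'.le) h9, mul_nonneg (sub_nonneg.2 h8'.le)
      (sub_nonneg.2 h8)]
  have h13 : 16 * ((n : ℤ) * (n + 1) * (n + 2) * (n + 3)) < 21 * (n : ℤ) ^ 4 := by
    have e1 : 40 * (n : ℤ) ^ 3 ≤ n * n ^ 3 := mul_le_mul_of_nonneg_right h7 (by positivity)
    have e2 : 40 * (n : ℤ) ^ 2 ≤ n * n ^ 2 := mul_le_mul_of_nonneg_right h7 (by positivity)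
    have e3 : 40 * (n : ℤ) ≤ n * n := mul_le_mul_of_nonneg_right h7 (by positivity)
    nlinarith
  have h14 : (t : ℤ) * mc n 2 * 2 = t * (n * (n + 1)) := by
    rw [mul_assoc, mul_comm (mc n 2) 2, h2]
  have h15 : (0 : ℤ) ≤ (t : ℤ) * n := by positivity
  unfold v0 at hv
  push_cast at hv
  nlinarith

open Pool.Agent.XD (A A_zero A_succ)

theorem base0K (c K : ℕ) (η : ℝ) (hη : 0 < η) : ∃ n₀ : ℕ, ∀ n, n₀ ≤ n → ∀ t d : ℕ,
    d ≤ K * n ^ 2 → 6 * t ≤ n ^ 2 → η * (n : ℝ) ^ 4 ≤ (v0 n t d 0 : ℝ) →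
      (H0 c n t d 0 : ℤ) ≤ v0 n t d 0 := by
  obtain ⟨c₀, hc₀, n₁, hL⟩ := Pool.Agent.XD.layer 4
  obtain ⟨n₂, hX⟩ := Pool.Agent.XD.xd 4 (min c₀ η) (lt_min hc₀ hη)
  refine ⟨n₁ + n₂ + 40 + 24 * K, fun n hn t d hd ht hv => ?_⟩
  have hn1 : 1 ≤ n := by omega
  have he : ∀ s, 2 ≤ ee t d s := by
    intro s
    unfold ee
    split_ifs <;> norm_num
  obtain ⟨a0, a1, a2, a3, a4⟩ := A_doub n t d d le_rfl
  have ha4 : A (ee t d) n (t + d) 4 = v0 n t d 0 := by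
    rw [a4]
    unfold v0
    push_cast
    ring
  have hnZ : (1 : ℤ) ≤ n := by exact_mod_cast hn1
  have htZ : 6 * (t : ℤ) ≤ (n : ℤ) ^ 2 := by exact_mod_cast ht
  have hdZ : (d : ℤ) ≤ K * (n : ℤ) ^ 2 := by exact_mod_cast hd
  have hKZ : (24 : ℤ) * K ≤ n := by
    have : 24 * K ≤ n := by omega
    exact_mod_cast this
  have hpos4 : 0 < A (ee t d) n (t + d) 4 := by
    rw [ha4]
    have h1 : (0 : ℝ) < (v0 n t d 0 : ℝ) := lt_of_lt_of_le (by positivity) hv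
    exact_mod_cast h1
  have ht8 : 8 * (t : ℤ) ≤ (n : ℤ) ^ 2 := by
    have h1 := t_le_of_pos (by omega : 40 ≤ n) ht (by rw [← ha4]; exact hpos4)
    exact_mod_cast h1
  have hpos : ∀ j ≤ 4, 0 < A (ee t d) n (t + d) j := by
    intro j hj
    interval_cases j
    · rw [a0]
      norm_num
    · rw [a1]
      omega
    · rw [a2]
      have h := mc_two n
      nlinarith
    · rw [a3]
      have h := mc_three n
      have h1 : 8 * (t : ℤ) * n ≤ (n : ℤ) ^ 2 * n :=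
        mul_le_mul_of_nonneg_right ht8 (by omega)
      have h2 : 24 * (K : ℤ) * n ^ 2 ≤ n * n ^ 2 := mul_le_mul_of_nonneg_right hKZ (by positivity)
      have h3 : (0 : ℤ) < (n : ℤ) ^ 2 := by positivity
      nlinarith
    · exact hpos4
  have h2 := (hL n (by omega) (ee t d) he (t + d)).1 hpos
  have h3 := hX n (by omega) (ee t d) (Pool.Agent.XD.FF (ee t d)) he
    (Pool.Agent.XD.sys_FF 4 (ee t d) fun s => le_trans (by norm_num) (he s)) n (t + d) le_rfl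
    (fun j hj => by
      rcases lt_or_eq_of_le hj with hj | rfl
      · exact (mul_le_mul_of_nonneg_right (min_le_left _ _) (by positivity)).trans (h2 j hj)
      · rw [ha4]
        exact (mul_le_mul_of_nonneg_right (min_le_right _ _) (by positivity)).trans hv)
  rw [H0_eq_FF c n t d 0 hn1, add_zero, h3, ha4]

theorem prop0K_of (c : ℕ) (hc : 240 ≤ c) (hP : PROP1K c) : PROP0K c := by
  intro K
  obtain ⟨e, he, n₂, hP⟩ := hP (2 * (K + 1) * c + 1)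
  obtain ⟨η, hη, nη, hnum⟩ := num0K c hc (K + 1) (by omega) e he
  obtain ⟨nb, hbase⟩ := base0K c (K + 1) η hη
  have hBx : BxK0 c (K + 1) η (n₂ + nη + nb + 2 * c + 2) := by
    refine ⟨hc, hη, by omega, fun n hn => hbase n (by omega), ?_⟩
    intro n hn t d hd ht g hg hg1 hg2 hg3
    obtain ⟨t', d', b, h1, h2, h3, h4, h5, h6, h7, h8, h9, h10⟩ :=
      hnum n (by omega) t d hd ht g hg hg1 hg2 hg3
    exact ⟨t', d' + b.p, b.q, h6, h7, h8, h9,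
      step0_useK (by omega) (by omega) h1 h2 h3 h4 h5 h8 (hP n (by omega) b h10 h5)⟩
  obtain ⟨n₀, h⟩ := hBx.all
  exact ⟨n₀, fun n hn t d hd ht => h n hn t d (hd.trans (Nat.mul_le_mul_right _ (Nat.le_succ K))) ht⟩

end Pool.Agent.KQ
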