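import Pool.Agent.KZ.Defs

/-!
# KQ, many double points: the classes

As the classes of `KZ/Defs`, with `K n^2` (level `0`, on the subspace of level `1`), `K n`, `K` double
points instead of the small numbers.
-/

set_option autoImplicit false

namespace Pool.Agent.KQ

open Finset Pool.Agent.KZ

/-- The bounds for the numbers of the small kinds on the level `1`. -/
structure Sm1K (n K : ℕ) (a : L1) : Prop where
  p : 50 * a.p ≤ 21 * n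
  q : 10 * a.q ≤ 11 * n
  d : a.d ≤ K * n
  w : a.w ≤ K * n ^ 2

/-- The class on the level `1`. -/
structure Cls1K (c n : ℕ) (e : ℝ) (K : ℕ) (a : L1) : Prop extends Sm1K n K a where
  T : |(a.T : ℝ) - xx * c * n| ≤ e * n

/-- The bounds for the numbers of the small kinds on the level `2`. -/
structure Sm2K (c n K : ℕ) (a : L2) : Prop where
  p : 50 * a.p ≤ 21 * c + 50
  q : 10 * a.q ≤ 11 * c + 10
  r : a.r ≤ c
  d : a.d ≤ K
  py : 50 * a.py ≤ 21 * n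
  qy : 10 * a.qy ≤ 11 * n
  z : a.z ≤ K * n
  pu : 100 * a.pu ≤ 83 * n
  w : a.w ≤ K * n

/-- The class on the level `2` without the points on `L_0` and `L_1`. -/
structure Cls2K' (c n : ℕ) (e : ℝ) (k K : ℕ) (a : L2) : Prop extends Sm2K c n K a where
  T : k * a.T = c ^ 2
  U : |(a.U : ℝ) - (3 * xx - 1 / k) / 2 * c * n| ≤ e * n
  Y : |(a.Y : ℝ) - xx * c * n| ≤ e * n

/-- The class on the level `2`. -/
structure Cls2K (c n : ℕ) (e : ℝ) (k K : ℕ) (a : L2) : Prop extends Cls2K' c n e k K a where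
  x : |(a.x : ℝ) - xx / 2 * (n : ℝ) ^ 2| ≤ e * (n : ℝ) ^ 2

/-- Exactness on the level `2`. -/
def PROP2K (c : ℕ) : Prop := ∀ K : ℕ, ∃ e : ℝ, 0 < e ∧ ∃ n₀ : ℕ, ∀ n, n₀ ≤ n →
  ∀ k, (k = 5 ∨ k = 6) → ∀ a : L2, Cls2K c n e k K a → (H2 c n a : ℤ) ≤ max 0 (v2 c n a)

/-- Exactness on the level `2` without the points on `L_0` and `L_1`. -/
def ALPHA2K (c : ℕ) : Prop := ∀ K : ℕ, ∃ e : ℝ, 0 < e ∧ ∃ n₀ : ℕ, ∀ n, n₀ ≤ n →
  ∀ k, (k = 5 ∨ k = 6) → ∀ a : L2, Cls2K' c n e k K a → a.x = 0 → (H2 c n a : ℤ) ≤ v2 c n a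

/-- Exactness on the level `1`. -/
def PROP1K (c : ℕ) : Prop := ∀ K : ℕ, ∃ e : ℝ, 0 < e ∧ ∃ n₀ : ℕ, ∀ n, n₀ ≤ n →
  ∀ a : L1, Cls1K c n e K a → a.s = 0 → (H1 c n a : ℤ) ≤ max 0 (v1 c n a)

/-- Exactness on the level `1` without the triple points on `L_0`. -/
def ALPHA1K (c : ℕ) : Prop := ∀ K : ℕ, ∃ e : ℝ, 0 < e ∧ ∃ n₀ : ℕ, ∀ n, n₀ ≤ n →
  ∀ a : L1, Cls1K c n e K a → a.u = 0 → a.s = 0 → (H1 c n a : ℤ) ≤ v1 c n a

/-- Exactness on the level `0`. -/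
def PROP0K (c : ℕ) : Prop := ∀ K : ℕ, ∃ n₀ : ℕ, ∀ n, n₀ ≤ n → ∀ t d : ℕ, d ≤ K * n ^ 2 →
  6 * t ≤ n ^ 2 → (H0 c n t d 0 : ℤ) ≤ max 0 (v0 n t d 0)

/-- `a` is split into the trace `a'` and the residual `b`; `w'` double points on `L_0` are put on the
subspace. -/
structure SplitK (a a' : L1) (b : L2) (w' : ℕ) : Prop where
  t : a.t = a'.t + b.t + 3 * b.r
  p : a.p = a'.p + b.p
  q : a.q = a'.q + b.q
  u : a.u = a'.u + b.u + 2 * b.pu
  d : a.d = a'.d + b.d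
  w : a.w = w' + b.w
  y : b.y = a'.t
  py : b.py = a'.p
  qy : b.qy = a'.q
  x : b.x = a'.u
  z : b.z = a'.d
  pu : a'.w = w' + b.pu

end Pool.Agent.KQ
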