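import Pool.Agent.KZ.Top.Fin
import Pool.Agent.KQ.M.Defs

/-!
# KQ, many double points: exactness on the level `2`

`prop2_core` of `KZ/Top/Prop2` with many double points: BETA and GAMMA2 are used for the configuration
without the double points (`SF` is monotone).
-/

set_option autoImplicit false
set_option linter.unusedSectionVars false

namespace Pool.Agent.KQ

open Finset Module MvPolynomial Pool.Agent.H51.TB Pool.Agent.V7.ST Topology Pool.Agent.KZ
open Pool.Agent.V7 (msk Ex blk phn isB_phn)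
open Pool.Agent.V7.Top (Gam HasX IsB SF zp)

theorem SF_mono {ν : Type} [Fintype ν] [DecidableEq ν] {k c m : ℕ}
    (φ : (Fin k × Fin c) ⊕ Fin m ≃ ν) {A : Finset (ν → ℕ)}
    {V V' : Submodule ℂ ({e // e ∈ A} → ℂ)} (h : V ≤ V') (F : Submodule ℂ ((Fin k → Fin c) → ℂ)) :
    SF φ V F ≤ SF φ V' F := fun _ hf => ⟨h hf.1, hf.2⟩

theorem V_inl {E ν T : Type} [Fintype E] (S : Sys E ν T) {κ κ' : Type} (m : κ → T) (m' : κ' → T)
    (p : κ ⊕ κ' → ν → ℂ) : S.V (Sum.elim m m') p ≤ S.V m fun i => p (Sum.inl i) := by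
  intro f hf
  rw [Sys.mem_V] at hf ⊢
  exact fun i => hf (Sum.inl i)

/-- **TOP.** Exactness on the level `2`. -/
theorem prop2K_core (c : ℕ) (hc : 1 ≤ c) (hA : ALPHA2K c) (hB : BETA c) (hG : GAMMA2 c) (hC : CV2 c) :
    PROP2K c := by
  classical
  intro K
  obtain ⟨eA, heA, nA, hA⟩ := hA K
  obtain ⟨δ, hδ, eB, heB, nB, hB⟩ := hB
  obtain ⟨eG, heG, nG, hG⟩ := hG
  obtain ⟨nC, hC⟩ := hC
  have hδ' : 0 < min δ 1 := lt_min hδ one_pos
  obtain ⟨n₀, hn₀1, hnum⟩ := numx c xx_pos hδ' (min_le_right δ 1)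
  have hexx : 0 < xx * min δ 1 / 8 := by
    have := mul_pos xx_pos hδ'
    linarith
  refine ⟨min (xx * min δ 1 / 8) (min eA (min eG eB)),
    lt_min hexx (lt_min heA (lt_min heG heB)),
    n₀ + nA + nG + nB + nC + 2 * c + 2, fun n hn k hk a ha => ?_⟩
  set e := min (xx * min δ 1 / 8) (min eA (min eG eB)) with he
  have e1 : e ≤ xx * min δ 1 / 8 := min_le_left _ _
  have e2 : e ≤ eA := (min_le_right _ _).trans (min_le_left _ _)
  have e3 : e ≤ eG := (min_le_right _ _).trans ((min_le_right _ _).trans (min_le_left _ _))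
  have e4 : e ≤ eB := (min_le_right _ _).trans ((min_le_right _ _).trans (min_le_right _ _))
  have hn0 : (0 : ℝ) ≤ (n : ℝ) := Nat.cast_nonneg _
  -- without the points on `L_0` and `L_1`
  obtain ⟨a', ha'⟩ : ∃ a' : L2, a' = { a with x := 0 } := ⟨_, rfl⟩
  have hx' : a'.x = 0 := by rw [ha']
  have hT' : a'.T = a.T := by
    rw [ha']
    rfl
  have hcls : ∀ e', e ≤ e' → Cls2K' c n e' k K a' := by
    intro e' he'
    rw [ha']
    exact ⟨⟨ha.p, ha.q, ha.r, ha.d, ha.py, ha.qy, ha.z, ha.pu, ha.w⟩, ha.T,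
      ha.U.trans (mul_le_mul_of_nonneg_right he' hn0), ha.Y.trans (mul_le_mul_of_nonneg_right he' hn0)⟩
  -- without the double points
  obtain ⟨a₀, ha₀⟩ : ∃ a₀ : L2, a₀ = { a with x := 0, d := 0, w := 0, z := 0 } := ⟨_, rfl⟩
  have hx₀ : a₀.x = 0 := by rw [ha₀]
  have hcls₀ : ∀ e', e ≤ e' → Cls2' c n e' k a₀ := by
    intro e' he'
    rw [ha₀]
    exact ⟨⟨ha.p, ha.q, ha.r, by simp, ha.py, ha.qy, by simp, ha.pu, by simp⟩, ha.T,
      ha.U.trans (mul_le_mul_of_nonneg_right he' hn0), ha.Y.trans (mul_le_mul_of_nonneg_right he' hn0)⟩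
  have hT₀ : a₀.T = a.T := by
    rw [ha₀]
    rfl
  have hms₀ : a'.ms = a₀.ms + (Multiset.replicate a.d (.ord 2 ∅) +
      Multiset.replicate a.w (.ord 2 {0}) + Multiset.replicate a.z (.ord 2 {1})) := by
    rw [ha', ha₀]
    simp only [L2.ms, Multiset.replicate_zero]
    ac_rfl
  have hms : a.ms = a'.ms + Multiset.replicate a.x (Kd.ord 3 {0, 1}) := by
    rw [ha']
    simp only [L2.ms, Multiset.replicate_zero]
    ac_rfl
  have hv : v2 c n a = v2 c n a' - a.x * ((c : ℤ) ^ 2 - a.T) := by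
    rw [ha']
    unfold v2 L2.T L2.U L2.Y
    simp only
    push_cast
    ring
  obtain ⟨rest₀, hrest₀, -⟩ := exists_conf (LS (blk c n) 2) a₀.ms
  obtain ⟨restd, hrestd, -⟩ := exists_conf (LS (blk c n) 2)
    (Multiset.replicate a.d (Kd.ord 2 ∅) + Multiset.replicate a.w (Kd.ord 2 {0}) +
      Multiset.replicate a.z (Kd.ord 2 {1}))
  obtain ⟨rest, hrdef⟩ : ∃ rest, rest = Sum.elim rest₀ restd := ⟨_, rfl⟩
  have hrest : (univ : Finset _).val.map rest = a'.ms := by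
    rw [hrdef, map_elim, hrest₀, hrestd, hms₀]
  have hgd : (LS (blk c n) 2).gd rest = gM (LS (blk c n) 2) a'.ms := by
    rw [gd_eq_gM, hrest]
  have hkc : 2 * c ≤ n := by omega
  -- the numbers
  have hN : xx / 2 * (n : ℝ) ^ 2 - xx * min δ 1 / 8 * (n : ℝ) ^ 2 ≤ (a.x : ℝ) := by
    have h1 := (abs_le.1 ha.x).1
    have h2 : e * (n : ℝ) ^ 2 ≤ xx * min δ 1 / 8 * (n : ℝ) ^ 2 :=
      mul_le_mul_of_nonneg_right e1 (by positivity)
    linarith
  obtain ⟨N₀, hN1, hN2, hN3⟩ := hnum n (by omega) a.x hN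
  have hb := isB_phn c 2 n hc hkc
  obtain ⟨p₀, hp₀⟩ := hB n (by omega) _ (phn c 2 n hkc) hb k hk a₀ (hcls₀ eB e4) hx₀ _ rest₀ hrest₀
  obtain ⟨p₁, hp₁def⟩ : ∃ p₁ : _ ⊕ _ → Fin n × Fin 3 → ℂ, p₁ = Sum.elim p₀ (fun _ _ => 0) := ⟨_, rfl⟩
  have hcont : Filter.Tendsto (fun (p : _ ⊕ _ → Fin n × Fin 3 → ℂ) i => p (Sum.inl i)) (nhds p₁)
      (nhds p₀) := by
    have h1 : Continuous (fun (p : (Fin a₀.ms.toList.length) ⊕ (Fin (Multiset.replicate a.d
      (Kd.ord 2 ∅) + Multiset.replicate a.w (Kd.ord 2 {0}) +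
      Multiset.replicate a.z (Kd.ord 2 {1})).toList.length) → Fin n × Fin 3 → ℂ) i =>
        p (Sum.inl i)) := continuous_pi fun i => continuous_apply _
    have h2 := h1.tendsto p₁
    rw [hp₁def] at h2
    rw [hp₁def]
    exact h2
  have hp₁ : ∀ᶠ p in nhds p₁, ∀ F : Submodule ℂ ((Fin 2 → Fin c) → ℂ),
      F ≠ ⊥ → finrank ℂ F + a'.T < c ^ 2 →
        (finrank ℂ (SF (phn c 2 n hkc) ((LS (blk c n) 2).V rest p) F) : ℝ) ≤
          (1 - δ) * finrank ℂ F * (xx / 2 * (n : ℝ) ^ 2) := by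
    filter_upwards [hcont.eventually hp₀] with p hp F hF hF'
    refine le_trans ?_ (hp F hF (by rw [hT₀, ← hT']; exact hF'))
    have h1 : (LS (blk c n) 2).V rest p ≤ (LS (blk c n) 2).V rest₀ fun i => p (Sum.inl i) := by
      rw [hrdef]
      exact V_inl _ _ _ _
    exact_mod_cast Submodule.finrank_mono (SF_mono _ h1 F)
  have hg := (gn_pull (κ := _ ⊕ Fin _) Sum.inl Sum.inl_injective id Function.injective_id
    (hG n (by omega) _ (phn c 2 n hkc) hb k hk a₀ (hcls₀ eG e3) hx₀ _ rest₀ hrest₀)).and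
    ((hC n (by omega) _ (phn c 2 n hkc) hb k hk a' (by rw [hT']; exact ha.T) _ rest hrest).and
      (gn_gd (LS (blk c n) 2) rest))
  obtain ⟨p, hp, hpG₀, ⟨B, hBT, hpB⟩, hpd⟩ := Pool.Agent.V7.BE.Gn.near hg p₁ _ hp₁
  have hpG : ∀ f ∈ (LS (blk c n) 2).V rest p, Gam (phn c 2 n hkc) f = 0 → f = 0 := by
    intro f hf
    apply hpG₀ f
    rw [hrdef] at hf
    exact V_inl _ _ _ _ hf
  have hTc : a.T ≤ c ^ 2 := by rw [← hT']; omega
  have hBf : finrank ℂ B + a.T = c ^ 2 := by rw [← hT']; exact hBT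
  have key := Top.top_rel (phn c 2 n hkc) (LS (blk c n) 2) rest (Kd.ord 3 {0, 1}) (M := 2)
    (Gam_hom4 _ _) (posq (phn c 2 n hkc)) (fun z f hf b => htop4 hb z f hf b) p B hpB hpG N₀
    (Pool.Agent.V7.top_h1 (by norm_num) (Nat.sub_le _ _) (by omega) (lt_of_le_of_lt
      (Nat.mul_le_mul_right _ (by omega : 2 * finrank ℂ B - 2 ≤ 2 * c ^ 2)) hN1)) (by
      intro F hFB hF hF'
      have hlt : finrank ℂ F < finrank ℂ B :=
        Submodule.finrank_lt_finrank_of_lt (lt_of_le_of_ne hFB hF')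
      have h4 := hp F hF (by omega)
      have hf : 1 ≤ finrank ℂ F := Nat.one_le_iff_ne_zero.2 fun h => hF (Submodule.finrank_eq_zero.1 h)
      have hf' : (1 : ℝ) ≤ finrank ℂ F := by exact_mod_cast hf
      have h5 : ((finrank ℂ F * (finrank ℂ B - finrank ℂ F) : ℕ) : ℝ) ≤
          finrank ℂ F * (c : ℝ) ^ 2 := by
        have : finrank ℂ F * (finrank ℂ B - finrank ℂ F) ≤ finrank ℂ F * c ^ 2 :=
          Nat.mul_le_mul_left _ (by omega)
        exact_mod_cast this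
      have hX0 : (0 : ℝ) ≤ xx / 2 * (n : ℝ) ^ 2 := by
        have := xx_pos
        positivity
      have h6 : (1 - δ) * (finrank ℂ F : ℝ) * (xx / 2 * (n : ℝ) ^ 2) ≤
          (1 - min δ 1) * (finrank ℂ F : ℝ) * (xx / 2 * (n : ℝ) ^ 2) := by
        apply mul_le_mul_of_nonneg_right _ hX0
        apply mul_le_mul_of_nonneg_right _ (by linarith)
        have := min_le_left δ 1
        linarith
      have h7 : (finrank ℂ F : ℝ) * ((1 - min δ 1) * (xx / 2 * (n : ℝ) ^ 2) + (c : ℝ) ^ 2) <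
          finrank ℂ F * N₀ := mul_lt_mul_of_pos_left hN2 (by linarith)
      have h8 : ((finrank ℂ (SF (phn c 2 n hkc) ((LS (blk c n) 2).V rest p) F) +
          finrank ℂ F * (finrank ℂ B - finrank ℂ F) : ℕ) : ℝ) < ((finrank ℂ F * N₀ : ℕ) : ℝ) := by
        rw [Nat.cast_add, Nat.cast_mul (finrank ℂ F) N₀]
        nlinarith
      exact_mod_cast h8) a.x hN3
  -- conclusion
  have hle : (H2 c n a' : ℤ) ≤ v2 c n a' := hA n (by omega) k hk a' (hcls eA e2) hx'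
  have hgs : H2 c n a = (LS (blk c n) 2).gd (Sum.elim rest fun _ : Fin a.x => Kd.ord 3 {0, 1}) := by
    unfold H2
    rw [gd_eq_gM, map_elim, hrest, Pool.Agent.V7.ST.map_const, Fintype.card_fin, ← hms]
  rw [hgs, hv]
  have hH : H2 c n a' = finrank ℂ ((LS (blk c n) 2).V rest p) := by
    rw [hpd, hgd]
    rfl
  rw [← hH] at key
  have h9 : (((LS (blk c n) 2).gd (Sum.elim rest fun _ : Fin a.x => Kd.ord 3 {0, 1}) : ℕ) : ℤ) ≤
      max 0 ((H2 c n a' : ℤ) - (finrank ℂ B * a.x : ℕ)) := by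
    omega
  refine h9.trans (max_le_max le_rfl ?_)
  have h10 : ((finrank ℂ B * a.x : ℕ) : ℤ) = a.x * ((c : ℤ) ^ 2 - a.T) := by
    have h11 : (finrank ℂ B : ℤ) = (c : ℤ) ^ 2 - a.T := by
      have : ((finrank ℂ B + a.T : ℕ) : ℤ) = ((c ^ 2 : ℕ) : ℤ) := by rw [hBf]
      push_cast at this
      linarith
    push_cast
    rw [h11]
    ring
  rw [h10]
  linarith

theorem prop2K_of (c : ℕ) (hc : 240 ≤ c) (hA : ALPHA2K c) (hB : BETA c) : PROP2K c :=
  prop2K_core c (by omega) hA hB (gamma2 c (by omega)) (cv2 c (by omega))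

end Pool.Agent.KQ
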