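import Pool.Agent.KZ.Top.Fin
import Pool.Agent.KQ.M.Al
import Pool.Agent.KQ.M.Prop2
import Pool.Agent.KQ.M.Cl0

/-!
# KQ, many double points: assembly
-/

set_option autoImplicit false

namespace Pool.Agent.KQ

open Pool.Agent.KZ

theorem prop0K_c (c : ℕ) (hc : 240 ≤ c) (h60 : 60 ∣ c) (h0 : HOST0) (h1 : HOST1)
    (hA1 : ALPHA1 c) (hA2 : ALPHA2 c) (hB : BETA c) : PROP0K c :=
  prop0K_of c hc (prop1K_of c hc h60
    (alpha1K_of c hc h0 h1 (prop1_of c hc h60 hA1 (prop2_of c hc hA2 hB)))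
    (prop2K_of c hc (alpha2K_of c hc h0 h1 hA2) hB))

end Pool.Agent.KQ
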