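import Pool.Agent.KQ.M.HostP

/-!
# KQ, HOST: the host lemmas (H0), (H1)

A general double point (`host0`), or `s` general double points on `L_i` (`host1`), against one triple
point on `L_i`, the host.
-/

set_option autoImplicit false

namespace Pool.Agent.KQ

open Finset MvPolynomial Pool.Agent.H51.TB Pool.Agent.H54.V7 Pool.Agent.V7.ST Pool.Agent.H21.NX
open Pool.Agent.H18.Ex (tcr)
open Pool.Agent.V7 (msk Ex blk)
open Pool.Agent.KZ

section

set_option linter.unusedSectionVars false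

variable {ν : Type} [Fintype ν] [DecidableEq ν]

/-- The exponents `e_x + e_l` for a set of pairs. -/
def pim (Q : Finset (ν × ν)) : Finset (ν → ℕ) := Q.image fun y => Pi.single y.1 1 + Pi.single y.2 1

theorem card_pim {β : ν → ℕ} {i : ℕ} (Q : Finset (ν × ν)) (h1 : ∀ y ∈ Q, β y.1 = i)
    (h2 : ∀ y ∈ Q, β y.2 ≠ i) : (pim Q).card = Q.card := by
  unfold pim
  refine card_image_of_injOn fun y hy z hz h => ?_
  obtain ⟨e1, e2⟩ := two_inj (h1 y hy) (h1 z hz) (h2 y hy) (h2 z hz) h
  exact Prod.ext e1 e2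

theorem mem_pim {Q : Finset (ν × ν)} {b : ν → ℕ} :
    b ∈ pim Q ↔ ∃ y ∈ Q, Pi.single y.1 1 + Pi.single y.2 1 = b := by
  unfold pim
  rw [mem_image]

theorem double_notMem_pim {β : ν → ℕ} {i : ℕ} (Q : Finset (ν × ν)) (h2 : ∀ y ∈ Q, β y.2 ≠ i)
    (a : ν) (ha : β a = i) : (Pi.single a 1 + Pi.single a 1 : ν → ℕ) ∉ pim Q := by
  intro h
  obtain ⟨y, hy, h3⟩ := mem_pim.1 h
  have h4 := congrFun h3 y.2
  have h5 : y.2 ≠ a := by
    rintro h6
    exact h2 y hy (h6 ▸ ha)
  rw [Pi.add_apply, Pi.add_apply, Pi.single_eq_same, Pi.single_eq_of_ne h5] at h4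
  omega

/-- The pairs of the triple points off `L_i`. -/
def tpairs (i : ℕ) {κ : Type} [Fintype κ] (m : κ → Kd) (aa : κ → ν) (ww : κ → Fin 3 → ν) :
    Finset (ν × ν) :=
  ((univ : Finset κ).sigma fun k => trs i (m k)).image fun y => (aa y.1, ww y.1 y.2)

theorem card_tpairs (i : ℕ) {κ : Type} [Fintype κ] (m : κ → Kd) (aa : κ → ν) (ww : κ → Fin 3 → ν)
    (hinj : ∀ k k', ∀ x ∈ trs i (m k), ∀ x' ∈ trs i (m k'), aa k = aa k' → ww k x = ww k' x' →
      k = k' ∧ x = x') : (tpairs i m aa ww).card = ∑ k, tc i (m k) := by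
  unfold tpairs
  rw [card_image_of_injOn, card_sigma]
  · exact sum_congr rfl fun k _ => card_trs i (m k)
  · intro y hy z hz h
    rw [mem_coe, mem_sigma] at hy hz
    obtain ⟨e1, e2⟩ := Prod.mk.inj h
    obtain ⟨e3, e4⟩ := hinj y.1 z.1 y.2 hy.2 z.2 hz.2 e1 e2
    exact Sigma.ext e3 (heq_of_eq e4)

theorem mem_tpairs {i : ℕ} {κ : Type} [Fintype κ] {m : κ → Kd} {aa : κ → ν} {ww : κ → Fin 3 → ν}
    {y : ν × ν} : y ∈ tpairs i m aa ww ↔ ∃ k, ∃ x ∈ trs i (m k), (aa k, ww k x) = y := by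
  unfold tpairs
  rw [mem_image]
  constructor
  · rintro ⟨z, hz, rfl⟩
    exact ⟨z.1, z.2, (mem_sigma.1 hz).2, rfl⟩
  · rintro ⟨k, x, hx, rfl⟩
    exact ⟨⟨k, x⟩, mem_sigma.2 ⟨mem_univ k, hx⟩, rfl⟩

/-- (H0) for general blocks. -/
theorem host0_gd (β : ν → ℕ) {i j w : ℕ} (hij : i < j) (A : Finset (ν → ℕ))
    (hA : ∀ a ∈ A, ∑ s, a s = 4) (hAi : ∀ a ∈ A, ∃ s, β s = i ∧ a s ≠ 0)
    (hX : 2 ≤ (univ.filter fun s => β s = i).card)
    (hW : w + 4 ≤ (univ.filter fun s => j ≤ β s).card)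
    {κ : Type} [Fintype κ] (m : κ → Kd) (hm : ∀ k, KOk j (m k))
    (hC : ∑ k, tc i (m k) ≤ ((univ.filter fun s => β s = i).card - 1) * w) :
    (LSA β A).gd (ad m (Kd.ord 2 ∅)) + (∑ k, tc i (m k) + Fintype.card ν) ≤
      (LSA β A).gd (ad m (Kd.ord 3 {i})) + (EH β i).card := by
  classical
  obtain ⟨s1, hs1⟩ := Finset.card_pos.1 (show 0 < (univ.filter fun s => β s = i).card by omega)
  obtain ⟨b0, hb0⟩ := Finset.card_pos.1 (show 0 < (univ.filter fun s => j ≤ β s).card by omega)
  have hs1' : β s1 = i := (mem_filter.1 hs1).2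
  have hb0' : j ≤ β b0 := (mem_filter.1 hb0).2
  have hb0i : β b0 ≠ i := by omega
  obtain ⟨aa, ww, h1, h2, h3⟩ := assign ((univ.filter fun s => β s = i).erase s1)
    ((univ.filter fun s => j ≤ β s).erase b0) w (by
      rw [← Finset.card_pos, card_erase_of_mem hs1]
      omega) (by
      rw [card_erase_of_mem hb0]
      omega) (fun k => trs i (m k)) (univ : Finset κ) (by
      rw [card_erase_of_mem hs1, sum_congr rfl fun k _ => card_trs i (m k)]
      exact hC)
  have ha : ∀ k, β (aa k) = i := fun k => (mem_filter.1 (mem_erase.1 (h1 k)).2).2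
  have ha1 : ∀ k, aa k ≠ s1 := fun k => (mem_erase.1 (h1 k)).1
  have hw : ∀ k x, j ≤ β (ww k x) := fun k x => (mem_filter.1 (mem_erase.1 (h2 k x)).2).2
  have hw1 : ∀ k x, ww k x ≠ b0 := fun k x => (mem_erase.1 (h2 k x)).1
  let Q0 : Finset (ν × ν) := ({s1} : Finset ν) ×ˢ (univ.filter fun s => β s ≠ i)
  let Q1 : Finset (ν × ν) := ((univ.filter fun s => β s = i).erase s1) ×ˢ ({b0} : Finset ν)
  let Q2 : Finset (ν × ν) := tpairs i m aa ww
  let d : ν → ℕ := Pi.single s1 1 + Pi.single s1 1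
  let Z : Finset (ν → ℕ) := insert d (pim Q0)
  have hQ : ∀ y ∈ Q0 ∪ Q1 ∪ Q2, β y.1 = i ∧ β y.2 ≠ i := by
    intro y hy
    rw [mem_union, mem_union] at hy
    rcases hy with (hy | hy) | hy
    · obtain ⟨e1, e2⟩ := mem_product.1 hy
      rw [mem_singleton.1 e1]
      exact ⟨hs1', (mem_filter.1 e2).2⟩
    · obtain ⟨e1, e2⟩ := mem_product.1 hy
      rw [mem_singleton.1 e2]
      exact ⟨(mem_filter.1 (mem_erase.1 e1).2).2, hb0i⟩
    · obtain ⟨k, x, hx, rfl⟩ := mem_tpairs.1 hy
      refine ⟨ha k, ?_⟩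
      have := hw k x
      show β (ww k x) ≠ i
      omega
  have hZ : Z ⊆ EH β i := by
    intro b hb
    rcases mem_insert.1 hb with rfl | hb
    · exact single_mem_EH β hs1'
    · obtain ⟨y, hy, rfl⟩ := mem_pim.1 hb
      exact single_mem_EH β (hQ y (mem_union_left _ (mem_union_left _ hy))).1
  let P : Finset (ν → ℕ) := insert d (pim (Q0 ∪ Q1 ∪ Q2))
  have hP : P ⊆ EH β i := by
    intro b hb
    rcases mem_insert.1 hb with rfl | hb
    · exact single_mem_EH β hs1'
    · obtain ⟨y, hy, rfl⟩ := mem_pim.1 hb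
      exact single_mem_EH β (hQ y hy).1
  have hcard : P.card = ∑ k, tc i (m k) + Fintype.card ν := by
    have e1 : P.card = (Q0 ∪ Q1 ∪ Q2).card + 1 := by
      show (insert d (pim (Q0 ∪ Q1 ∪ Q2))).card = _
      rw [card_insert_of_notMem (double_notMem_pim _ (fun y hy => (hQ y hy).2) s1 hs1'),
        card_pim _ (fun y hy => (hQ y hy).1) (fun y hy => (hQ y hy).2)]
    have e2 : Disjoint Q0 Q1 := by
      rw [Finset.disjoint_left]
      intro y hy hy2
      have e3 := mem_singleton.1 (mem_product.1 hy).1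
      exact (mem_erase.1 (mem_product.1 hy2).1).1 e3
    have e3 : Disjoint (Q0 ∪ Q1) Q2 := by
      rw [Finset.disjoint_left]
      intro y hy hy2
      obtain ⟨k, x, hx, rfl⟩ := mem_tpairs.1 hy2
      rcases mem_union.1 hy with hy | hy
      · exact ha1 k (mem_singleton.1 (mem_product.1 hy).1)
      · exact hw1 k x (mem_singleton.1 (mem_product.1 hy).2)
    have e4 : Q0.card = (univ.filter fun s => β s ≠ i).card := by
      rw [card_product, card_singleton, one_mul]
    have e5 : Q1.card = (univ.filter fun s => β s = i).card - 1 := by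
      rw [card_product, card_singleton, mul_one, card_erase_of_mem hs1]
    have e6 : Q2.card = ∑ k, tc i (m k) := card_tpairs i m aa ww
      fun k k' x hx x' hx' => h3 k (mem_univ k) k' (mem_univ k') x hx x' hx'
    have e7 := card_filter_add_card_filter_not (s := (univ : Finset ν)) (p := fun s => β s = i)
    rw [card_univ] at e7
    have e8 : (univ.filter fun s => β s ≠ i).card = (univ.filter fun s => ¬ β s = i).card := rfl
    rw [e1, card_union_of_disjoint e3, card_union_of_disjoint e2, e4, e5, e6]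
    omega
  have hgd := host_abs β i A hA hAi Z hZ m (fun _ : Unit => Kd.ord 2 ∅)
    (∑ k, tc i (m k) + Fintype.card ν) ?_ ?_
  · exact hgd
  · intro W q hq
    obtain ⟨t, ht⟩ := limH (κ := Unit) (fun e : {a // a ∈ A} => e.1) 2 W q
      (fun _ => Pi.single s1 1) (YZ β i Z) (by
        intro F hF b hb
        obtain ⟨g1, g2⟩ := lim_zero β i (fun e : {a // a ∈ A} => e.1) (fun e => hAi e.1 e.2) q hq s1
          hs1' F (hF ())
        rcases hb with ⟨x, hx, rfl⟩ | hb
        · exact g1 x hx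
        · rcases mem_insert.1 hb with rfl | hb
          · exact g2 s1 (Or.inr rfl)
          · obtain ⟨y, hy, rfl⟩ := mem_pim.1 hb
            obtain ⟨e1, e2⟩ := mem_product.1 hy
            rw [mem_singleton.1 e1, add_comm]
            exact g2 y.2 (Or.inl (mem_filter.1 e2).2))
    refine ⟨fun _ y => q y.1 + t * (Pi.single s1 1 : ν → ℂ) y.1, le_trans (le_of_eq ?_) ht⟩
    refine congrArg (fun S : Submodule ℂ ({a // a ∈ A} → ℂ) => Module.finrank ℂ S) ?_
    ext f
    rw [Submodule.mem_inf, mem_LSA]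
    show _ ↔ f ∈ W ∧ ∀ s : Unit, Fat (fun e : {a // a ∈ A} => e.1) 2
      (fun l => q l + t * (Pi.single s1 1 : ν → ℂ) l) f
    refine and_congr_right fun _ => ?_
    constructor
    · intro h4 u
      have h5 := h4 u 0
      have h6 : pt β (Kd.ord 2 ∅) 0 (fun y : ν × Fin 3 => q y.1 + t * (Pi.single s1 1 : ν → ℂ) y.1) =
          fun l => q l + t * (Pi.single s1 1 : ν → ℂ) l := by
        funext l
        show (if β l ∈ (∅ : Finset ℕ) then (0 : ℂ) else q l + t * (Pi.single s1 1 : ν → ℂ) l) = _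
        rw [if_neg (notMem_empty _)]
      rw [h6] at h5
      exact h5
    · intro h4 u x
      by_cases hx0 : x = 0
      · subst hx0
        have h6 : pt β (Kd.ord 2 ∅) 0 (fun y : ν × Fin 3 => q y.1 + t * (Pi.single s1 1 : ν → ℂ) y.1) =
            fun l => q l + t * (Pi.single s1 1 : ν → ℂ) l := by
          funext l
          show (if β l ∈ (∅ : Finset ℕ) then (0 : ℂ) else q l + t * (Pi.single s1 1 : ν → ℂ) l) = _
          rw [if_neg (notMem_empty _)]
        rw [h6]
        exact h4 u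
      · have h7 : mu (Kd.ord 2 ∅) x = 0 := if_neg hx0
        rw [h7]
        intro b hb
        exact absurd hb (Nat.not_lt_zero _)
  · rw [← hcard]
    refine special β hij Z hZ m hm b0 hb0' aa ww ha hw P hP (fun k hk => ?_) (fun b hb => ?_)
    · rcases mem_insert.1 hk with h4 | h4
      · have h5 := congrFun h4 (aa k)
        have h6 : d (aa k) = 0 := by
          show (Pi.single s1 1 + Pi.single s1 1 : ν → ℕ) (aa k) = 0
          rw [Pi.add_apply, Pi.single_eq_of_ne (ha1 k), add_zero]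
        rw [h6, Pi.add_apply, Pi.single_eq_same] at h5
        omega
      · exact double_notMem_pim _ (fun y hy => (hQ y hy).2) (aa k) (ha k) h4
    · rcases mem_insert.1 hb with rfl | hb
      · exact Or.inl (mem_insert_self _ _)
      · obtain ⟨y, hy, rfl⟩ := mem_pim.1 hb
        rw [mem_union, mem_union] at hy
        rcases hy with (hy | hy) | hy
        · exact Or.inl (mem_insert_of_mem (mem_pim.2 ⟨y, hy, rfl⟩))
        · obtain ⟨e1, e2⟩ := mem_product.1 hy
          refine Or.inr (Or.inl ⟨y.1, (mem_filter.1 (mem_erase.1 e1).2).2, ?_⟩)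
          rw [mem_singleton.1 e2]
        · obtain ⟨k, x, hx, rfl⟩ := mem_tpairs.1 hy
          exact Or.inr (Or.inr ⟨k, x, hx, rfl⟩)

/-- (H1) for general blocks. -/
theorem host1_gd (β : ν → ℕ) {i j w s : ℕ} (hij : i < j) (A : Finset (ν → ℕ))
    (hA : ∀ a ∈ A, ∑ s, a s = 4) (hAi : ∀ a ∈ A, ∃ s, β s = i ∧ a s ≠ 0) (hs : 1 ≤ s)
    (hX : 1 ≤ (univ.filter fun s => β s = i).card)
    (hW : w + s + 3 ≤ (univ.filter fun s => j ≤ β s).card)
    {κ : Type} [Fintype κ] (m : κ → Kd) (hm : ∀ k, KOk j (m k))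
    (hC : ∑ k, tc i (m k) ≤ (univ.filter fun s => β s = i).card * w) :
    (LSA β A).gd (Sum.elim m fun _ : Fin s => Kd.ord 2 {i}) +
      (∑ k, tc i (m k) + s * (univ.filter fun s => β s = i).card) ≤
      (LSA β A).gd (ad m (Kd.ord 3 {i})) + (EH β i).card := by
  classical
  obtain ⟨O, hO, hOs⟩ := Finset.exists_subset_card_eq
    (show s ≤ (univ.filter fun s => j ≤ β s).card by omega)
  obtain ⟨b0, hb0⟩ := Finset.card_pos.1 (show 0 < O.card by omega)
  have hOj : ∀ y ∈ O, j ≤ β y := fun y hy => (mem_filter.1 (hO hy)).2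
  have hOi : ∀ y ∈ O, β y ≠ i := fun y hy => by
    have := hOj y hy
    omega
  obtain ⟨aa, ww, h1, h2, h3⟩ := assign (univ.filter fun s => β s = i)
    ((univ.filter fun s => j ≤ β s) \ O) w (Finset.card_pos.1 (by omega)) (by
      have e1 := card_sdiff_add_card_eq_card hO
      omega) (fun k => trs i (m k)) (univ : Finset κ) (by
      rw [sum_congr rfl fun k _ => card_trs i (m k)]
      exact hC)
  have ha : ∀ k, β (aa k) = i := fun k => (mem_filter.1 (h1 k)).2
  have hw : ∀ k x, j ≤ β (ww k x) := fun k x => (mem_filter.1 (mem_sdiff.1 (h2 k x)).1).2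
  have hw1 : ∀ k x, ww k x ∉ O := fun k x => (mem_sdiff.1 (h2 k x)).2
  let Q0 : Finset (ν × ν) := (univ.filter fun s => β s = i) ×ˢ O
  let Q2 : Finset (ν × ν) := tpairs i m aa ww
  let Z : Finset (ν → ℕ) := pim ((univ.filter fun s => β s = i) ×ˢ O.erase b0)
  have hQ : ∀ y ∈ Q0 ∪ Q2, β y.1 = i ∧ β y.2 ≠ i := by
    intro y hy
    rw [mem_union] at hy
    rcases hy with hy | hy
    · obtain ⟨e1, e2⟩ := mem_product.1 hy
      exact ⟨(mem_filter.1 e1).2, hOi _ e2⟩
    · obtain ⟨k, x, hx, rfl⟩ := mem_tpairs.1 hy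
      refine ⟨ha k, ?_⟩
      have := hw k x
      show β (ww k x) ≠ i
      omega
  have hZ : Z ⊆ EH β i := by
    intro b hb
    obtain ⟨y, hy, rfl⟩ := mem_pim.1 hb
    exact single_mem_EH β (mem_filter.1 (mem_product.1 hy).1).2
  let P : Finset (ν → ℕ) := pim (Q0 ∪ Q2)
  have hP : P ⊆ EH β i := by
    intro b hb
    obtain ⟨y, hy, rfl⟩ := mem_pim.1 hb
    exact single_mem_EH β (hQ y hy).1
  have hcard : P.card = ∑ k, tc i (m k) + s * (univ.filter fun s => β s = i).card := by
    have e1 : P.card = (Q0 ∪ Q2).card :=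
      card_pim _ (fun y hy => (hQ y hy).1) (fun y hy => (hQ y hy).2)
    have e3 : Disjoint Q0 Q2 := by
      rw [Finset.disjoint_left]
      intro y hy hy2
      obtain ⟨k, x, hx, rfl⟩ := mem_tpairs.1 hy2
      exact hw1 k x (mem_product.1 hy).2
    have e4 : Q0.card = (univ.filter fun s => β s = i).card * s := by
      rw [card_product, hOs]
    have e6 : Q2.card = ∑ k, tc i (m k) := card_tpairs i m aa ww
      fun k k' x hx x' hx' => h3 k (mem_univ k) k' (mem_univ k') x hx x' hx'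
    rw [e1, card_union_of_disjoint e3, e4, e6]
    ring
  have hperm : (LSA β A).gd (Sum.elim m fun _ : Fin s => Kd.ord 2 {i}) =
      (LSA β A).gd (Sum.elim m fun _ : {y // y ∈ O} => Kd.ord 2 {i}) := by
    rw [gd_eq_gM, gd_eq_gM, map_elim, map_elim, V7.ST.map_const, V7.ST.map_const, Fintype.card_fin,
      Fintype.card_coe, hOs]
  rw [hperm]
  refine host_abs β i A hA hAi Z hZ m (fun _ : {y // y ∈ O} => Kd.ord 2 {i})
    (∑ k, tc i (m k) + s * (univ.filter fun s => β s = i).card) ?_ ?_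
  · intro W q hq
    let v : {y // y ∈ O} → ν → ℂ := fun y => if y.1 = b0 then 0 else Pi.single y.1 1
    obtain ⟨t, ht⟩ := limH (fun e : {a // a ∈ A} => e.1) 2 W q v (YZ β i Z) (by
        intro F hF b hb
        have g0 := hF ⟨b0, hb0⟩
        have g1 : v ⟨b0, hb0⟩ = 0 := if_pos rfl
        rw [g1] at g0
        rcases hb with ⟨x, hx, rfl⟩ | hb
        · refine dh_fat univ _ F q 0 2 g0 _ ?_
          rw [sum_pi_single']
          simp
        · obtain ⟨y, hy, rfl⟩ := mem_pim.1 hb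
          obtain ⟨e1, e2⟩ := mem_product.1 hy
          obtain ⟨e3, e4⟩ := mem_erase.1 e2
          have g2 := hF ⟨y.2, e4⟩
          have g3 : v ⟨y.2, e4⟩ = Pi.single y.2 1 := if_neg e3
          rw [g3] at g2
          exact lim_one β i _ q y.2 F g0 g2 y.1 (mem_filter.1 e1).2)
    have hv : ∀ (y : {y // y ∈ O}) (l : ν), β l = i → v y l = 0 := by
      intro y l hl
      show (if y.1 = b0 then (0 : ν → ℂ) else Pi.single y.1 1) l = 0
      split_ifs
      · rfl
      · refine Pi.single_eq_of_ne ?_ _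
        rintro rfl
        exact hOi _ y.2 hl
    have h6 : ∀ y : {y // y ∈ O}, pt β (Kd.ord 2 {i}) 0
        (fun z : ν × Fin 3 => q z.1 + t * v y z.1) = fun l => q l + t * v y l := by
      intro y
      funext l
      show (if β l ∈ ({i} : Finset ℕ) then (0 : ℂ) else q l + t * v y l) = _
      split_ifs with h7
      · rw [hq l (mem_singleton.1 h7), hv y l (mem_singleton.1 h7), mul_zero, add_zero]
      · rfl
    refine ⟨fun y z => q z.1 + t * v y z.1, le_trans (le_of_eq ?_) ht⟩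
    refine congrArg (fun S : Submodule ℂ ({a // a ∈ A} → ℂ) => Module.finrank ℂ S) ?_
    ext f
    rw [Submodule.mem_inf, mem_LSA]
    show _ ↔ f ∈ W ∧ ∀ y : {y // y ∈ O}, Fat (fun e : {a // a ∈ A} => e.1) 2
      (fun l => q l + t * v y l) f
    refine and_congr_right fun _ => ?_
    constructor
    · intro h4 y
      have h5 := h4 y 0
      rw [h6] at h5
      exact h5
    · intro h4 y x
      by_cases hx0 : x = 0
      · subst hx0
        rw [h6]
        exact h4 y
      · have h7 : mu (Kd.ord 2 {i}) x = 0 := if_neg hx0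
        rw [h7]
        intro b hb
        exact absurd hb (Nat.not_lt_zero _)
  · rw [← hcard]
    refine special β hij Z hZ m hm b0 (hOj b0 hb0) aa ww ha hw P hP (fun k hk => ?_)
      (fun b hb => ?_)
    · exact double_notMem_pim _ (fun y hy => (hQ y hy).2) (aa k) (ha k) hk
    · obtain ⟨y, hy, rfl⟩ := mem_pim.1 hb
      rcases mem_union.1 hy with hy | hy
      · obtain ⟨e1, e2⟩ := mem_product.1 hy
        by_cases h4 : y.2 = b0
        · refine Or.inr (Or.inl ⟨y.1, (mem_filter.1 e1).2, ?_⟩)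
          rw [h4]
        · exact Or.inl (mem_pim.2 ⟨y, mem_product.2 ⟨e1, mem_erase.2 ⟨h4, e2⟩⟩, rfl⟩)
      · obtain ⟨k, x, hx, rfl⟩ := mem_tpairs.1 hy
        exact Or.inr (Or.inr ⟨k, x, hx, rfl⟩)

end

theorem sum_map_conf {T : Type} (g : T → ℕ) {κ : Type} [Fintype κ] (m : κ → T) (B : Multiset T)
    (h : (univ : Finset κ).val.map m = B) : ∑ k, g (m k) = (B.map g).sum := by
  rw [← h, Multiset.map_map]
  rfl

/-- **(H0)** A general double point against one triple point on `L_i`, the host. -/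
theorem host0 : HOST0 := by
  classical
  intro c n j i w hc hij _ hn B hB hC
  obtain ⟨m, hm, _⟩ := exists_conf (LS (blk c n) j) B
  have hji : (i + 1) * c ≤ j * c := Nat.mul_le_mul_right c hij
  have h1 := card_blk c n i (by omega) (by omega)
  have h2 := card_free c n j (by omega) (by omega)
  have h3 : ∑ k, tc i (m k) = trp i B := sum_map_conf (tc i) m B hm
  have h4 := host0_gd (blk c n) (w := w) hij (Ex (blk c n) 4 j)
    (fun a ha => (Pool.Agent.V7.mem_Ex.1 ha).1) (fun a ha => (Pool.Agent.V7.mem_Ex.1 ha).2 i hij)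
    (by rw [h1]; omega) (by rw [h2]; omega) m (fun k => hB _ (by
      rw [← hm]
      exact Multiset.mem_map_of_mem m (mem_univ_val k))) (by rw [h1, h3]; exact hC)
  rw [gd_eq_gM, gd_eq_gM, map_ad, map_ad, hm, h3, Fintype.card_fin] at h4
  have h5 := card_EH_blk c n i (by omega) (by omega)
  rw [← h5]
  have h6 : (gM (LSA (blk c n) (Ex (blk c n) 4 j)) (Kd.ord 2 ∅ ::ₘ B) : ℤ) +
      ((trp i B : ℕ) + (n : ℤ)) ≤
      gM (LSA (blk c n) (Ex (blk c n) 4 j)) (Kd.ord 3 {i} ::ₘ B) +
        ((EH (blk c n) i).card : ℤ) := by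
    exact_mod_cast h4
  linarith

/-- **(H1)** `s` general double points on `L_i` against one triple point on `L_i`. -/
theorem host1 : HOST1 := by
  classical
  intro c n j i w s hc hij _ hs hn B hB hC
  obtain ⟨m, hm, _⟩ := exists_conf (LS (blk c n) j) B
  have hji : (i + 1) * c ≤ j * c := Nat.mul_le_mul_right c hij
  have h1 := card_blk c n i (by omega) (by omega)
  have h2 := card_free c n j (by omega) (by omega)
  have h3 : ∑ k, tc i (m k) = trp i B := sum_map_conf (tc i) m B hm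
  have h4 := host1_gd (blk c n) (w := w) (s := s) hij (Ex (blk c n) 4 j)
    (fun a ha => (Pool.Agent.V7.mem_Ex.1 ha).1) (fun a ha => (Pool.Agent.V7.mem_Ex.1 ha).2 i hij)
    hs (by rw [h1]; omega) (by rw [h2]; omega) m (fun k => hB _ (by
      rw [← hm]
      exact Multiset.mem_map_of_mem m (mem_univ_val k))) (by rw [h1, h3]; exact hC)
  rw [gd_eq_gM, gd_eq_gM, map_ad, map_elim, V7.ST.map_const, hm, h3, Fintype.card_fin, h1,
    Multiset.add_comm] at h4
  have h5 := card_EH_blk c n i (by omega) (by omega)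
  rw [← h5]
  have h6 : (gM (LSA (blk c n) (Ex (blk c n) 4 j)) (Multiset.replicate s (Kd.ord 2 {i}) + B) : ℤ) +
      ((trp i B : ℕ) + ((s : ℤ) * c)) ≤
      gM (LSA (blk c n) (Ex (blk c n) 4 j)) (Kd.ord 3 {i} ::ₘ B) +
        ((EH (blk c n) i).card : ℤ) := by
    exact_mod_cast h4
  linarith

end Pool.Agent.KQ
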