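import Pool.Agent.KZ.Defs

/-!
# KQ, HOST: combinatorics

The greedy choice of the special positions; the number of exponents of degree `2` which meet a block.
-/

set_option autoImplicit false

namespace Pool.Agent.KQ

open Finset Pool.Agent.V7 Pool.Agent.H21.NX

/-- A greedy assignment: every member `k` gets an element `aa k` of `X` and three different elements
`ww k x` of `W`; the pairs which are used are different. -/
theorem assign {ν κ : Type} [DecidableEq ν] [DecidableEq κ] (X W : Finset ν) (w : ℕ)
    (hX : X.Nonempty) (hW : w + 3 ≤ W.card) (T : κ → Finset (Fin 3)) (s : Finset κ)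
    (h : ∑ k ∈ s, (T k).card ≤ X.card * w) :
    ∃ (aa : κ → ν) (ww : κ → Fin 3 → ν), (∀ k, aa k ∈ X) ∧ (∀ k x, ww k x ∈ W) ∧
      ∀ k ∈ s, ∀ k' ∈ s, ∀ x ∈ T k, ∀ x' ∈ T k', aa k = aa k' → ww k x = ww k' x' →
        k = k' ∧ x = x' := by
  induction s using Finset.induction_on with
  | empty =>
    obtain ⟨a, ha⟩ := hX
    obtain ⟨b, hb⟩ := Finset.card_pos.1 (show 0 < W.card by omega)
    exact ⟨fun _ => a, fun _ _ => b, fun _ => ha, fun _ _ => hb, by simp⟩
  | insert k0 s hk0 ih =>
    rw [sum_insert hk0] at h
    obtain ⟨aa, ww, h1, h2, h3⟩ := ih (by omega)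
    let P : Finset (Σ _ : κ, Fin 3) := s.sigma T
    obtain ⟨a, ha, hca⟩ : ∃ a ∈ X, (P.filter fun y => aa y.1 = a).card ≤ w := by
      by_contra hcon
      push Not at hcon
      have h4 : P.card = ∑ a ∈ X, (P.filter fun y => aa y.1 = a).card :=
        card_eq_sum_card_fiberwise fun y _ => h1 y.1
      have h5 : ∑ a ∈ X, (w + 1) ≤ ∑ a ∈ X, (P.filter fun y => aa y.1 = a).card :=
        sum_le_sum fun a ha => hcon a ha
      rw [sum_const, smul_eq_mul, ← h4, card_sigma] at h5
      have h6 : 0 < X.card := Finset.card_pos.2 hX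
      have h7 : X.card * (w + 1) = X.card * w + X.card := by ring
      omega
    let U : Finset ν := (P.filter fun y => aa y.1 = a).image fun y => ww y.1 y.2
    have hU : 3 ≤ (W \ U).card := by
      have h4 := Finset.le_card_sdiff U W
      have h5 : U.card ≤ w := card_image_le.trans hca
      omega
    obtain ⟨V, hV, hV3⟩ := Finset.exists_subset_card_eq hU
    let e : V ≃ Fin 3 := V.equivFinOfCardEq hV3
    have hVW : ∀ x, (e.symm x : ν) ∈ W := fun x => (mem_sdiff.1 (hV (e.symm x).2)).1
    have hVU : ∀ x, (e.symm x : ν) ∉ U := fun x => (mem_sdiff.1 (hV (e.symm x).2)).2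
    have hnew : ∀ k ∈ s, ∀ x ∈ T k, ∀ x', a = aa k → (e.symm x' : ν) ≠ ww k x := by
      intro k hk x hx x' hak he
      apply hVU x'
      rw [he]
      exact mem_image.2 ⟨⟨k, x⟩, mem_filter.2 ⟨mem_sigma.2 ⟨hk, hx⟩, hak.symm⟩, rfl⟩
    have hne : ∀ k ∈ s, k ≠ k0 := fun k hk h => hk0 (h ▸ hk)
    refine ⟨Function.update aa k0 a, Function.update ww k0 fun x => (e.symm x : ν), ?_, ?_, ?_⟩
    · intro k
      by_cases hk : k = k0
      · rw [hk, Function.update_self]
        exact ha
      · rw [Function.update_of_ne hk]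
        exact h1 k
    · intro k x
      by_cases hk : k = k0
      · rw [hk, Function.update_self]
        exact hVW x
      · rw [Function.update_of_ne hk]
        exact h2 k x
    · intro k hk k' hk' x hx x' hx' e1 e2
      rcases mem_insert.1 hk with hk2 | hk2
      · rcases mem_insert.1 hk' with hk3 | hk3
        · rw [hk2, hk3, Function.update_self] at e2
          refine ⟨hk2.trans hk3.symm, ?_⟩
          exact e.symm.injective (Subtype.ext e2)
        · rw [hk2, Function.update_self, Function.update_of_ne (hne k' hk3)] at e1 e2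
          exact absurd e2 (hnew k' hk3 x' hx' x e1)
      · rcases mem_insert.1 hk' with hk3 | hk3
        · rw [hk3, Function.update_self, Function.update_of_ne (hne k hk2)] at e1 e2
          exact absurd e2.symm (hnew k hk2 x hx x' e1.symm)
        · rw [Function.update_of_ne (hne k hk2), Function.update_of_ne (hne k' hk3)] at e1 e2
          exact h3 k hk2 k' hk3 x hx x' hx' e1 e2

section

variable {ν : Type} [Fintype ν] [DecidableEq ν]

/-- The exponents of degree `2` which meet the block `i`. -/
def EH (β : ν → ℕ) (i : ℕ) : Finset (ν → ℕ) :=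
  (Sx ν 2).filter fun a => ∃ s, β s = i ∧ a s ≠ 0

theorem mem_EH {β : ν → ℕ} {i : ℕ} {a : ν → ℕ} :
    a ∈ EH β i ↔ ∑ s, a s = 2 ∧ ∃ s, β s = i ∧ a s ≠ 0 := by
  unfold EH
  rw [mem_filter, mem_Sx]

private theorem HostA_card_Sx {ι : Type} [Fintype ι] [DecidableEq ι] (n : ℕ) :
    (Sx ι n).card = Nat.multichoose (Fintype.card ι) n := by
  rw [← card_univ, ← card_finsuppAntidiag_nat_eq_multichoose]
  symm
  apply card_bij (fun (α : ι →₀ ℕ) _ => (⇑α : ι → ℕ))
  · intro α hα
    rw [mem_finsuppAntidiag] at hα
    exact mem_Sx.2 hα.1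
  · intro α _ β _ h
    exact DFunLike.coe_injective h
  · intro f hf
    refine ⟨Finsupp.equivFunOnFinite.symm f, ?_, rfl⟩
    rw [mem_finsuppAntidiag]
    exact ⟨mem_Sx.1 hf, subset_univ _⟩

theorem card_EH (β : ν → ℕ) (i : ℕ) :
    (EH β i).card + Nat.multichoose (univ.filter fun s => β s ≠ i).card 2 =
      Nat.multichoose (Fintype.card ν) 2 := by
  classical
  rw [← HostA_card_Sx, ← card_filter_add_card_filter_not (s := Sx ν 2)
    (p := fun a => ∃ s, β s = i ∧ a s ≠ 0)]
  congr 1
  have h1 : Nat.multichoose (univ.filter fun s => β s ≠ i).card 2 =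
      (Sx {s // β s ≠ i} 2).card := by
    rw [HostA_card_Sx, Fintype.card_subtype]
  rw [h1]
  symm
  refine card_bij (fun a _ => fun s : {s // β s ≠ i} => a s.1) ?_ ?_ ?_
  · intro a ha
    rw [mem_filter, mem_Sx] at ha
    rw [mem_Sx, ← ha.1]
    have h2 : ∑ s, a s = ∑ s ∈ univ.filter (fun s => β s ≠ i), a s := by
      symm
      refine sum_subset (subset_univ _) fun s _ hs => ?_
      rw [mem_filter] at hs
      push Not at hs
      by_contra h0
      exact ha.2 ⟨s, hs (mem_univ s), h0⟩
    rw [h2]
    exact (sum_subtype (univ.filter fun s => β s ≠ i) (by simp) a).symm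
  · intro a ha b hb h
    rw [mem_filter] at ha hb
    funext s
    by_cases hs : β s = i
    · have h2 : a s = 0 := by
        by_contra h0
        exact ha.2 ⟨s, hs, h0⟩
      have h3 : b s = 0 := by
        by_contra h0
        exact hb.2 ⟨s, hs, h0⟩
      rw [h2, h3]
    · exact congrFun h ⟨s, hs⟩
  · intro b hb
    rw [mem_Sx] at hb
    refine ⟨fun s => if h : β s ≠ i then b ⟨s, h⟩ else 0, ?_, ?_⟩
    · rw [mem_filter, mem_Sx]
      constructor
      · rw [← hb]
        have h2 : ∑ s, (if h : β s ≠ i then b ⟨s, h⟩ else 0) =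
            ∑ s ∈ univ.filter (fun s => β s ≠ i), (if h : β s ≠ i then b ⟨s, h⟩ else 0) := by
          symm
          refine sum_subset (subset_univ _) fun s _ hs => ?_
          rw [mem_filter] at hs
          push Not at hs
          rw [dif_neg (not_not.2 (hs (mem_univ s)))]
        rw [h2, sum_subtype (univ.filter fun s => β s ≠ i) (p := fun s => β s ≠ i) (by simp)]
        refine sum_congr rfl fun s _ => ?_
        rw [dif_pos s.2]
      · rintro ⟨s, hs, h0⟩
        exact h0 (dif_neg (not_not.2 hs))
    · funext s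
      exact dif_pos s.2

end

/-- The number of variables of a block. -/
theorem card_blk (c n i : ℕ) (hc : 1 ≤ c) (hi : (i + 1) * c ≤ n) :
    (univ.filter fun s : Fin n => blk c n s = i).card = c := by
  have h1 : (range c).card = (univ.filter fun s : Fin n => blk c n s = i).card := by
    refine card_bij (fun r hr => ⟨i * c + r, ?_⟩) ?_ ?_ ?_
    · rw [mem_range] at hr
      have : (i + 1) * c = i * c + c := by ring
      omega
    · intro r hr
      rw [mem_range] at hr
      rw [mem_filter]
      refine ⟨mem_univ _, ?_⟩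
      show (i * c + r) / c = i
      rw [mul_comm i c, Nat.mul_add_div hc, Nat.div_eq_of_lt hr, Nat.add_zero]
    · intro r _ r' _ h
      have h2 : i * c + r = i * c + r' := congrArg Fin.val h
      omega
    · intro s hs
      rw [mem_filter] at hs
      have h2 : s.1 / c = i := hs.2
      refine ⟨s.1 - i * c, ?_, ?_⟩
      · rw [mem_range]
        have h3 := Nat.div_add_mod s.1 c
        have h4 := Nat.mod_lt s.1 hc
        rw [h2] at h3
        rw [mul_comm i c]
        omega
      · apply Fin.ext
        show i * c + (s.1 - i * c) = s.1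
        have h3 := Nat.div_add_mod s.1 c
        rw [h2] at h3
        rw [mul_comm i c]
        omega
  rw [← h1, card_range]

/-- The number of variables outside of the blocks `0, …, j - 1`. -/
theorem card_free (c n j : ℕ) (hc : 1 ≤ c) (hj : j * c ≤ n) :
    (univ.filter fun s : Fin n => j ≤ blk c n s).card = n - j * c := by
  have h1 : (range (n - j * c)).card = (univ.filter fun s : Fin n => j ≤ blk c n s).card := by
    refine card_bij (fun r hr => ⟨j * c + r, ?_⟩) ?_ ?_ ?_
    · rw [mem_range] at hr
      omega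
    · intro r hr
      rw [mem_filter]
      refine ⟨mem_univ _, ?_⟩
      show j ≤ (j * c + r) / c
      rw [Nat.le_div_iff_mul_le hc]
      omega
    · intro r _ r' _ h
      have h2 : j * c + r = j * c + r' := congrArg Fin.val h
      omega
    · intro s hs
      rw [mem_filter] at hs
      have h2 : j ≤ s.1 / c := hs.2
      rw [Nat.le_div_iff_mul_le hc] at h2
      refine ⟨s.1 - j * c, ?_, ?_⟩
      · rw [mem_range]
        have := s.2
        omega
      · apply Fin.ext
        show j * c + (s.1 - j * c) = s.1
        omega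
  rw [← h1, card_range]

theorem card_EH_blk (c n i : ℕ) (hi : (i + 1) * c ≤ n) (hc : 1 ≤ c) :
    ((EH (blk c n) i).card : ℤ) = Pool.Agent.KZ.dl c n := by
  have h1 := card_EH (blk c n) i
  have h2 : (univ.filter fun s : Fin n => blk c n s ≠ i).card = n - c := by
    have h3 := card_filter_add_card_filter_not (s := (univ : Finset (Fin n)))
      (p := fun s => blk c n s = i)
    rw [card_blk c n i hc hi, card_univ, Fintype.card_fin] at h3
    have h4 : (univ.filter fun s : Fin n => blk c n s ≠ i).card =
      (univ.filter fun s : Fin n => ¬ blk c n s = i).card := rfl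
    omega
  rw [h2, Fintype.card_fin] at h1
  unfold Pool.Agent.KZ.dl Pool.Agent.KZ.mc
  omega

end Pool.Agent.KQ
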