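import Pool.Agent.KQ.M.HostA
import Pool.Agent.KZ.Tr

/-!
# KQ, HOST: the limit of moving double points and the relations of the quadrics

`D f q b = ∑ e, f e * tcr q (ex e) b` are the Taylor coefficients of the form `f` at `q`.
-/

set_option autoImplicit false

namespace Pool.Agent.KQ

open Finset Pool.Agent.H54.V7 Pool.Agent.H21.NX
open Pool.Agent.H18.Ex (tcr)

section

set_option linter.unusedSectionVars false

variable {ι : Type} [Fintype ι] [DecidableEq ι] {E : Type} [Fintype E]

/-- The forms of `W` whose Taylor coefficients with the exponents `Y` vanish at `q`. -/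
def hsub (W : Submodule ℂ (E → ℂ)) (ex : E → ι → ℕ) (q : ι → ℂ) (Y : Set (ι → ℕ)) :
    Submodule ℂ (E → ℂ) where
  carrier := {f | f ∈ W ∧ ∀ b ∈ Y, ∑ e, f e * tcr q (ex e) b = 0}
  zero_mem' := ⟨W.zero_mem, fun b _ => by simp⟩
  add_mem' := by
    intro f g hf hg
    refine ⟨W.add_mem hf.1 hg.1, fun b hb => ?_⟩
    simp only [Pi.add_apply, add_mul, sum_add_distrib]
    rw [hf.2 b hb, hg.2 b hb, add_zero]
  smul_mem' := by
    intro c f hf
    refine ⟨W.smul_mem c hf.1, fun b hb => ?_⟩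
    have h2 : ∑ e, (c • f) e * tcr q (ex e) b = c * ∑ e, f e * tcr q (ex e) b := by
      rw [mul_sum]
      exact sum_congr rfl fun e _ => by rw [Pi.smul_apply, smul_eq_mul, mul_assoc]
    rw [h2, hf.2 b hb, mul_zero]

theorem mem_hsub {W : Submodule ℂ (E → ℂ)} {ex : E → ι → ℕ} {q : ι → ℂ} {Y : Set (ι → ℕ)}
    {f : E → ℂ} : f ∈ hsub W ex q Y ↔ f ∈ W ∧ ∀ b ∈ Y, ∑ e, f e * tcr q (ex e) b = 0 := Iff.rfl

open Polynomial in
/-- The limit for moving points. -/
theorem limH {κ : Type} [Fintype κ] (ex : E → ι → ℕ) (M : ℕ) (W : Submodule ℂ (E → ℂ))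
    (q : ι → ℂ) (v : κ → ι → ℂ) (Y : Set (ι → ℕ))
    (hY : ∀ F : E → ℂ[X], (∀ s, ∀ b : ι → ℕ, ∑ i, b i < M → mH univ ex F q (v s) b = 0) →
      ∀ b ∈ Y, ∑ e, (F e).eval 0 * tcr q (ex e) b = 0) :
    ∃ t : ℂ, Module.finrank ℂ (fatSub W ex M fun s i => q i + t * v s i) ≤
      Module.finrank ℂ (hsub W ex q Y) := by
  classical
  obtain ⟨k, c, hc⟩ := exists_eqns W
  let Mx : Fin k ⊕ (κ × (ι → Fin M)) → E → ℂ[X] := Sum.elim (fun r e => C (c r e))
    fun r e => if ∑ i, (r.2 i : ℕ) < M then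
      tcr (mv q (v r.1)) (ex e) (fun i => (r.2 i : ℕ)) else 0
  have hlt : ∀ b : ι → ℕ, ∑ i, b i < M → ∀ i, b i < M := by
    intro b hb i
    have h1 : b i ≤ ∑ i, b i := single_le_sum (f := b) (fun _ _ => Nat.zero_le _) (mem_univ i)
    omega
  obtain ⟨t, ht⟩ := poly_limit Mx (hsub W ex q Y) (by
    intro F hF
    refine ⟨?_, ?_⟩
    · rw [hc]
      intro r
      have h1 := congrArg (fun g : ℂ[X] => g.coeff 0) (hF (Sum.inl r))
      simp only [coeff_zero] at h1
      rw [finsetSum_coeff] at h1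
      refine Eq.trans ?_ h1
      refine sum_congr rfl fun e _ => ?_
      show c r e * (F e).eval 0 = (F e * C (c r e)).coeff 0
      rw [coeff_mul_C, mul_comm, coeff_zero_eq_eval_zero]
    · refine hY F fun s b hb => ?_
      have h1 := hF (Sum.inr (s, fun i => ⟨b i, hlt b hb i⟩))
      refine Eq.trans ?_ h1
      unfold mH
      refine sum_congr rfl fun e _ => ?_
      show F e * tcr (mv q (v s)) (ex e) b = F e * (if ∑ i, b i < M then
        tcr (mv q (v s)) (ex e) (fun i => b i) else 0)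
      rw [if_pos hb])
  refine ⟨t, le_trans (le_of_eq ?_) ht⟩
  have h1 : fatSub W ex M (fun s i => q i + t * v s i) = solAt Mx t := by
    ext f
    rw [mem_solAt]
    constructor
    · rintro ⟨hf, hf2⟩ (r | ⟨s, b⟩)
      · have h2 := (hc f).1 hf r
        refine Eq.trans ?_ h2
        refine sum_congr rfl fun e _ => ?_
        show f e * (C (c r e)).eval t = c r e * f e
        rw [eval_C, mul_comm]
      · by_cases hb : ∑ i, (b i : ℕ) < M
        · have h2 := hf2 s (fun i => (b i : ℕ)) hb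
          refine Eq.trans ?_ h2
          refine sum_congr rfl fun e _ => ?_
          show f e * (if ∑ i, (b i : ℕ) < M then
            tcr (mv q (v s)) (ex e) (fun i => (b i : ℕ)) else 0).eval t = _
          rw [if_pos hb, eval_tcr_mv_gen]
        · refine sum_eq_zero fun e _ => ?_
          show f e * (if ∑ i, (b i : ℕ) < M then
            tcr (mv q (v s)) (ex e) (fun i => (b i : ℕ)) else 0).eval t = _
          rw [if_neg hb, eval_zero, mul_zero]
    · intro h
      refine ⟨(hc f).2 fun r => ?_, fun s b hb => ?_⟩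
      · refine Eq.trans ?_ (h (Sum.inl r))
        refine sum_congr rfl fun e _ => ?_
        show c r e * f e = f e * (C (c r e)).eval t
        rw [eval_C, mul_comm]
      · refine Eq.trans ?_ (h (Sum.inr (s, fun i => ⟨b i, hlt b hb i⟩)))
        refine sum_congr rfl fun e _ => ?_
        show _ = f e * (if ∑ i, b i < M then
          tcr (mv q (v s)) (ex e) (fun i => b i) else 0).eval t
        rw [if_pos hb, eval_tcr_mv_gen]
  rw [h1]

theorem tcr_single_ne {s1 : ι} {a b : ι → ℕ} {M : ℕ} (ha : ∑ i, a i ≤ M) (hb : ∑ i, b i = M)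
    (h : tcr (Pi.single s1 (1 : ℂ)) b a ≠ 0) : b = a + Pi.single s1 (M - ∑ i, a i) := by
  have h1 : ∀ i, a i ≤ b i := by
    by_contra hcon
    exact h (tcr_eq_zero _ _ _ hcon)
  have h2 : ∀ i, i ≠ s1 → b i = a i := by
    intro i hi
    by_contra hne
    apply h
    unfold tcr
    refine prod_eq_zero (mem_univ i) ?_
    rw [Pi.single_eq_of_ne hi, zero_pow, mul_zero]
    have := h1 i
    omega
  have h3 : ∑ i, b i = ∑ i, a i + (b s1 - a s1) := by
    rw [← add_sum_erase univ b (mem_univ s1), ← add_sum_erase univ a (mem_univ s1)]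
    have h4 : ∑ i ∈ univ.erase s1, b i = ∑ i ∈ univ.erase s1, a i :=
      sum_congr rfl fun i hi => h2 i (ne_of_mem_erase hi)
    have := h1 s1
    omega
  funext i
  by_cases hi : i = s1
  · rw [hi, Pi.add_apply, Pi.single_eq_same]
    have := h1 s1
    omega
  · rw [Pi.add_apply, Pi.single_eq_of_ne hi, add_zero]
    exact h2 i hi

open Polynomial in
/-- The derivative in the direction of a coordinate. -/
theorem deriv_single (ex : E → ι → ℕ) (F : E → ℂ[X]) (q : ι → ℂ) (s1 : ι) (a : ι → ℕ) (M : ℕ)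
    (hF : ∀ b : ι → ℕ, ∑ i, b i < M → mH univ ex F q (Pi.single s1 1) b = 0)
    (ha : ∑ i, a i ≤ M) (hG : mG univ ex F q a = 0) :
    ∑ e, (F e).eval 0 * tcr q (ex e) (a + Pi.single s1 (M - ∑ i, a i)) = 0 := by
  classical
  let N : ℕ := M + (∑ e, ∑ i, ex e i) + 1
  have hN : ∀ m ∈ (univ : Finset E), ∀ i, ex m i < N := by
    intro m hm i
    have h1 : ex m i ≤ ∑ i, ex m i :=
      single_le_sum (f := ex m) (fun _ _ => Nat.zero_le _) (mem_univ i)
    have h2 : ∑ i, ex m i ≤ ∑ m, ∑ i, ex m i :=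
      single_le_sum (f := fun m => ∑ i, ex m i) (fun _ _ => Nat.zero_le _) hm
    show ex m i < M + (∑ e, ∑ i, ex e i) + 1
    omega
  have h1 := dh_deriv univ ex F q (Pi.single s1 1) a N M hN hF ha (by
    rw [hG]
    exact dvd_zero _)
  set b0 : ι → ℕ := a + Pi.single s1 (M - ∑ i, a i) with hb0
  have hs : ∑ i, b0 i = M := by
    rw [hb0]
    simp only [Pi.add_apply]
    rw [sum_add_distrib, sum_pi_single']
    simp
    omega
  have hmem : b0 ∈ bxd ι N M := by
    unfold bxd
    rw [mem_filter, mem_bx]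
    refine ⟨fun i => ?_, hs⟩
    have h2 : b0 i ≤ ∑ i, b0 i := single_le_sum (f := b0) (fun _ _ => Nat.zero_le _) (mem_univ i)
    show b0 i < M + (∑ e, ∑ i, ex e i) + 1
    omega
  rw [sum_eq_single_of_mem b0 hmem] at h1
  · rcases mul_eq_zero.1 h1 with h2 | h2
    · exfalso
      have h3 : tcr (Pi.single s1 (1 : ℂ)) b0 a = ((b0 s1).choose (a s1) : ℕ) := by
        unfold tcr
        rw [← mul_prod_erase univ _ (mem_univ s1), Pi.single_eq_same, one_pow, mul_one]
        have h4 : ∏ i ∈ univ.erase s1, (((b0 i).choose (a i) : ℕ) : ℂ) *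
            (Pi.single s1 (1 : ℂ) : ι → ℂ) i ^ (b0 i - a i) = 1 := by
          refine prod_eq_one fun i hi => ?_
          have h5 : b0 i = a i := by
            rw [hb0, Pi.add_apply, Pi.single_eq_of_ne (ne_of_mem_erase hi), add_zero]
          rw [h5, Nat.choose_self, Nat.sub_self, pow_zero, Nat.cast_one, one_mul]
        rw [h4, mul_one]
      rw [h3] at h2
      have h5 : 0 < (b0 s1).choose (a s1) := by
        refine Nat.choose_pos ?_
        rw [hb0, Pi.add_apply]
        omega
      have h6 : ((b0 s1).choose (a s1) : ℕ) = 0 := by exact_mod_cast h2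
      omega
    · exact h2
  · intro b hb hne
    have h2 : tcr (Pi.single s1 (1 : ℂ)) b a = 0 := by
      by_contra h3
      unfold bxd at hb
      exact hne (tcr_single_ne ha (mem_filter.1 hb).2 h3)
    rw [h2, zero_mul]

/-- The values of the quadrics `D^2 f (q)` at the triple points of `f`. -/
theorem rel_two (ex : E → ι → ℕ) (hd : ∀ e, ∑ s, ex e s = 4) (f : E → ℂ) (q r : ι → ℂ)
    (hr : Fat ex 3 r f) :
    ∑ b ∈ Sx ι 2, (∑ e, f e * tcr q (ex e) b) * ∏ s, r s ^ b s = 0 := by
  classical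
  have key : ∀ m : ι → ℕ, ∑ s, m s = 4 → ∀ q r : ι → ℂ,
      ∑ b ∈ Sx ι 2, tcr q m b * ∏ s, r s ^ b s =
        ∑ b ∈ (Sx ι 2).filter (fun b => ∀ s, b s ≤ m s),
          ∏ s, (((m s).choose (b s) : ℕ) : ℂ) * q s ^ (m s - b s) * r s ^ b s := by
    intro m _ q r
    rw [sum_filter]
    refine sum_congr rfl fun b _ => ?_
    split_ifs with h
    · unfold tcr
      rw [← prod_mul_distrib]
    · rw [tcr_eq_zero _ _ _ h, zero_mul]
  have swap : ∀ m : ι → ℕ, ∑ s, m s = 4 →
      ∑ b ∈ Sx ι 2, tcr q m b * ∏ s, r s ^ b s = ∑ b ∈ Sx ι 2, tcr r m b * ∏ s, q s ^ b s := by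
    intro m hm
    rw [key m hm, key m hm]
    have hmem : ∀ b ∈ (Sx ι 2).filter (fun b => ∀ s, b s ≤ m s),
        (fun s => m s - b s) ∈ (Sx ι 2).filter (fun b => ∀ s, b s ≤ m s) := by
      intro b hb
      rw [mem_filter, mem_Sx] at hb ⊢
      refine ⟨?_, fun s => Nat.sub_le _ _⟩
      have h1 : ∑ s, (m s - b s) + ∑ s, b s = ∑ s, m s := by
        rw [← sum_add_distrib]
        exact sum_congr rfl fun s _ => Nat.sub_add_cancel (hb.2 s)
      omega
    refine sum_nbij' (fun b s => m s - b s) (fun b s => m s - b s) hmem hmem ?_ ?_ ?_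
    · intro b hb
      rw [mem_filter] at hb
      funext s
      have := hb.2 s
      show m s - (m s - b s) = b s
      omega
    · intro b hb
      rw [mem_filter] at hb
      funext s
      have := hb.2 s
      show m s - (m s - b s) = b s
      omega
    · intro b hb
      rw [mem_filter] at hb
      refine prod_congr rfl fun s _ => ?_
      have h1 := hb.2 s
      show _ = (((m s).choose (m s - b s) : ℕ) : ℂ) * r s ^ (m s - (m s - b s)) *
        q s ^ (m s - b s)
      rw [Nat.choose_symm h1, show m s - (m s - b s) = b s by omega]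
      ring
  have h1 : ∑ b ∈ Sx ι 2, (∑ e, f e * tcr q (ex e) b) * ∏ s, r s ^ b s =
      ∑ e, f e * ∑ b ∈ Sx ι 2, tcr q (ex e) b * ∏ s, r s ^ b s := by
    simp only [sum_mul, mul_sum]
    rw [sum_comm]
    exact sum_congr rfl fun e _ => sum_congr rfl fun b _ => by ring
  have h2 : ∑ e, f e * ∑ b ∈ Sx ι 2, tcr r (ex e) b * ∏ s, q s ^ b s =
      ∑ b ∈ Sx ι 2, (∑ e, f e * tcr r (ex e) b) * ∏ s, q s ^ b s := by
    simp only [sum_mul, mul_sum]
    rw [sum_comm]
    exact sum_congr rfl fun e _ => sum_congr rfl fun b _ => by ring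
  rw [h1, sum_congr rfl fun e _ => by rw [swap (ex e) (hd e)], h2]
  refine sum_eq_zero fun b hb => ?_
  rw [hr b (by rw [mem_Sx.1 hb]; omega), zero_mul]

/-- Euler's relation for the derivatives in the directions of a block. -/
theorem euler_host (β : ι → ℕ) (i : ℕ) (ex : E → ι → ℕ) (hd : ∀ e, ∑ s, ex e s = 4) (f : E → ℂ)
    (q : ι → ℂ) (hq : ∀ s, β s = i → q s = 0) (x : ι) (hx : β x = i) :
    ∑ l ∈ univ.filter (fun l => β l ≠ i),
      q l * ∑ e, f e * tcr q (ex e) (Pi.single x 1 + Pi.single l 1) =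
    3 * ∑ e, f e * tcr q (ex e) (Pi.single x 1) := by
  classical
  have key : ∀ m : ι → ℕ, ∑ s, m s = 4 → ∑ l ∈ univ.filter (fun l => β l ≠ i),
      q l * tcr q m (Pi.single x 1 + Pi.single l 1) = 3 * tcr q m (Pi.single x 1) := by
    intro m hm
    have h1 : ∀ l ∈ univ.filter (fun l => β l ≠ i),
        q l * tcr q m (Pi.single x 1 + Pi.single l 1) = (m l : ℂ) * tcr q m (Pi.single x 1) := by
      intro l hl
      have hlx : l ≠ x := by
        rintro rfl
        exact (mem_filter.1 hl).2 hx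
      unfold tcr
      rw [← mul_prod_erase univ _ (mem_univ l), ← mul_prod_erase univ
        (fun s => (((m s).choose ((Pi.single x 1 : ι → ℕ) s) : ℕ) : ℂ) *
          q s ^ (m s - (Pi.single x 1 : ι → ℕ) s)) (mem_univ l)]
      have h2 : ∏ s ∈ univ.erase l, (((m s).choose ((Pi.single x 1 + Pi.single l 1 : ι → ℕ) s) : ℕ)
          : ℂ) * q s ^ (m s - (Pi.single x 1 + Pi.single l 1 : ι → ℕ) s) =
          ∏ s ∈ univ.erase l, (((m s).choose ((Pi.single x 1 : ι → ℕ) s) : ℕ) : ℂ) *
          q s ^ (m s - (Pi.single x 1 : ι → ℕ) s) := by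
        refine prod_congr rfl fun s hs => ?_
        rw [Pi.add_apply, Pi.single_eq_of_ne (i := l) (ne_of_mem_erase hs), add_zero]
      rw [h2, Pi.add_apply, Pi.single_eq_same, Pi.single_eq_of_ne hlx, zero_add, Nat.choose_one_right,
        Nat.choose_zero_right, Nat.cast_one, one_mul, Nat.sub_zero]
      rcases Nat.eq_zero_or_pos (m l) with h0 | h0
      · rw [h0, Nat.cast_zero]
        ring
      · have h3 : q l ^ (m l) = q l * q l ^ (m l - 1) := by
          rw [← pow_succ']
          congr 1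
          omega
        rw [h3]
        ring
    rw [sum_congr rfl h1, ← sum_mul]
    by_cases h0 : tcr q m (Pi.single x 1) = 0
    · rw [h0, mul_zero, mul_zero]
    congr 1
    have h2 : ∀ s, β s = i → m s = if s = x then 1 else 0 := by
      intro s hs
      have h3 : (((m s).choose ((Pi.single x 1 : ι → ℕ) s) : ℕ) : ℂ) *
          q s ^ (m s - (Pi.single x 1 : ι → ℕ) s) ≠ 0 := by
        intro h4
        apply h0
        unfold tcr
        exact prod_eq_zero (mem_univ s) h4
      by_cases hsx : s = x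
      · rw [if_pos hsx]
        rw [hsx, Pi.single_eq_same, Nat.choose_one_right, hq x hx] at h3
        rw [hsx]
        by_contra h4
        rcases Nat.eq_zero_or_pos (m x) with h5 | h5
        · rw [h5, Nat.cast_zero, zero_mul] at h3
          exact h3 rfl
        · rw [zero_pow (by omega), mul_zero] at h3
          exact h3 rfl
      · rw [if_neg hsx]
        rw [Pi.single_eq_of_ne hsx, Nat.sub_zero, hq s hs] at h3
        by_contra h4
        rw [zero_pow h4, mul_zero] at h3
        exact h3 rfl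
    have h3 : ∑ l ∈ univ.filter (fun l => β l ≠ i), m l = 3 := by
      have h4 := sum_filter_add_sum_filter_not univ (fun l => β l ≠ i) m
      have h5 : ∑ l ∈ univ.filter (fun l => ¬ β l ≠ i), m l = 1 := by
        rw [sum_congr rfl fun l hl => h2 l (not_not.1 (mem_filter.1 hl).2), sum_ite_eq_of_mem']
        rw [mem_filter]
        exact ⟨mem_univ x, not_not.2 hx⟩
      omega
    rw [← Nat.cast_sum, h3]
    norm_num
  have h1 : ∀ l, q l * ∑ e, f e * tcr q (ex e) (Pi.single x 1 + Pi.single l 1) =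
      ∑ e, f e * (q l * tcr q (ex e) (Pi.single x 1 + Pi.single l 1)) := by
    intro l
    rw [mul_sum]
    exact sum_congr rfl fun e _ => by ring
  simp only [h1]
  rw [sum_comm, mul_sum]
  refine sum_congr rfl fun e _ => ?_
  rw [← mul_sum, key (ex e) (hd e)]
  ring

/-- The Taylor coefficients which do not meet the block vanish. -/
theorem off_host (β : ι → ℕ) (i : ℕ) (ex : E → ι → ℕ) (hm : ∀ e, ∃ s, β s = i ∧ ex e s ≠ 0)
    (f : E → ℂ) (q : ι → ℂ) (hq : ∀ s, β s = i → q s = 0) (b : ι → ℕ)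
    (hb : ∀ s, β s = i → b s = 0) : ∑ e, f e * tcr q (ex e) b = 0 := by
  refine sum_eq_zero fun e _ => ?_
  have h1 : tcr q (ex e) b = 0 := by
    refine tcr_off (univ.filter fun s => β s = i) q (fun s hs => hq s (mem_filter.1 hs).2) _ _
      (fun s hs => hb s (mem_filter.1 hs).2) fun h => ?_
    obtain ⟨s, hs, hs2⟩ := hm e
    exact hs2 (h s (mem_filter.2 ⟨mem_univ s, hs⟩))
  rw [h1, mul_zero]

/-- A form of `W` whose quadric at `q` vanishes has a triple point there. -/
theorem fat_host (β : ι → ℕ) (i : ℕ) (ex : E → ι → ℕ) (hm : ∀ e, ∃ s, β s = i ∧ ex e s ≠ 0)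
    (f : E → ℂ) (q : ι → ℂ) (hq : ∀ s, β s = i → q s = 0)
    (h1 : ∀ x, β x = i → ∑ e, f e * tcr q (ex e) (Pi.single x 1) = 0)
    (h2 : ∀ b ∈ EH β i, ∑ e, f e * tcr q (ex e) b = 0) : Fat ex 3 q f := by
  intro b hb
  by_cases hm2 : ∃ s, β s = i ∧ b s ≠ 0
  · obtain ⟨s, hs, hs2⟩ := hm2
    have h3 : b s ≤ ∑ s, b s := single_le_sum (f := b) (fun _ _ => Nat.zero_le _) (mem_univ s)
    rcases (show ∑ s, b s = 2 ∨ ∑ s, b s = 1 by omega) with h4 | h4
    · exact h2 b (mem_EH.2 ⟨h4, s, hs, hs2⟩)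
    · have h5 : b = Pi.single s 1 := by
        funext l
        by_cases hl : l = s
        · rw [hl, Pi.single_eq_same]
          omega
        · rw [Pi.single_eq_of_ne hl]
          have h6 := add_sum_erase univ b (mem_univ s)
          have h7 : b l ≤ ∑ s ∈ univ.erase s, b s :=
            single_le_sum (f := b) (fun _ _ => Nat.zero_le _) (mem_erase.2 ⟨hl, mem_univ l⟩)
          omega
      rw [h5]
      exact h1 s hs
  · push Not at hm2
    exact off_host β i ex hm f q hq b hm2

open Polynomial in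
/-- The conditions in the limit for one double point which moves towards the subspace. -/
theorem lim_zero (β : ι → ℕ) (i : ℕ) (ex : E → ι → ℕ) (hm : ∀ e, ∃ s, β s = i ∧ ex e s ≠ 0)
    (q : ι → ℂ) (hq : ∀ s, β s = i → q s = 0) (s1 : ι) (hs1 : β s1 = i) (F : E → ℂ[X])
    (hF : ∀ b : ι → ℕ, ∑ i, b i < 2 → mH univ ex F q (Pi.single s1 1) b = 0) :
    (∀ x, β x = i → ∑ e, (F e).eval 0 * tcr q (ex e) (Pi.single x 1) = 0) ∧
      ∀ l, (β l ≠ i ∨ l = s1) →
        ∑ e, (F e).eval 0 * tcr q (ex e) (Pi.single l 1 + Pi.single s1 1) = 0 := by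
  have hs : ∀ l : ι, ∑ s, (Pi.single l 1 : ι → ℕ) s = 1 := fun l => by
    rw [sum_pi_single']
    simp
  have hG : ∀ a : ι → ℕ, (∀ s, β s = i → a s = 0) → mG univ ex F q a = 0 := by
    intro a ha
    unfold mG
    refine sum_eq_zero fun e _ => ?_
    have h1 : tcr q (ex e) a = 0 := by
      refine tcr_off (univ.filter fun s => β s = i) q (fun s hs => hq s (mem_filter.1 hs).2) _ _
        (fun s hs => ha s (mem_filter.1 hs).2) fun h => ?_
      obtain ⟨s, hs, hs2⟩ := hm e
      exact hs2 (h s (mem_filter.2 ⟨mem_univ s, hs⟩))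
    rw [tcr_C, h1, C_0, mul_zero]
  refine ⟨fun x _ => dh_fat univ ex F q (Pi.single s1 1) 2 hF _ (by rw [hs]; omega), ?_⟩
  rintro l (hl | rfl)
  · have h1 := deriv_single ex F q s1 (Pi.single l 1) 2 hF (by rw [hs]; omega) (hG _ fun s h => by
      rw [Pi.single_eq_of_ne]
      rintro rfl
      exact hl h)
    rw [hs] at h1
    exact h1
  · have h0 : ∑ s, (0 : ι → ℕ) s = 0 := by simp
    have h1 := deriv_single ex F q l 0 2 hF (by rw [h0]; omega) (hG _ fun s _ => rfl)
    rw [h0] at h1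
    have h2 : (0 : ι → ℕ) + Pi.single l (2 - 0) = Pi.single l 1 + Pi.single l 1 := by
      rw [← Pi.single_add, zero_add]
    rw [h2] at h1
    exact h1

open Polynomial in
/-- The conditions in the limit for double points on the subspace which come together. -/
theorem lim_one (β : ι → ℕ) (i : ℕ) (ex : E → ι → ℕ) (q : ι → ℂ) (o : ι) (F : E → ℂ[X])
    (h0 : ∀ b : ι → ℕ, ∑ i, b i < 2 → mH univ ex F q 0 b = 0)
    (hF : ∀ b : ι → ℕ, ∑ i, b i < 2 → mH univ ex F q (Pi.single o 1) b = 0) :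
    ∀ x, β x = i → ∑ e, (F e).eval 0 * tcr q (ex e) (Pi.single x 1 + Pi.single o 1) = 0 := by
  intro x _
  have hs : ∀ l : ι, ∑ s, (Pi.single l 1 : ι → ℕ) s = 1 := fun l => by
    rw [sum_pi_single']
    simp
  have h1 : mG univ ex F q (Pi.single x 1) = 0 := by
    rw [← h0 (Pi.single x 1) (by rw [hs]; omega)]
    unfold mG mH
    refine sum_congr rfl fun e _ => ?_
    congr 2
    funext s
    unfold mv
    rw [Pi.zero_apply, C_0, mul_zero, add_zero]
  have h2 := deriv_single ex F q o (Pi.single x 1) 2 hF (by rw [hs]; omega) h1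
  rw [hs] at h2
  exact h2

end

end Pool.Agent.KQ
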