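import Pool.Agent.KQ.M.HostS
import Pool.Agent.KQ.M.HostDefs

/-!
# KQ, HOST: the special position and the count
-/

set_option autoImplicit false

namespace Pool.Agent.KQ

open Finset MvPolynomial Pool.Agent.H51.TB Pool.Agent.H54.V7 Pool.Agent.V7.ST Pool.Agent.H21.NX
open Pool.Agent.H18.Ex (tcr)
open Pool.Agent.V7 (msk Ex blk)
open Pool.Agent.KZ

/-- The triple points of a kind which do not lie on `L_i`. -/
def trs (i : ℕ) (k : Kd) : Finset (Fin 3) :=
  if i ∈ st k then ∅ else univ.filter fun x => mu k x = 3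

theorem card_trs (i : ℕ) (k : Kd) : (trs i k).card = tc i k := by
  unfold trs tc
  split_ifs
  · rfl
  · rfl

theorem mem_trs {i : ℕ} {k : Kd} {x : Fin 3} : x ∈ trs i k ↔ i ∉ st k ∧ mu k x = 3 := by
  unfold trs
  split_ifs with h
  · simp [h]
  · simp [h]

section

set_option linter.unusedSectionVars false

variable {ν : Type} [Fintype ν] [DecidableEq ν]

/-- The special position. -/
noncomputable def sp (a : ν) (w : Fin 3 → ν) : ν × Fin 3 → ℂ :=
  fun y => (if y.1 = a then 1 else 0) + if y.1 = w y.2 then 1 else 0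

theorem pt_sp (β : ν → ℕ) {i j : ℕ} (hij : i < j) {k : Kd} (hk : KOk j k) {x : Fin 3}
    (hx : x ∈ trs i k) (a : ν) (w : Fin 3 → ν) (ha : β a = i) (hw : ∀ x, j ≤ β (w x)) :
    ∃ c : ℂ, c ≠ 0 ∧ ∀ s, pt β k x (sp a w) s =
      (if s = a then c else 0) + if s = w x then 1 else 0 := by
  obtain ⟨hI, hx3⟩ := mem_trs.1 hx
  have haw : ∀ x, a ≠ w x := by
    intro x h
    have h1 := hw x
    rw [← h, ha] at h1
    omega
  have hwa : ∀ x, w x ≠ a := fun x h => haw x h.symm
  rcases k with ⟨μ, I⟩ | ⟨i', I⟩ | ⟨i', I⟩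
  · have h0 : x = 0 := by
      by_contra h
      have h1 : mu (Kd.ord μ I) x = 0 := if_neg h
      omega
    subst h0
    refine ⟨1, one_ne_zero, fun s => ?_⟩
    show (if β s ∈ I then (0 : ℂ) else (if s = a then 1 else 0) + if s = w 0 then 1 else 0) = _
    split_ifs with h1 h2 h3 h3 <;> simp_all
    · exact hI h1
    · have := hk (β (w 0)) h1
      have := hw 0
      omega
  · obtain ⟨hi', hI'⟩ := hk
    have hI2 : ∀ x, β (w x) ∉ I := fun x h => by
      have := hI' _ h
      have := hw x
      omega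
    have hw' : ∀ x, β (w x) ≠ i' := fun x h => by
      have := hw x
      omega
    have hx2 : x ≠ 2 := by
      rintro rfl
      have h1 : mu (Kd.pr i' I) 2 = 0 := rfl
      omega
    have hIi : i ∉ I := hI
    rcases (show x = 0 ∨ x = 1 by fin_cases x <;> simp_all) with rfl | rfl
    · refine ⟨1, one_ne_zero, fun s => ?_⟩
      show (if β s ∈ I then (0 : ℂ) else (if s = a then 1 else 0) + if s = w 0 then 1 else 0) = _
      by_cases h1 : s = a
      · rw [h1, ha, if_neg hIi]
      · by_cases h2 : s = w 0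
        · rw [h2, if_neg (hI2 0)]
        · rw [if_neg h1, if_neg h2]
          split_ifs <;> simp
    · refine ⟨if i = i' then -1 else 1, by split_ifs <;> norm_num, fun s => ?_⟩
      show (if β s ∈ I then (0 : ℂ) else if β s = i' then
        -((if s = a then 1 else 0) + if s = w 0 then 1 else 0) else
        (if s = a then 1 else 0) + if s = w 1 then 1 else 0) = _
      by_cases h1 : s = a
      · rw [h1, ha, if_neg hIi, if_neg (haw 0), if_neg (haw 1), if_pos rfl, if_pos rfl]
        split_ifs <;> simp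
      · by_cases h2 : s = w 1
        · rw [h2, if_neg (hI2 1), if_neg (hw' 1), if_neg (hwa 1), if_neg (hwa 1)]
        · rw [if_neg h1, if_neg h2, if_neg h1]
          by_cases h3 : s = w 0
          · rw [h3, if_neg (hw' 0)]
            split_ifs <;> simp
          · rw [if_neg h3]
            split_ifs <;> simp
  · obtain ⟨hi', hI'⟩ := hk
    have hI2 : ∀ x, β (w x) ∉ I := fun x h => by
      have := hI' _ h
      have := hw x
      omega
    have hw' : ∀ x, β (w x) ≠ i' := fun x h => by
      have := hw x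
      omega
    have hIi : i ∉ I := hI
    rcases (show x = 0 ∨ x = 1 ∨ x = 2 by fin_cases x <;> simp_all) with rfl | rfl | rfl
    · refine ⟨1, one_ne_zero, fun s => ?_⟩
      show (if β s ∈ I then (0 : ℂ) else (if s = a then 1 else 0) + if s = w 0 then 1 else 0) = _
      by_cases h1 : s = a
      · rw [h1, ha, if_neg hIi]
      · by_cases h2 : s = w 0
        · rw [h2, if_neg (hI2 0)]
        · rw [if_neg h1, if_neg h2]
          split_ifs <;> simp
    · refine ⟨1, one_ne_zero, fun s => ?_⟩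
      show (if β s ∈ I then (0 : ℂ) else (if s = a then 1 else 0) + if s = w 1 then 1 else 0) = _
      by_cases h1 : s = a
      · rw [h1, ha, if_neg hIi]
      · by_cases h2 : s = w 1
        · rw [h2, if_neg (hI2 1)]
        · rw [if_neg h1, if_neg h2]
          split_ifs <;> simp
    · refine ⟨if i = i' then -2 else 1, by split_ifs <;> norm_num, fun s => ?_⟩
      show (if β s ∈ I then (0 : ℂ) else if β s = i' then
        -(((if s = a then 1 else 0) + if s = w 0 then 1 else 0) +
          ((if s = a then 1 else 0) + if s = w 1 then 1 else 0)) else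
        (if s = a then 1 else 0) + if s = w 2 then 1 else 0) = _
      by_cases h1 : s = a
      · rw [h1, ha, if_neg hIi, if_neg (haw 0), if_neg (haw 1), if_neg (haw 2), if_pos rfl,
          if_pos rfl]
        split_ifs <;> norm_num
      · by_cases h2 : s = w 2
        · rw [h2, if_neg (hI2 2), if_neg (hw' 2), if_neg (hwa 2), if_neg (hwa 2)]
        · rw [if_neg h1, if_neg h2, if_neg h1]
          by_cases h3 : s = w 0
          · rw [h3, if_neg (hw' 0)]
            split_ifs <;> simp
          · by_cases h4 : s = w 1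
            · rw [h4, if_neg (hw' 1)]
              split_ifs <;> simp
            · rw [if_neg h3, if_neg h4]
              split_ifs <;> simp

theorem single_mem_EH (β : ν → ℕ) {i : ℕ} {x l : ν} (hx : β x = i) :
    (Pi.single x 1 + Pi.single l 1 : ν → ℕ) ∈ EH β i := by
  rw [mem_EH]
  refine ⟨?_, x, hx, ?_⟩
  · simp only [Pi.add_apply]
    rw [sum_add_distrib, sum_pi_single', sum_pi_single']
    simp
  · rw [Pi.add_apply, Pi.single_eq_same]
    omega

/-- The value of a quadric at the special position. -/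
theorem sum_sp (β : ν → ℕ) (i : ℕ) (a w : ν) (ha : β a = i) (hw : β w ≠ i) (c : ℂ) (r : ν → ℂ)
    (hr : ∀ s, r s = (if s = a then c else 0) + if s = w then 1 else 0) (g : (ν → ℕ) → ℂ) :
    ∑ b ∈ EH β i, (∏ s, r s ^ b s) * g b = c ^ 2 * g (Pi.single a 1 + Pi.single a 1) +
      c * g (Pi.single a 1 + Pi.single w 1) := by
  classical
  have haw : a ≠ w := by
    rintro rfl
    exact hw ha
  have hra : r a = c := by rw [hr, if_pos rfl, if_neg haw, add_zero]
  have hrw : r w = 1 := by rw [hr, if_pos rfl, if_neg haw.symm, zero_add]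
  have hr0 : ∀ s, s ≠ a → s ≠ w → r s = 0 := by
    intro s h1 h2
    rw [hr, if_neg h1, if_neg h2, add_zero]
  have hne : (Pi.single a 1 + Pi.single a 1 : ν → ℕ) ≠ Pi.single a 1 + Pi.single w 1 := by
    intro h
    have h1 := congrFun h w
    rw [Pi.add_apply, Pi.add_apply, Pi.single_eq_same, Pi.single_eq_of_ne haw.symm] at h1
    omega
  have hpr : ∀ b : ν → ℕ, (∀ s, s ≠ a → s ≠ w → b s = 0) →
      ∏ s, r s ^ b s = c ^ b a := by
    intro b hb
    rw [← mul_prod_erase univ _ (mem_univ a), hra]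
    have h1 : ∏ s ∈ univ.erase a, r s ^ b s = 1 := by
      refine prod_eq_one fun s hs => ?_
      by_cases h2 : s = w
      · rw [h2, hrw, one_pow]
      · rw [hb s (ne_of_mem_erase hs) h2, pow_zero]
    rw [h1, mul_one]
  have hsub : ({Pi.single a 1 + Pi.single a 1, Pi.single a 1 + Pi.single w 1} :
      Finset (ν → ℕ)) ⊆ EH β i := by
    intro b hb
    rw [mem_insert, mem_singleton] at hb
    rcases hb with rfl | rfl
    · exact single_mem_EH β ha
    · exact single_mem_EH β ha
  rw [← sum_subset hsub, sum_pair hne, hpr, hpr]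
  · rw [Pi.add_apply, Pi.add_apply, Pi.single_eq_same, Pi.single_eq_of_ne haw, add_zero, pow_one]
  · intro s h1 h2
    rw [Pi.add_apply, Pi.single_eq_of_ne h1, Pi.single_eq_of_ne h2, add_zero]
  · intro s h1 _
    rw [Pi.add_apply, Pi.single_eq_of_ne h1, add_zero]
  · intro b hb hb2
    by_contra h0
    have h1 : ∀ s, s ≠ a → s ≠ w → b s = 0 := by
      intro s h1 h2
      by_contra h3
      apply h0
      have h4 : ∏ s, r s ^ b s = 0 := by
        refine prod_eq_zero (mem_univ s) ?_
        rw [hr0 s h1 h2, zero_pow h3]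
      rw [h4, zero_mul]
    obtain ⟨h2, s, hs, hs2⟩ := mem_EH.1 hb
    have h3 : s = a := by
      by_contra h4
      have h5 : s ≠ w := by
        rintro rfl
        exact hw hs
      exact hs2 (h1 s h4 h5)
    have h4 : b a + b w = 2 := by
      rw [← h2, ← add_sum_erase univ b (mem_univ a),
        ← add_sum_erase (univ.erase a) b (mem_erase.2 ⟨haw.symm, mem_univ w⟩)]
      have h5 : ∑ s ∈ (univ.erase a).erase w, b s = 0 := by
        refine sum_eq_zero fun s hs => ?_
        rw [mem_erase, mem_erase] at hs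
        exact h1 s hs.2.1 hs.1
      omega
    rw [h3] at hs2
    apply hb2
    rw [mem_insert, mem_singleton]
    have h6 : ∀ b' : ν → ℕ, (∀ s, s ≠ a → s ≠ w → b' s = 0) → b a = b' a → b w = b' w → b = b' := by
      intro b' h7 h8 h9
      funext s
      by_cases h10 : s = a
      · rw [h10, h8]
      · by_cases h11 : s = w
        · rw [h11, h9]
        · rw [h1 s h10 h11, h7 s h10 h11]
    rcases (show b a = 2 ∨ b a = 1 by omega) with h5 | h5
    · left
      refine h6 _ ?_ ?_ ?_
      · intro s h7 _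
        rw [Pi.add_apply, Pi.single_eq_of_ne h7, add_zero]
      · rw [Pi.add_apply, Pi.single_eq_same, h5]
      · rw [Pi.add_apply, Pi.single_eq_of_ne haw.symm]
        omega
    · right
      refine h6 _ ?_ ?_ ?_
      · intro s h7 h8
        rw [Pi.add_apply, Pi.single_eq_of_ne h7, Pi.single_eq_of_ne h8, add_zero]
      · rw [Pi.add_apply, Pi.single_eq_same, Pi.single_eq_of_ne haw, h5, add_zero]
      · rw [Pi.add_apply, Pi.single_eq_of_ne haw.symm, Pi.single_eq_same]
        omega

/-- The count. -/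
theorem finrank_off {β : ν → ℕ} {i : ℕ} (V : Submodule ℂ ({b // b ∈ EH β i} → ℂ))
    (P : Finset (ν → ℕ)) (hP : P ⊆ EH β i)
    (h : ∀ f ∈ V, (∀ b ∈ EH β i, b ∉ P → hx f b = 0) → f = 0) :
    Module.finrank ℂ V + P.card ≤ (EH β i).card := by
  classical
  let L : ({b // b ∈ EH β i} → ℂ) →ₗ[ℂ] ({b // b ∈ EH β i \ P} → ℂ) :=
    LinearMap.pi fun b => LinearMap.proj ⟨b.1, (mem_sdiff.1 b.2).1⟩
  have h1 : Function.Injective (L ∘ₗ V.subtype) := by
    rw [← LinearMap.ker_eq_bot, LinearMap.ker_eq_bot']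
    intro f hf
    apply Subtype.ext
    refine h f.1 f.2 fun b hb hb2 => ?_
    have h2 := congrFun hf ⟨b, mem_sdiff.2 ⟨hb, hb2⟩⟩
    unfold hx
    rw [dif_pos hb]
    exact h2
  have h2 := LinearMap.finrank_le_finrank_of_injective h1
  rw [Module.finrank_fintype_fun_eq_card, Fintype.card_coe] at h2
  have h3 := card_sdiff_add_card_eq_card hP
  omega

/-- The conditions on the quadrics are independent at the special position. -/
theorem special (β : ν → ℕ) {i j : ℕ} (hij : i < j) (Z : Finset (ν → ℕ)) (hZ : Z ⊆ EH β i)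
    {κ : Type} (m : κ → Kd) (hm : ∀ k, KOk j (m k)) (b0 : ν) (hb0 : j ≤ β b0) (aa : κ → ν)
    (ww : κ → Fin 3 → ν) (ha : ∀ k, β (aa k) = i) (hw : ∀ k x, j ≤ β (ww k x))
    (P : Finset (ν → ℕ)) (hP : P ⊆ EH β i)
    (hP1 : ∀ k, (Pi.single (aa k) 1 + Pi.single (aa k) 1 : ν → ℕ) ∉ P)
    (hP2 : ∀ b ∈ P, b ∈ Z ∨ (∃ x, β x = i ∧ b = Pi.single x 1 + Pi.single b0 1) ∨
      ∃ k, ∃ x ∈ trs i (m k), b = Pi.single (aa k) 1 + Pi.single (ww k x) 1) :
    ∃ p : κ ⊕ Unit → ν × Fin 3 → ℂ,
      Module.finrank ℂ ((HS β i Z).V (ad (fun k => some (m k)) none) p) + P.card ≤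
        (EH β i).card := by
  classical
  let p : κ ⊕ Unit → ν × Fin 3 → ℂ :=
    Sum.elim (fun k => sp (aa k) (ww k)) fun _ y => if y.1 = b0 then 1 else 0
  refine ⟨p, finrank_off _ P hP fun f hf hoff => ?_⟩
  rw [mem_HS β i Z hZ] at hf
  obtain ⟨h1, h2⟩ : SatH β i Z none (p (Sum.inr ())) f := hf (Sum.inr ())
  have h3 : ∀ x, β x = i → hx f (Pi.single x 1 + Pi.single b0 1) = 0 := by
    intro x hxi
    rw [← h1 x hxi]
    symm
    rw [sum_eq_single_of_mem b0]
    · show (if b0 = b0 then (1 : ℂ) else 0) * _ = _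
      rw [if_pos rfl, one_mul]
    · rw [mem_filter]
      refine ⟨mem_univ _, ?_⟩
      omega
    · intro l _ hl
      show (if l = b0 then (1 : ℂ) else 0) * _ = 0
      rw [if_neg hl, zero_mul]
  have h4 : ∀ k, ∀ x ∈ trs i (m k), hx f (Pi.single (aa k) 1 + Pi.single (ww k x) 1) = 0 := by
    intro k x hx
    have h5 : SatH β i Z (some (m k)) (p (Sum.inl k)) f := hf (Sum.inl k)
    have h6 := h5 x (mem_trs.1 hx).2
    obtain ⟨c, hc, hr⟩ := pt_sp β hij (hm k) hx (aa k) (ww k) (ha k) (hw k)
    have hwk : β (ww k x) ≠ i := by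
      have := hw k x
      omega
    have h7 := sum_sp β i (aa k) (ww k x) (ha k) hwk c _ hr (Pool.Agent.KQ.hx f)
    have h8 : Pool.Agent.KQ.hx f (Pi.single (aa k) 1 + Pi.single (aa k) 1) = 0 :=
      hoff _ (single_mem_EH β (ha k)) (hP1 k)
    rw [h8, mul_zero, zero_add] at h7
    have h9 : c * Pool.Agent.KQ.hx f (Pi.single (aa k) 1 + Pi.single (ww k x) 1) = 0 := by
      rw [← h7]
      exact h6
    exact (mul_eq_zero.1 h9).resolve_left hc
  have h5 : ∀ b ∈ EH β i, hx f b = 0 := by
    intro b hb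
    by_cases hbP : b ∈ P
    · rcases hP2 b hbP with h6 | ⟨x, hxi, rfl⟩ | ⟨k, x, hx, rfl⟩
      · exact h2 b h6
      · exact h3 x hxi
      · exact h4 k x hx
    · exact hoff b hb hbP
  funext b
  rw [← hx_coe f b]
  exact h5 b.1 b.2

theorem two_inj {β : ν → ℕ} {i : ℕ} {x x' y y' : ν} (hx : β x = i) (hx' : β x' = i)
    (hy : β y ≠ i) (hy' : β y' ≠ i)
    (h : (Pi.single x 1 + Pi.single y 1 : ν → ℕ) = Pi.single x' 1 + Pi.single y' 1) :
    x = x' ∧ y = y' := by
  have hxy : x ≠ y := by
    rintro rfl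
    exact hy hx
  have hxy' : x ≠ y' := by
    rintro rfl
    exact hy' hx
  have hyx' : y ≠ x' := by
    rintro rfl
    exact hy hx'
  constructor
  · by_contra hne
    have h1 := congrFun h x
    rw [Pi.add_apply, Pi.add_apply, Pi.single_eq_same, Pi.single_eq_of_ne hxy,
      Pi.single_eq_of_ne hne, Pi.single_eq_of_ne hxy'] at h1
    omega
  · by_contra hne
    have h1 := congrFun h y
    rw [Pi.add_apply, Pi.add_apply, Pi.single_eq_same, Pi.single_eq_of_ne hxy.symm,
      Pi.single_eq_of_ne hne, Pi.single_eq_of_ne hyx'] at h1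
    omega

end

end Pool.Agent.KQ
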