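import Pool.Agent.KQ.M.HostL

/-!
# KQ, HOST: the abstract statement

`HS β i Z`: the quadrics `h` (coefficients on the exponents of degree `2` which meet the block `i`)
with `h (r ^ 2) = 0` for the triple points `r` (types `some k`) and `h (q x) = 0` (`x` in the block
`i`), `h = 0` on `Z` (type `none`, the host).
-/

set_option autoImplicit false

namespace Pool.Agent.KQ

open Finset MvPolynomial Pool.Agent.H51.TB Pool.Agent.H54.V7 Pool.Agent.V7.ST Pool.Agent.H21.NX
open Pool.Agent.H18.Ex (tcr)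
open Pool.Agent.V7 (msk Ex blk)
open Pool.Agent.KZ

section

set_option linter.unusedSectionVars false

variable {ν : Type} [Fintype ν] [DecidableEq ν]

/-- The types of the conditions on the quadrics. -/
def HR (ν : Type) (Z : Finset (ν → ℕ)) : Option Kd → Type
  | none => ν ⊕ {z // z ∈ Z}
  | some _ => Fin 3

theorem finite_HR (Z : Finset (ν → ℕ)) (t : Option Kd) : Finite (HR ν Z t) := by
  rcases t with _ | k
  · show Finite (ν ⊕ {z // z ∈ Z})
    infer_instance
  · show Finite (Fin 3)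
    infer_instance

/-- The coefficients of the conditions on the quadrics. -/
noncomputable def hco (β : ν → ℕ) (i : ℕ) (Z : Finset (ν → ℕ)) :
    ∀ t : Option Kd, HR ν Z t → (ν → ℕ) → MvPolynomial (ν × Fin 3) ℂ
  | none, .inl x, b => if β x = i then ∑ l ∈ univ.filter (fun l => β l ≠ i),
      (if b = Pi.single x 1 + Pi.single l 1 then X (l, 0) else 0) else 0
  | none, .inr z, b => if b = z.1 then 1 else 0
  | some k, x, b => if mu k x = 3 then
      ∏ s, (pt β k x fun s => (X s : MvPolynomial (ν × Fin 3) ℂ)) s ^ b s else 0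

/-- The system of the quadrics. -/
noncomputable def HS (β : ν → ℕ) (i : ℕ) (Z : Finset (ν → ℕ)) :
    Sys {b // b ∈ EH β i} (ν × Fin 3) (Option Kd) where
  R := HR ν Z
  fin := finite_HR Z
  co := fun t r b => hco β i Z t r b.1

/-- Extension of a quadric by zero. -/
noncomputable def hx {β : ν → ℕ} {i : ℕ} (h : {b // b ∈ EH β i} → ℂ) (b : ν → ℕ) : ℂ :=
  if hb : b ∈ EH β i then h ⟨b, hb⟩ else 0

theorem hx_coe {β : ν → ℕ} {i : ℕ} (h : {b // b ∈ EH β i} → ℂ) (b : {b // b ∈ EH β i}) :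
    hx h b.1 = h b := dif_pos b.2

theorem sum_hx {β : ν → ℕ} {i : ℕ} (h : {b // b ∈ EH β i} → ℂ) (g : (ν → ℕ) → ℂ) :
    ∑ b : {b // b ∈ EH β i}, g b.1 * h b = ∑ b ∈ EH β i, g b * hx h b := by
  rw [← sum_coe_sort (EH β i)]
  exact sum_congr rfl fun b _ => by rw [hx_coe]

theorem sum_EH (β : ν → ℕ) (i : ℕ) (g : (ν → ℕ) → ℂ) :
    ∑ b ∈ EH β i, g b = ∑ b ∈ Sx ν 2, if ∃ s, β s = i ∧ b s ≠ 0 then g b else 0 :=
  sum_filter _ _

theorem eval_pt (β : ν → ℕ) (k : Kd) (x : Fin 3) (q : ν × Fin 3 → ℂ) (s : ν) :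
    eval q ((pt β k x fun s => (X s : MvPolynomial (ν × Fin 3) ℂ)) s) = pt β k x q s := by
  rcases k with ⟨μ, I⟩ | ⟨i, I⟩ | ⟨i, I⟩
  · simp only [pt, msk]
    split_ifs
    · rw [map_zero]
    · rw [eval_X]
  · simp only [pt, msk]
    split_ifs
    · rw [map_zero]
    · rw [eval_X]
    · rw [map_neg, eval_X]
    · rw [eval_X]
  · simp only [pt, msk]
    split_ifs
    · rw [map_zero]
    · rw [map_neg, map_add, eval_X, eval_X]
    · rw [eval_X]
    · rw [eval_X]

/-- The conditions on the quadrics. -/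
def SatH (β : ν → ℕ) (i : ℕ) (Z : Finset (ν → ℕ)) :
    Option Kd → (ν × Fin 3 → ℂ) → ({b // b ∈ EH β i} → ℂ) → Prop
  | none, q, h => (∀ x, β x = i → ∑ l ∈ univ.filter (fun l => β l ≠ i),
      q (l, 0) * hx h (Pi.single x 1 + Pi.single l 1) = 0) ∧ ∀ z ∈ Z, hx h z = 0
  | some k, q, h => ∀ x, mu k x = 3 → ∑ b ∈ EH β i, (∏ s, pt β k x q s ^ b s) * hx h b = 0

theorem mem_HS (β : ν → ℕ) (i : ℕ) (Z : Finset (ν → ℕ)) (hZ : Z ⊆ EH β i) {κ : Type}
    (m : κ → Option Kd) (p : κ → ν × Fin 3 → ℂ) (h : {b // b ∈ EH β i} → ℂ) :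
    h ∈ (HS β i Z).V m p ↔ ∀ k, SatH β i Z (m k) (p k) h := by
  classical
  rw [Sys.mem_V]
  refine forall_congr' fun k => ?_
  generalize p k = q
  show (∀ r : HR ν Z (m k), ∑ b : {b // b ∈ EH β i}, eval q (hco β i Z (m k) r b.1) * h b = 0) ↔ _
  have hsum : ∀ r : HR ν Z (m k), ∑ b : {b // b ∈ EH β i}, eval q (hco β i Z (m k) r b.1) * h b =
      ∑ b ∈ EH β i, eval q (hco β i Z (m k) r b) * hx h b :=
    fun r => sum_hx h fun b => eval q (hco β i Z (m k) r b)
  simp only [hsum]
  clear hsum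
  rcases m k with _ | k
  · have hin : ∀ x, β x = i → ∀ l, β l ≠ i → (Pi.single x 1 + Pi.single l 1 : ν → ℕ) ∈ EH β i := by
      intro x hx l _
      rw [mem_EH]
      refine ⟨?_, x, hx, ?_⟩
      · simp only [Pi.add_apply]
        rw [sum_add_distrib, sum_pi_single', sum_pi_single']
        simp
      · rw [Pi.add_apply, Pi.single_eq_same]
        omega
    have hL : ∀ x, β x = i → ∑ b ∈ EH β i, eval q (hco β i Z none (.inl x) b) * hx h b =
        ∑ l ∈ univ.filter (fun l => β l ≠ i), q (l, 0) * hx h (Pi.single x 1 + Pi.single l 1) := by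
      intro x hxi
      have h1 : ∀ b, eval q (hco β i Z none (.inl x) b) * hx h b =
          ∑ l ∈ univ.filter (fun l => β l ≠ i),
            (if b = Pi.single x 1 + Pi.single l 1 then q (l, 0) * hx h b else 0) := by
        intro b
        show eval q (if β x = i then ∑ l ∈ univ.filter (fun l => β l ≠ i),
          (if b = Pi.single x 1 + Pi.single l 1 then X (l, 0) else 0) else 0) * hx h b = _
        rw [if_pos hxi, map_sum, sum_mul]
        refine sum_congr rfl fun l _ => ?_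
        split_ifs
        · rw [eval_X]
        · rw [map_zero, zero_mul]
      rw [sum_congr rfl fun b _ => h1 b, sum_comm]
      refine sum_congr rfl fun l hl => ?_
      rw [sum_ite_eq' (EH β i) (Pi.single x 1 + Pi.single l 1 : ν → ℕ)
        (fun b => q (l, 0) * hx h b), if_pos (hin x hxi l (mem_filter.1 hl).2)]
    have hR : ∀ z : {z // z ∈ Z}, ∑ b ∈ EH β i, eval q (hco β i Z none (.inr z) b) * hx h b =
        hx h z.1 := by
      intro z
      have h1 : ∀ b, eval q (hco β i Z none (.inr z) b) * hx h b =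
          if b = z.1 then hx h b else 0 := by
        intro b
        show eval q (if b = z.1 then 1 else 0) * hx h b = _
        split_ifs
        · rw [map_one, one_mul]
        · rw [map_zero, zero_mul]
      rw [sum_congr rfl fun b _ => h1 b, sum_ite_eq' (EH β i) z.1 (fun b => hx h b),
        if_pos (hZ z.2)]
    constructor
    · intro hh
      refine ⟨fun x hxi => ?_, fun z hz => ?_⟩
      · rw [← hL x hxi]
        exact hh (.inl x)
      · rw [← hR ⟨z, hz⟩]
        exact hh (.inr ⟨z, hz⟩)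
    · rintro ⟨h1, h2⟩ (x | z)
      · by_cases hxi : β x = i
        · rw [hL x hxi]
          exact h1 x hxi
        · refine sum_eq_zero fun b _ => ?_
          show eval q (if β x = i then _ else 0) * hx h b = 0
          rw [if_neg hxi, map_zero, zero_mul]
      · rw [hR z]
        exact h2 z.1 z.2
  · refine forall_congr' fun x => ?_
    have h1 : ∀ b, eval q (hco β i Z (some k) x b) =
        if mu k x = 3 then ∏ s, pt β k x q s ^ b s else 0 := by
      intro b
      show eval q (if mu k x = 3 then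
        ∏ s, (pt β k x fun s => (X s : MvPolynomial (ν × Fin 3) ℂ)) s ^ b s else 0) = _
      split_ifs
      · rw [map_prod]
        exact prod_congr rfl fun s _ => by rw [map_pow, eval_pt]
      · rw [map_zero]
    have h2 : ∑ b ∈ EH β i, eval q (hco β i Z (some k) x b) * hx h b =
        ∑ b ∈ EH β i, (if mu k x = 3 then ∏ s, pt β k x q s ^ b s else 0) * hx h b :=
      sum_congr rfl fun b _ => by rw [h1]
    rw [h2]
    by_cases h3 : mu k x = 3
    · constructor
      · intro h4 _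
        refine Eq.trans (sum_congr rfl fun b _ => ?_) h4
        rw [if_pos h3]
      · intro h4
        refine Eq.trans (sum_congr rfl fun b _ => ?_) (h4 h3)
        rw [if_pos h3]
    · refine ⟨fun _ h4 => absurd h4 h3, fun _ => sum_eq_zero fun b _ => ?_⟩
      rw [if_neg h3, zero_mul]

/-- The exponents of the conditions of the limit. -/
def YZ (β : ν → ℕ) (i : ℕ) (Z : Finset (ν → ℕ)) : Set (ν → ℕ) :=
  {b | (∃ x, β x = i ∧ b = Pi.single x 1) ∨ b ∈ Z}

/-- **The abstract host lemma.** -/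
theorem host_abs (β : ν → ℕ) (i : ℕ) (A : Finset (ν → ℕ)) (hA : ∀ a ∈ A, ∑ s, a s = 4)
    (hAi : ∀ a ∈ A, ∃ s, β s = i ∧ a s ≠ 0) (Z : Finset (ν → ℕ)) (hZ : Z ⊆ EH β i)
    {κ κ' : Type} [Fintype κ] (m : κ → Kd) (small : κ' → Kd) (P : ℕ)
    (hlim : ∀ (W : Submodule ℂ ({a // a ∈ A} → ℂ)) (q : ν → ℂ), (∀ s, β s = i → q s = 0) →
      ∃ pos : κ' → ν × Fin 3 → ℂ,
        Module.finrank ℂ (W ⊓ (LSA β A).V small pos : Submodule ℂ ({a // a ∈ A} → ℂ)) ≤
          Module.finrank ℂ (hsub W (fun e : {a // a ∈ A} => e.1) q (YZ β i Z)))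
    (hsp : ∃ p : κ ⊕ Unit → ν × Fin 3 → ℂ,
      Module.finrank ℂ ((HS β i Z).V (ad (fun k => some (m k)) none) p) + P ≤ (EH β i).card) :
    (LSA β A).gd (Sum.elim m small) + P ≤
      (LSA β A).gd (ad m (Kd.ord 3 {i})) + (EH β i).card := by
  classical
  obtain ⟨p, hp1, hp2⟩ := ((gn_gd (LSA β A) (ad m (Kd.ord 3 {i}))).and
    (gn_gd (HS β i Z) (ad (fun k => some (m k)) none))).exists
  obtain ⟨p0, hp0⟩ := hsp
  have h0 := gd_le (HS β i Z) (ad (fun k => some (m k)) none) p0
  let ex : {a // a ∈ A} → ν → ℕ := fun e => e.1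
  have hd : ∀ e, ∑ s, ex e s = 4 := fun e => hA e.1 e.2
  have hm : ∀ e, ∃ s, β s = i ∧ ex e s ≠ 0 := fun e => hAi e.1 e.2
  let q : ν → ℂ := msk β {i} fun s => p (Sum.inr ()) (s, 0)
  have hq : ∀ s, β s = i → q s = 0 := by
    intro s hs
    show (if β s ∈ ({i} : Finset ℕ) then (0 : ℂ) else p (Sum.inr ()) (s, 0)) = 0
    rw [if_pos (mem_singleton.2 hs)]
  have hq' : ∀ s, β s ≠ i → q s = p (Sum.inr ()) (s, 0) := by
    intro s hs
    show (if β s ∈ ({i} : Finset ℕ) then (0 : ℂ) else p (Sum.inr ()) (s, 0)) = _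
    rw [if_neg fun h => hs (mem_singleton.1 h)]
  let W : Submodule ℂ ({a // a ∈ A} → ℂ) := (LSA β A).V m fun k => p (Sum.inl k)
  let R : Submodule ℂ ({a // a ∈ A} → ℂ) := hsub W ex q (YZ β i Z)
  -- the quadric of a form
  let Φ : ({a // a ∈ A} → ℂ) →ₗ[ℂ] ({b // b ∈ EH β i} → ℂ) :=
    LinearMap.pi fun b => ∑ e, tcr q (ex e) b.1 • LinearMap.proj e
  have hΦ : ∀ f b, Φ f b = ∑ e, f e * tcr q (ex e) b.1 := by
    intro f b
    show (∑ e, tcr q (ex e) b.1 • (LinearMap.proj e : ({a // a ∈ A} → ℂ) →ₗ[ℂ] ℂ)) f = _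
    rw [LinearMap.sum_apply]
    refine sum_congr rfl fun e _ => ?_
    show tcr q (ex e) b.1 * f e = _
    rw [mul_comm]
  have hxΦ : ∀ f, ∀ b ∈ EH β i, hx (Φ f) b = ∑ e, f e * tcr q (ex e) b := by
    intro f b hb
    unfold hx
    rw [dif_pos hb, hΦ]
  have hV : ∀ f ∈ R, Φ f ∈ (HS β i Z).V (ad (fun k => some (m k)) none) p := by
    intro f hf
    rw [mem_HS β i Z hZ]
    rintro (k | u)
    · -- a member
      show ∀ x, mu (m k) x = 3 →
        ∑ b ∈ EH β i, (∏ s, pt β (m k) x (p (Sum.inl k)) s ^ b s) * hx (Φ f) b = 0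
      intro x hx3
      have h1 : f ∈ (LSA β A).V m fun k => p (Sum.inl k) := hf.1
      rw [mem_LSA] at h1
      have h2 := h1 k x
      rw [hx3] at h2
      have h3 := rel_two ex hd f q _ h2
      refine Eq.trans ?_ h3
      rw [sum_EH]
      refine sum_congr rfl fun b hb => ?_
      split_ifs with h4
      · rw [hxΦ f b (mem_filter.2 ⟨hb, h4⟩), mul_comm]
      · push Not at h4
        rw [off_host β i ex hm f q hq b h4, zero_mul]
    · -- the host
      refine ⟨fun x hxi => ?_, fun z hz => ?_⟩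
      · have h1 := euler_host β i ex hd f q hq x hxi
        rw [hf.2 (Pi.single x 1) (Or.inl ⟨x, hxi, rfl⟩), mul_zero] at h1
        refine Eq.trans ?_ h1
        refine sum_congr rfl fun l hl => ?_
        have hl2 := (mem_filter.1 hl).2
        rw [hq' l hl2, hxΦ]
        rw [mem_EH]
        refine ⟨?_, x, hxi, ?_⟩
        · simp only [Pi.add_apply]
          rw [sum_add_distrib, sum_pi_single', sum_pi_single']
          simp
        · rw [Pi.add_apply, Pi.single_eq_same]
          omega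
      · rw [hxΦ f z (hZ hz)]
        exact hf.2 z (Or.inr hz)
  have hK : ∀ f ∈ R, Φ f = 0 → f ∈ (LSA β A).V (ad m (Kd.ord 3 {i})) p := by
    intro f hf h0
    rw [mem_LSA]
    have h1 : f ∈ (LSA β A).V m fun k => p (Sum.inl k) := hf.1
    rw [mem_LSA] at h1
    have h2 : Fat ex 3 q f := by
      refine fat_host β i ex hm f q hq (fun x hxi => hf.2 _ (Or.inl ⟨x, hxi, rfl⟩)) ?_
      intro b hb
      rw [← hxΦ f b hb, h0]
      unfold hx
      rw [dif_pos hb]
      rfl
    rintro (k | u)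
    · exact h1 k
    · intro x
      show Fat ex (mu (Kd.ord 3 {i}) x) (pt β (Kd.ord 3 {i}) x (p (Sum.inr u))) f
      by_cases hx0 : x = 0
      · subst hx0
        exact h2
      · have h3 : mu (Kd.ord 3 {i}) x = 0 := if_neg hx0
        rw [h3]
        intro b hb
        exact absurd hb (Nat.not_lt_zero _)
  have hdim : Module.finrank ℂ R ≤ Module.finrank ℂ ((LSA β A).V (ad m (Kd.ord 3 {i})) p) +
      Module.finrank ℂ ((HS β i Z).V (ad (fun k => some (m k)) none) p) := by
    let Ψ : R →ₗ[ℂ] (HS β i Z).V (ad (fun k => some (m k)) none) p :=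
      LinearMap.codRestrict _ (Φ ∘ₗ R.subtype) fun f => hV f.1 f.2
    have h1 := LinearMap.finrank_range_add_finrank_ker Ψ
    have h2 : Module.finrank ℂ (LinearMap.range Ψ) ≤
      Module.finrank ℂ ((HS β i Z).V (ad (fun k => some (m k)) none) p) := Submodule.finrank_le _
    let Θ : LinearMap.ker Ψ →ₗ[ℂ] (LSA β A).V (ad m (Kd.ord 3 {i})) p :=
      LinearMap.codRestrict _ (R.subtype ∘ₗ (LinearMap.ker Ψ).subtype) fun f => by
        have h3 : Ψ f.1 = 0 := f.2
        exact hK f.1.1 f.1.2 (congrArg Subtype.val h3)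
    have h3 : Module.finrank ℂ (LinearMap.ker Ψ) ≤
        Module.finrank ℂ ((LSA β A).V (ad m (Kd.ord 3 {i})) p) := by
      refine LinearMap.finrank_le_finrank_of_injective (f := Θ) ?_
      intro f g hfg
      have h4 := congrArg Subtype.val hfg
      exact Subtype.ext (Subtype.ext h4)
    omega
  obtain ⟨pos, hpos⟩ := hlim W q hq
  have h1 := gd_le (LSA β A) (Sum.elim m small) (Sum.elim (fun k => p (Sum.inl k)) pos)
  rw [V_elim] at h1
  have h2 : Module.finrank ℂ (W ⊓ (LSA β A).V small pos : Submodule ℂ ({a // a ∈ A} → ℂ)) ≤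
    Module.finrank ℂ R := hpos
  rw [hp1, hp2] at hdim
  have h3 : (LSA β A).gd (Sum.elim m small) ≤
    Module.finrank ℂ (W ⊓ (LSA β A).V small pos : Submodule ℂ ({a // a ∈ A} → ℂ)) := h1
  omega

end

end Pool.Agent.KQ
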